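import Pool.Agent.K4H75.PG.Pair

set_option autoImplicit false

/-! Two elements of order eleven modulo scalars generating a soluble group in degree eleven. -/

namespace Pool.Agent.K4H75.PG

open Module Polynomial

universe u v w

variable {F : Type u} [Field F] {V : Type v} [AddCommGroup V] [Module F V]
  {G : Type w} [Group G]

/-- `u = a`, or `a` conjugates `u` to a nontrivial multiple of `u` -/
def InY (a : Module.End F V) (u : (Module.End F V)ˣ) : Prop :=
  (u : Module.End F V) = a ∨ ∃ η : F, η ^ 11 = 1 ∧ η ≠ 1 ∧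
    a * (u : Module.End F V) = η • ((u : Module.End F V) * a)

section alg

variable {ρ : G →* Module.End F V} {N : Subgroup G}

theorem span_comm (hab : ∀ a ∈ N, ∀ b ∈ N, a * b = b * a) :
    ∀ a ∈ Submodule.span F (ρ '' (N : Set G)), ∀ b ∈ Submodule.span F (ρ '' (N : Set G)),
      a * b = b * a := by
  intro a ha b hb
  induction ha using Submodule.span_induction with
  | mem x hx =>
    obtain ⟨m, hm, rfl⟩ := hx
    induction hb using Submodule.span_induction with
    | mem x hx =>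
      obtain ⟨n, hn, rfl⟩ := hx
      rw [← map_mul, hab m hm n hn, map_mul]
    | zero => rw [mul_zero, zero_mul]
    | add x y _ _ hx hy => rw [mul_add, add_mul, hx, hy]
    | smul c x _ hx => rw [mul_smul_comm, smul_mul_assoc, hx]
  | zero => rw [mul_zero, zero_mul]
  | add x y _ _ hx hy => rw [mul_add, add_mul, hx, hy]
  | smul c x _ hx => rw [mul_smul_comm, smul_mul_assoc, hx]

theorem span_conj (hN : N.Normal) (g : G) :
    ∀ a ∈ Submodule.span F (ρ '' (N : Set G)),
      ρ g * a * ρ g⁻¹ ∈ Submodule.span F (ρ '' (N : Set G)) := by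
  intro a ha
  induction ha using Submodule.span_induction with
  | mem x hx =>
    obtain ⟨m, hm, rfl⟩ := hx
    rw [← map_mul, ← map_mul]
    exact Submodule.subset_span ⟨_, hN.conj_mem m hm g, rfl⟩
  | zero => rw [mul_zero, zero_mul]; exact Submodule.zero_mem _
  | add x y _ _ hx hy => rw [mul_add, add_mul]; exact Submodule.add_mem _ hx hy
  | smul c x _ hx => rw [mul_smul_comm, smul_mul_assoc]; exact Submodule.smul_mem _ _ hx

theorem span_centralise {g : G} (hg : ∀ n ∈ N, g * n = n * g) :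
    ∀ a ∈ Submodule.span F (ρ '' (N : Set G)), ρ g * a = a * ρ g := by
  intro a ha
  induction ha using Submodule.span_induction with
  | mem x hx =>
    obtain ⟨m, hm, rfl⟩ := hx
    rw [← map_mul, hg m hm, map_mul]
  | zero => rw [mul_zero, zero_mul]
  | add x y _ _ hx hy => rw [mul_add, add_mul, hx, hy]
  | smul c x _ hx => rw [mul_smul_comm, smul_mul_assoc, hx]

theorem conj_pow_end (g : G) (w : Module.End F V) (m : ℕ) :
    (ρ g * w * ρ g⁻¹) ^ m = ρ g * w ^ m * ρ g⁻¹ := by
  induction m with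
  | zero =>
    rw [pow_zero, pow_zero, mul_one, ← map_mul, mul_inv_cancel, map_one]
  | succ m ih =>
    rw [pow_succ, ih, pow_succ]
    have h1 : ρ g⁻¹ * ρ g = 1 := by rw [← map_mul, inv_mul_cancel, map_one]
    calc ρ g * w ^ m * ρ g⁻¹ * (ρ g * w * ρ g⁻¹) = ρ g * w ^ m * (ρ g⁻¹ * ρ g) * w * ρ g⁻¹ := by
          simp only [mul_assoc]
      _ = ρ g * (w ^ m * w) * ρ g⁻¹ := by rw [h1, mul_one, mul_assoc (ρ g)]

theorem no_nilpotent [FiniteDimensional F V] [Nontrivial V] (hN : N.Normal)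
    (hab : ∀ a ∈ N, ∀ b ∈ N, a * b = b * a) (hirr : Irr ρ Set.univ) {w : Module.End F V}
    (hw : w ∈ Submodule.span F (ρ '' (N : Set G))) (hnil : IsNilpotent w) : w = 0 := by
  obtain ⟨m, hm⟩ := hnil
  let C : Set (Module.End F V) := {x | ∃ g : G, x = ρ g * w * ρ g⁻¹}
  obtain ⟨v, hv0, hv⟩ := exists_common_kernel (F := F) C (by
    rintro _ ⟨g, rfl⟩ _ ⟨h, rfl⟩
    exact span_comm hab _ (span_conj hN g w hw) _ (span_conj hN h w hw)) (by
    rintro _ ⟨g, rfl⟩
    exact ⟨m, by rw [conj_pow_end, hm, mul_zero, zero_mul]⟩)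
  let U : Submodule F V := ⨅ g : G, LinearMap.ker (ρ g * w * ρ g⁻¹)
  have hU : ∀ x, x ∈ U ↔ ∀ g, (ρ g * w * ρ g⁻¹) x = 0 := by
    intro x
    rw [Submodule.mem_iInf]
    rfl
  rcases hirr U (by
      rintro _ ⟨h, -, rfl⟩ x hx
      rw [hU] at hx ⊢
      intro g
      have h1 : (ρ g * w * ρ g⁻¹) (ρ h x) = ρ h ((ρ (h⁻¹ * g) * w * ρ (h⁻¹ * g)⁻¹) x) := by
        rw [← Module.End.mul_apply, ← Module.End.mul_apply]
        congr 1
        rw [mul_inv_rev, inv_inv, map_mul, map_mul]
        have h2 : ρ h * ρ h⁻¹ = 1 := by rw [← map_mul, mul_inv_cancel, map_one]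
        calc ρ g * w * ρ g⁻¹ * ρ h = 1 * ρ g * w * (ρ g⁻¹ * ρ h) := by
              simp only [mul_assoc, one_mul]
          _ = ρ h * (ρ h⁻¹ * ρ g * w * (ρ g⁻¹ * ρ h)) := by
              rw [← h2]
              simp only [mul_assoc]
      rw [h1, hx, map_zero]) with h | h
  · exfalso
    apply hv0
    have : v ∈ U := (hU v).mpr (fun g => hv _ ⟨g, rfl⟩)
    rw [h] at this
    exact this
  · ext x
    have h1 : x ∈ U := by rw [h]; exact Submodule.mem_top
    have h2 := (hU x).mp h1 1
    rw [inv_one, map_one, one_mul, mul_one] at h2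
    exact h2

theorem exists_eigenelement [FiniteDimensional F V] (hV : finrank F V = 11)
    {η : F} (h1 : η ^ 11 = 1) (h2 : η ≠ 1) (hρ : Function.Injective ρ) (hN : N.Normal)
    (hab : ∀ a ∈ N, ∀ b ∈ N, a * b = b * a) (hirr : Irr ρ Set.univ) {g : G}
    (hg : ∃ c : F, ρ g ^ 11 = c • 1) (hng : ¬ ∀ n ∈ N, g * n = n * g) :
    ∃ u : (Module.End F V)ˣ, (u : Module.End F V) ∈ Submodule.span F (ρ '' (N : Set G)) ∧
      InY (ρ g) u := by
  have hnt : Nontrivial V := Module.nontrivial_of_finrank_pos (R := F) (by omega)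
  push Not at hng
  obtain ⟨n, hn, hne⟩ := hng
  obtain ⟨c, hc⟩ := hg
  let T : Module.End F (Module.End F V) :=
    (LinearMap.mulLeft F (ρ g)) ∘ₗ LinearMap.mulRight F (ρ g⁻¹)
  have hTX : ∀ X, T X = ρ g * X * ρ g⁻¹ := fun X => (mul_assoc _ _ _).symm
  have hTm : ∀ (m : ℕ) (X : Module.End F V), (T ^ m) X = ρ (g ^ m) * X * ρ (g ^ m)⁻¹ := by
    intro m
    induction m with
    | zero => intro X; rw [pow_zero, pow_zero, inv_one, map_one, one_mul, mul_one]; rfl
    | succ m ih =>
      intro X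
      rw [pow_succ', Module.End.mul_apply, ih, hTX, pow_succ' g, mul_inv_rev, map_mul, map_mul]
      simp only [mul_assoc]
  have hT : T ^ 11 = 1 := by
    apply LinearMap.ext
    intro X
    rw [hTm]
    have h3 : ρ (g ^ 11) * X = X * ρ (g ^ 11) := by
      rw [map_pow, hc, smul_mul_assoc, mul_smul_comm, one_mul, mul_one]
    rw [h3, mul_assoc, ← map_mul, mul_inv_cancel, map_one, mul_one]
    rfl
  obtain ⟨k, hk1, hk2, hP⟩ := P_ne_zero hT h1 h2 (v := ρ n) (by
    rw [hTX, ← map_mul, ← map_mul]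
    intro h
    exact hne (mul_inv_eq_iff_eq_mul.mp (hρ h)))
  set w := P T η k (ρ n) with hw
  have hwA : w ∈ Submodule.span F (ρ '' (N : Set G)) := by
    rw [hw]
    unfold P
    apply Submodule.sum_mem
    intro j _
    apply Submodule.smul_mem
    rw [hTm]
    exact span_conj hN (g ^ j) _ (Submodule.subset_span ⟨n, hn, rfl⟩)
  have hη0 : η ≠ 0 := by
    rintro rfl
    rw [zero_pow (by norm_num)] at h1
    exact zero_ne_one h1
  have heig := P_eig hT h1 k (ρ n)
  rw [← hw, hTX] at heig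
  have hη' : ((η ^ k)⁻¹) ^ 11 = 1 := by
    rw [inv_pow, ← pow_mul, mul_comm, pow_mul, h1, one_pow, inv_one]
  have hη'' : (η ^ k)⁻¹ ≠ 1 := by
    rw [Ne, inv_eq_one]
    intro h
    have := root_pow_inj h1 h2 hk2 (by norm_num : 0 < 11) (by rw [h, pow_zero])
    omega
  have hrel : ρ g * w = (η ^ k)⁻¹ • (w * ρ g) := by
    have h3 : ρ g * w * ρ g⁻¹ = (η ^ k)⁻¹ • w := by
      apply smul_right_injective (Module.End F V) (pow_ne_zero k hη0)
      show η ^ k • (ρ g * w * ρ g⁻¹) = η ^ k • ((η ^ k)⁻¹ • w)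
      rw [heig, smul_smul, mul_inv_cancel₀ (pow_ne_zero k hη0), one_smul]
    have h4 : ρ g * w * ρ g⁻¹ * ρ g = (η ^ k)⁻¹ • w * ρ g := by rw [h3]
    rw [mul_assoc, ← map_mul, inv_mul_cancel, map_one, mul_one, smul_mul_assoc] at h4
    exact h4
  obtain ⟨c', hc'⟩ := pow_eleven_scalar hV (b := ρ.toHomUnits g) (x := w) hη' hη'' hrel
  have hc0 : c' ≠ 0 := by
    rintro rfl
    apply hP
    refine no_nilpotent hN hab hirr hwA ⟨11, ?_⟩
    rw [hc', zero_smul]
  let u : (Module.End F V)ˣ :=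
    { val := w
      inv := c'⁻¹ • w ^ 10
      val_inv := by
        rw [mul_smul_comm, ← pow_succ', hc', smul_smul, inv_mul_cancel₀ hc0, one_smul]
      inv_val := by
        rw [smul_mul_assoc, ← pow_succ, hc', smul_smul, inv_mul_cancel₀ hc0, one_smul] }
  exact ⟨u, hwA, Or.inr ⟨(η ^ k)⁻¹, hη', hη'', hrel⟩⟩

end alg

theorem scalar_mem_center {ρ : G →* Module.End F V} (hρ : Function.Injective ρ) {g : G} {m : ℕ}
    {c : F} (hc : ρ g ^ m = c • 1) : g ^ m ∈ Subgroup.center G := by
  rw [Subgroup.mem_center_iff]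
  intro h
  apply hρ
  rw [map_mul, map_mul, map_pow, hc, smul_mul_assoc, mul_smul_comm, one_mul, mul_one]

/-- the irreducible case -/
theorem irr_case [FiniteDimensional F V] (hV : finrank F V = 11)
    {η : F} (h1 : η ^ 11 = 1) (h2 : η ≠ 1) [Finite G] [Group.IsSolvable G]
    {ρ : G →* Module.End F V} (hρ : Function.Injective ρ) (y z : G)
    (htop : Subgroup.closure ({y, z} : Set G) = ⊤) (hirr : Irr ρ Set.univ)
    (hy : ∃ c : F, ρ y ^ 11 = c • 1) (hz : ∃ c : F, ρ z ^ 11 = c • 1) :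
    ∃ u u' : (Module.End F V)ˣ, InY (ρ y) u ∧ InY (ρ z) u' ∧
      (u : Module.End F V) * u' = (u' : Module.End F V) * u := by
  have hnt : Nontrivial V := Module.nontrivial_of_finrank_pos (R := F) (by omega)
  by_cases hG : ∀ a b : G, a * b = b * a
  · refine ⟨ρ.toHomUnits y, ρ.toHomUnits z, Or.inl rfl, Or.inl rfl, ?_⟩
    show ρ y * ρ z = ρ z * ρ y
    rw [← map_mul, hG, map_mul]
  obtain ⟨N, hN⟩ := exists_minNC hG
  have hgen : ¬ ((∀ n ∈ N, y * n = n * y) ∧ (∀ n ∈ N, z * n = n * z)) := by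
    rintro ⟨hy', hz'⟩
    apply hN.nc
    intro n hn
    rw [Subgroup.mem_center_iff]
    intro g
    have h3 : Subgroup.closure ({y, z} : Set G) ≤ Subgroup.centralizer {n} := by
      rw [Subgroup.closure_le]
      rintro x (rfl | rfl)
      · exact Subgroup.mem_centralizer_singleton_iff.mpr (hy' n hn)
      · exact Subgroup.mem_centralizer_singleton_iff.mpr (hz' n hn)
    exact Subgroup.mem_centralizer_singleton_iff.mp (h3 (by rw [htop]; exact Subgroup.mem_top g))
  by_cases hab : ∀ a ∈ N, ∀ b ∈ N, a * b = b * a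
  · by_cases hcy : ∀ n ∈ N, y * n = n * y
    · have hcz : ¬ ∀ n ∈ N, z * n = n * z := fun h => hgen ⟨hcy, h⟩
      obtain ⟨u', hu'1, hu'2⟩ := exists_eigenelement hV h1 h2 hρ hN.normal hab hirr hz hcz
      exact ⟨ρ.toHomUnits y, u', Or.inl rfl, hu'2, span_centralise hcy _ hu'1⟩
    · obtain ⟨u, hu1, hu2⟩ := exists_eigenelement hV h1 h2 hρ hN.normal hab hirr hy hcy
      by_cases hcz : ∀ n ∈ N, z * n = n * z
      · exact ⟨u, ρ.toHomUnits z, hu2, Or.inl rfl, (span_centralise hcz _ hu1).symm⟩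
      · obtain ⟨u', hu'1, hu'2⟩ := exists_eigenelement hV h1 h2 hρ hN.normal hab hirr hz hcz
        exact ⟨u, u', hu2, hu'2, span_comm hab _ hu1 _ hu'1⟩
  · exfalso
    obtain ⟨cy, hcy⟩ := hy
    obtain ⟨cz, hcz⟩ := hz
    have hyc := scalar_mem_center hρ hcy
    have hzc := scalar_mem_center hρ hcz
    obtain ⟨c, k, hc, hk, hexp⟩ := hN.exists_prime
    have hk2 := two_le_of_not_comm hc hk hab
    have hle := card_bar_le hρ hirr
      (fun a ha b hb => hN.comm_mem ha hb) (fun a ha h => hN.center_of_comm hab ha h)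
    rw [hk, hV] at hle
    by_cases hc11 : 11 = c
    · subst hc11
      refine no_eleven hN hk2 hk (by omega) hexp {y, z} htop ?_
      rintro x (rfl | rfl)
      · exact hyc
      · exact hzc
    · apply hgen
      have hnum := num_aux (s := 11) (by norm_num) (Or.inl rfl) hc hc11 hk2 (by omega)
      exact ⟨hN.centralises hc hk hexp (by norm_num) hc11 hnum hyc,
        hN.centralises hc hk hexp (by norm_num) hc11 hnum hzc⟩

/-- if an element with scalar eleventh power has a proper stable subspace then the scalar is an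
eleventh power -/
theorem exists_root [FiniteDimensional F V] (hV : finrank F V = 11) {y : (Module.End F V)ˣ}
    {c : F} (hc : (y : Module.End F V) ^ 11 = c • 1) {U : Submodule F V} (hU0 : U ≠ ⊥)
    (hU1 : U ≠ ⊤) (hU : ∀ x ∈ U, y.val x ∈ U) :
    ∃ μ : F, μ ≠ 0 ∧ (y : Module.End F V) ^ 11 = μ ^ 11 • 1 := by
  have hnt : Nontrivial V := Module.nontrivial_of_finrank_pos (R := F) (by omega)
  have hc0 : c ≠ 0 := by
    rintro rfl
    rw [zero_smul] at hc
    have h3 : ((y ^ 11 : (Module.End F V)ˣ) : Module.End F V) = 0 := by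
      rw [Units.val_pow_eq_pow_val]
      exact hc
    exact Units.ne_zero _ h3
  by_contra hcon
  push Not at hcon
  have hirr : Irreducible (X ^ 11 - C c : F[X]) := by
    rw [X_pow_sub_C_irreducible_iff_of_prime (by norm_num)]
    intro b hb
    refine hcon b ?_ (by rw [hb]; exact hc)
    rintro rfl
    rw [zero_pow (by norm_num)] at hb
    exact hc0 hb.symm
  have hntU : Nontrivial U := Submodule.nontrivial_iff_ne_bot.mpr hU0
  let yU : Module.End F U := y.val.restrict hU
  have hpow : ∀ (m : ℕ) (x : U), ((yU ^ m) x : V) = (y.val ^ m) x := by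
    intro m
    induction m with
    | zero => intro x; rfl
    | succ m ih =>
      intro x
      rw [pow_succ', pow_succ', Module.End.mul_apply, Module.End.mul_apply, ← ih]
      rfl
  have h3 : Polynomial.aeval yU (X ^ 11 - C c : F[X]) = 0 := by
    rw [map_sub, map_pow, Polynomial.aeval_X, Polynomial.aeval_C]
    ext x
    rw [LinearMap.sub_apply]
    show ((yU ^ 11) x : V) - ((algebraMap F (Module.End F U) c) x : V) = 0
    rw [hpow, hc, Module.algebraMap_end_apply]
    simp
  have h4 : minpoly F yU ∣ (X ^ 11 - C c : F[X]) := minpoly.dvd F yU h3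
  have hint : IsIntegral F yU := Algebra.IsIntegral.isIntegral yU
  have h5 : (minpoly F yU).natDegree = 11 := by
    have h6 := hirr.isUnit_or_isUnit (Classical.choose_spec h4)
    rcases h6 with h7 | h7
    · exact absurd h7 (minpoly.not_isUnit F yU)
    · have h8 := Classical.choose_spec h4
      have h9 : (X ^ 11 - C c : F[X]).natDegree = 11 := natDegree_X_pow_sub_C
      rw [h8, Polynomial.natDegree_mul (minpoly.ne_zero hint) h7.ne_zero,
        Polynomial.natDegree_eq_zero_of_isUnit h7, add_zero] at h9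
      exact h9
  have h6 := Polynomial.natDegree_le_of_dvd (LinearMap.minpoly_dvd_charpoly yU)
    yU.charpoly_monic.ne_zero
  rw [h5, LinearMap.charpoly_natDegree] at h6
  apply hU1
  apply Submodule.eq_top_of_finrank_eq
  have := Submodule.finrank_le U
  omega

/-- the reducible case -/
theorem red_case [FiniteDimensional F V] (hV : finrank F V = 11)
    {η : F} (h1 : η ^ 11 = 1) (h2 : η ≠ 1) [Finite G] [Group.IsSolvable G]
    (ρ : G →* Module.End F V) (y z : G)
    (htop : Subgroup.closure ({y, z} : Set G) = ⊤) (hirr : ¬ Irr ρ Set.univ)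
    (hy : ∃ c : F, ρ y ^ 11 = c • 1) (hz : ∃ c : F, ρ z ^ 11 = c • 1) :
    (∃ μ : F, μ ≠ 0 ∧ ρ y ^ 11 = μ ^ 11 • 1) ∧ (∃ μ : F, μ ≠ 0 ∧ ρ z ^ 11 = μ ^ 11 • 1) ∧
      ∃ U : Submodule F V, finrank F U = 8 ∧ (∀ x ∈ U, ρ y x ∈ U) ∧ (∀ x ∈ U, ρ z x ∈ U) := by
  classical
  unfold Irr at hirr
  push Not at hirr
  obtain ⟨U0, hU0s, hU0b, hU0t⟩ := hirr
  rw [stab_iff] at hU0s
  obtain ⟨cy, hcy⟩ := hy
  obtain ⟨cz, hcz⟩ := hz
  have hry : ∃ μ : F, μ ≠ 0 ∧ ρ y ^ 11 = μ ^ 11 • 1 :=
    exists_root hV (y := ρ.toHomUnits y) hcy hU0b hU0t (hU0s y)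
  have hrz : ∃ μ : F, μ ≠ 0 ∧ ρ z ^ 11 = μ ^ 11 • 1 :=
    exists_root hV (y := ρ.toHomUnits z) hcz hU0b hU0t (hU0s z)
  refine ⟨hry, hrz, ?_⟩
  -- a stable subspace of maximal dimension at most eight
  let Q : ℕ → Prop := fun d => d ≤ 8 ∧ ∃ U : Submodule F V, finrank F U = d ∧
    ∀ g, ∀ x ∈ U, ρ g x ∈ U
  have hQ0 : Q 0 := ⟨by omega, ⊥, finrank_bot F V, by
    intro g x hx
    rw [Submodule.mem_bot] at hx ⊢
    rw [hx, map_zero]⟩
  let d := Nat.findGreatest Q 8
  have hd : Q d := Nat.findGreatest_spec (m := 0) (by omega) hQ0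
  obtain ⟨hd8, U, hUd, hUs⟩ := hd
  by_cases hd' : d = 8
  · exact ⟨U, by rw [hUd, hd'], hUs y, hUs z⟩
  exfalso
  have hmax : ¬ Q (d + 1) :=
    Nat.findGreatest_is_greatest (P := Q) (n := 8) (k := d + 1) (Nat.lt_succ_self _) (by omega)
  have hYrep : ∀ (W : Type v) [AddCommGroup W] [Module F W] (τ : G →* Module.End F W),
      (∀ g (c : F) (m : ℕ), ρ g ^ m = c • 1 → τ g ^ m = c • 1) →
      ∀ x ∈ ({y, z} : Set G), ∃ μ : F, μ ≠ 0 ∧ τ x ^ 11 = μ ^ 11 • 1 := by
    intro W _ _ τ hτ x hx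
    rcases hx with rfl | rfl
    · obtain ⟨μ, hμ, h3⟩ := hry
      exact ⟨μ, hμ, hτ _ _ _ h3⟩
    · obtain ⟨μ, hμ, h3⟩ := hrz
      exact ⟨μ, hμ, hτ _ _ _ h3⟩
  by_cases hUb : U = ⊥
  · -- use `U0`
    have hdz : d = 0 := by rw [← hUd, hUb, finrank_bot]
    have hU0f : finrank F U0 ≤ 10 := by
      have h3 := Submodule.finrank_lt hU0t
      omega
    have hntU0 : Nontrivial U0 := Submodule.nontrivial_iff_ne_bot.mpr hU0b
    obtain ⟨x, hx0, hx⟩ := exists_line (resRep ρ U0 hU0s) hU0f h1 h2 {y, z} htop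
      (hYrep U0 (resRep ρ U0 hU0s) (by
        intro g c m h3
        have hpow : ∀ (m : ℕ) (x : U0), (((resRep ρ U0 hU0s g) ^ m) x : V) = (ρ g ^ m) x := by
          intro m
          induction m with
          | zero => intro x; rfl
          | succ m ih =>
            intro x
            rw [pow_succ', pow_succ', Module.End.mul_apply, Module.End.mul_apply, ← ih]
            rfl
        ext x
        rw [hpow, h3]
        rfl))
    apply hmax
    refine ⟨by omega, Submodule.span F {x.1}, ?_, ?_⟩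
    · rw [hdz, finrank_span_singleton (fun h => hx0 (Subtype.ext h))]
    · intro g v hv
      rw [Submodule.mem_span_singleton] at hv ⊢
      obtain ⟨a, rfl⟩ := hv
      obtain ⟨c, hc⟩ := hx g
      have h3 : ρ g x.1 = c • x.1 := congrArg Subtype.val hc
      refine ⟨a * c, ?_⟩
      rw [map_smul, h3, smul_smul]
  · -- use the quotient
    have hUpos : 0 < finrank F U := by
      rw [Module.finrank_pos_iff]
      exact Submodule.nontrivial_iff_ne_bot.mpr hUb
    have hquot := Submodule.finrank_quotient_add_finrank U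
    have hntQ : Nontrivial (V ⧸ U) := Module.nontrivial_of_finrank_pos (R := F) (by omega)
    obtain ⟨x, hx0, hx⟩ := exists_line (quoRep ρ U hUs) (by omega) h1 h2 {y, z} htop
      (hYrep (V ⧸ U) (quoRep ρ U hUs) (by
        intro g c m h3
        have hpow : ∀ (m : ℕ) (x : V), ((quoRep ρ U hUs g) ^ m) (U.mkQ x) =
            U.mkQ ((ρ g ^ m) x) := by
          intro m
          induction m with
          | zero => intro x; rfl
          | succ m ih =>
            intro x
            rw [pow_succ', pow_succ', Module.End.mul_apply, Module.End.mul_apply, ih]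
            rfl
        ext x
        show ((quoRep ρ U hUs g) ^ m) (U.mkQ x) = c • U.mkQ x
        rw [hpow, h3]
        rfl))
    obtain ⟨x', rfl⟩ := Submodule.mkQ_surjective U x
    have hx'U : x' ∉ U := by
      intro h
      apply hx0
      rw [Submodule.mkQ_apply, Submodule.Quotient.mk_eq_zero]
      exact h
    apply hmax
    refine ⟨by omega, U ⊔ Submodule.span F {x'}, ?_, ?_⟩
    · have hx'0 : x' ≠ 0 := by
        rintro rfl
        exact hx'U U.zero_mem
      have h3 := Submodule.finrank_sup_add_finrank_inf_eq U (Submodule.span F {x'})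
      have h4 : U ⊓ Submodule.span F {x'} = ⊥ := by
        rw [Submodule.eq_bot_iff]
        rintro v ⟨hv1, hv2⟩
        rw [SetLike.mem_coe, Submodule.mem_span_singleton] at hv2
        obtain ⟨a, rfl⟩ := hv2
        by_cases ha : a = 0
        · rw [ha, zero_smul]
        · exfalso
          apply hx'U
          have h5 := U.smul_mem a⁻¹ hv1
          rwa [smul_smul, inv_mul_cancel₀ ha, one_smul] at h5
      rw [h4, finrank_bot, add_zero, hUd, finrank_span_singleton hx'0] at h3
      exact h3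
    · intro g v hv
      rw [Submodule.mem_sup] at hv
      obtain ⟨a, ha, b, hb, rfl⟩ := hv
      rw [Submodule.mem_span_singleton] at hb
      obtain ⟨r, rfl⟩ := hb
      obtain ⟨c, hc⟩ := hx g
      have h3 : U.mkQ (ρ g x') = c • U.mkQ x' := hc
      have h4 : ρ g x' - c • x' ∈ U := by
        rw [← Submodule.Quotient.mk_eq_zero, ← Submodule.mkQ_apply, map_sub, map_smul, h3, sub_self]
      rw [map_add, map_smul]
      have h5 : ρ g a + r • ρ g x' = (ρ g a + r • (ρ g x' - c • x')) + (r * c) • x' := by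
        rw [smul_sub, smul_smul]
        abel
      rw [h5]
      apply Submodule.add_mem
      · exact Submodule.mem_sup_left (U.add_mem (hUs g a ha) (U.smul_mem r h4))
      · exact Submodule.mem_sup_right (Submodule.smul_mem _ _ (Submodule.mem_span_singleton_self x'))

end Pool.Agent.K4H75.PG
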