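import Pool.Agent.K4H75.PG.Power

set_option autoImplicit false

/-! Random conjugates. -/

namespace Pool.Agent.K4H75.PG

open Module

universe u v w

section count

theorem card_mono {S : Type u} [Finite S] {P Q : S → Prop} (h : ∀ s, P s → Q s) :
    Nat.card {s // P s} ≤ Nat.card {s // Q s} :=
  Nat.card_le_card_of_injective
    (fun s : {s // P s} => (⟨s.1, h s.1 s.2⟩ : {s // Q s})) (by
    intro a b hab
    have h1 : a.1 = b.1 := congrArg (fun t : {s // Q s} => t.1) hab
    exact Subtype.ext h1)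

theorem card_or_le {S : Type u} [Finite S] (P Q : S → Prop) :
    Nat.card {s // P s ∨ Q s} ≤ Nat.card {s // P s} + Nat.card {s // Q s} := by
  classical
  have : Fintype S := Fintype.ofFinite S
  simp only [Nat.card_eq_fintype_card, Fintype.card_subtype]
  rw [Finset.filter_or]
  exact Finset.card_union_le _ _

theorem card_exists_le {I : Type u} {S : Type v} [Finite I] [Finite S] (Q : I → Prop)
    (P : I → S → Prop) (m n : ℕ) (hQ : Nat.card {i // Q i} ≤ m)
    (hP : ∀ i, Q i → Nat.card {s // P i s} ≤ n) :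
    Nat.card {s // ∃ i, Q i ∧ P i s} ≤ m * n := by
  classical
  have : Fintype S := Fintype.ofFinite S
  have : Fintype I := Fintype.ofFinite I
  simp only [Nat.card_eq_fintype_card, Fintype.card_subtype] at hQ hP ⊢
  have h1 : (Finset.univ.filter (fun s => ∃ i, Q i ∧ P i s)) ⊆
      (Finset.univ.filter Q).biUnion (fun i => Finset.univ.filter (P i)) := by
    intro s hs
    obtain ⟨i, hi, hs'⟩ := (Finset.mem_filter.mp hs).2
    rw [Finset.mem_biUnion]
    exact ⟨i, Finset.mem_filter.mpr ⟨Finset.mem_univ _, hi⟩,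
      Finset.mem_filter.mpr ⟨Finset.mem_univ _, hs'⟩⟩
  calc _ ≤ _ := Finset.card_le_card h1
    _ ≤ (Finset.univ.filter Q).card * n := Finset.card_biUnion_le_card_mul _ _ _ (by
        intro i hi
        exact hP i (Finset.mem_filter.mp hi).2)
    _ ≤ m * n := Nat.mul_le_mul_right _ hQ

end count

section pairs

theorem solPair_mono {G : Type v} [Group G] {a b c d : G} (h : SolPair a b)
    (hc : c ∈ Subgroup.closure ({a, b} : Set G)) (hd : d ∈ Subgroup.closure ({a, b} : Set G)) :
    SolPair c d := by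
  have hle : Subgroup.closure ({c, d} : Set G) ≤ Subgroup.closure ({a, b} : Set G) := by
    rw [Subgroup.closure_le]
    rintro x (rfl | rfl)
    · exact hc
    · exact hd
  unfold SolPair at h ⊢
  exact Group.isSolvable_of_isSolvable_injective (Subgroup.inclusion_injective hle)

theorem solPair_symm {G : Type v} [Group G] {a b : G} (h : SolPair a b) : SolPair b a :=
  solPair_mono h (Subgroup.subset_closure (by simp)) (Subgroup.subset_closure (by simp))

theorem solPair_pow {G : Type v} [Group G] {a b : G} (h : SolPair a b) (m n : ℕ) :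
    SolPair (a ^ m) (b ^ n) :=
  solPair_mono h (Subgroup.pow_mem _ (Subgroup.subset_closure (by simp)) m)
    (Subgroup.pow_mem _ (Subgroup.subset_closure (by simp)) n)

theorem solPair_map {G : Type u} {H : Type v} [Group G] [Group H] (f : G →* H) {a b : G}
    (h : SolPair a b) : SolPair (f a) (f b) := by
  unfold SolPair at h ⊢
  have h1 : Subgroup.closure ({f a, f b} : Set H) =
      (Subgroup.closure ({a, b} : Set G)).map f := by
    rw [MonoidHom.map_closure, Set.image_pair]
  rw [h1]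
  exact Group.isSolvable_of_surjective
    (f := f.subgroupMap (Subgroup.closure ({a, b} : Set G)))
    (f.subgroupMap_surjective _)

theorem solPair_conj {G : Type v} [Group G] {a b : G} (h : SolPair a b) (σ : G) :
    SolPair (σ * a * σ⁻¹) (σ * b * σ⁻¹) :=
  solPair_map (MulAut.conj σ).toMonoidHom h

end pairs

variable {F : Type u} [Field F] {K : Type v} [Field K] [Algebra F K]
  [Finite F] [FiniteDimensional F K]

theorem card_SL [Finite K] (hK : finrank F K = 11) :
    Nat.card {g : (Module.End F K)ˣ // SL g} ≤ 11 * Nat.card F ^ 11 := by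
  classical
  let f : {g : (Module.End F K)ˣ // SL g} → (K ≃ₐ[F] K) × K := fun g =>
    (Classical.choose g.2, Classical.choose (Classical.choose_spec g.2))
  have hf : ∀ g, ∀ v, g.1.val v = (f g).2 * (f g).1 v := fun g =>
    (Classical.choose_spec (Classical.choose_spec g.2)).2
  have hinj : Function.Injective f := by
    intro a b hab
    apply Subtype.ext
    apply Units.ext
    apply LinearMap.ext
    intro v
    rw [hf a, hf b, hab]
  have h1 := Nat.card_le_card_of_injective f hinj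
  rw [Nat.card_prod, card_gal hK, Module.natCard_eq_pow_finrank (K := F) (V := K), hK] at h1
  exact h1

section units

variable {V : Type v} [AddCommGroup V] [Module F V] [FiniteDimensional F V]

omit [FiniteDimensional F V] in
theorem unit_card_le [Finite V] (P : Module.End F V → Prop) :
    Nat.card {σ : (Module.End F V)ˣ // P σ.val} ≤ Nat.card {σ : Module.End F V // P σ} := by
  have : Finite (Module.End F V) := Finite.of_injective (fun f => (f : V → V)) DFunLike.coe_injective
  exact Nat.card_le_card_of_injective (fun s => ⟨s.1.val, s.2⟩) (by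
    intro a b hab
    exact Subtype.ext (Units.ext (congrArg Subtype.val hab)))

omit [Finite F] [FiniteDimensional F V] in
theorem InY.isM {y u : (Module.End F V)ˣ} (hy : IsM y) (h : InY y.val u) : IsM u := by
  rcases h with h | ⟨θ, h1, h2, h3⟩
  · have : u = y := Units.ext h
    rw [this]
    exact hy
  · exact ⟨y, θ, h1, h2, h3⟩

omit [Finite F] [FiniteDimensional F V] in
theorem InY.conj {z u : (Module.End F V)ˣ} (h : InY z.val u) (σ : (Module.End F V)ˣ) :
    InY (σ * z * σ⁻¹).val (σ * u * σ⁻¹) := by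
  rcases h with h | ⟨θ, h1, h2, h3⟩
  · left
    have : u = z := Units.ext h
    rw [this]
  · right
    refine ⟨θ, h1, h2, ?_⟩
    have e1 : (σ * z * σ⁻¹ : (Module.End F V)ˣ).val * (σ * u * σ⁻¹ : (Module.End F V)ˣ).val =
        σ.val * (z.val * u.val) * (σ⁻¹).val := by
      rw [← Units.val_mul, ← Units.val_mul, ← Units.val_mul, ← Units.val_mul]
      congr 1
      group
    have e2 : (σ * u * σ⁻¹ : (Module.End F V)ˣ).val * (σ * z * σ⁻¹ : (Module.End F V)ˣ).val =
        σ.val * (u.val * z.val) * (σ⁻¹).val := by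
      rw [← Units.val_mul, ← Units.val_mul, ← Units.val_mul, ← Units.val_mul]
      congr 1
      group
    rw [e1, e2, h3, mul_smul_comm, smul_mul_assoc]

theorem card_InY [Finite V] (hV : finrank F V = 11) {y : (Module.End F V)ˣ} (hy : IsM y) :
    Nat.card {u : (Module.End F V)ˣ // InY y.val u} ≤ Nat.card F ^ 12 := by
  have : Finite (Module.End F V) := Finite.of_injective (fun f => (f : V → V)) DFunLike.coe_injective
  have h1 : Nat.card {u : (Module.End F V)ˣ // InY y.val u} ≤
      Nat.card {u : (Module.End F V)ˣ // ∃ θ : F, True ∧ y.val * u.val = u.val * (θ • y.val)} := by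
    apply card_mono
    intro u hu
    rcases hu with h | ⟨θ, -, -, h⟩
    · exact ⟨1, trivial, by rw [h, one_smul]⟩
    · exact ⟨θ, trivial, by rw [h, mul_smul_comm]⟩
  have h2 := card_exists_le (I := F) (S := (Module.End F V)ˣ) (fun _ => True)
    (fun θ u => y.val * u.val = u.val * (θ • y.val)) (Nat.card F) (Nat.card F ^ 11)
    (Nat.card_le_card_of_injective (fun x : {_i : F // True} => x.1) Subtype.val_injective) (by
      intro θ _
      exact (unit_card_le (fun σ => y.val * σ = σ * (θ • y.val))).trans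
        (card_intertwine hV hy _))
  calc _ ≤ _ := h1
    _ ≤ _ := h2
    _ = Nat.card F ^ 12 := by ring

/-- the irreducible configuration -/
theorem card_irr [Finite V] (hV : finrank F V = 11) {y w : (Module.End F V)ˣ} (hy : IsM y)
    (hw : IsM w) :
    Nat.card {σ : (Module.End F V)ˣ // ∃ u u'' : (Module.End F V)ˣ, InY y.val u ∧ InY w.val u'' ∧
      u.val * (σ⁻¹ * u'' * σ).val = (σ⁻¹ * u'' * σ).val * u.val} ≤ Nat.card F ^ 46 := by
  have : Finite (Module.End F V) := Finite.of_injective (fun f => (f : V → V)) DFunLike.coe_injective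
  set q := Nat.card F with hq
  have h1 : Nat.card {σ : (Module.End F V)ˣ // ∃ u u'' : (Module.End F V)ˣ, InY y.val u ∧
      InY w.val u'' ∧ u.val * (σ⁻¹ * u'' * σ).val = (σ⁻¹ * u'' * σ).val * u.val} ≤
      Nat.card {σ : (Module.End F V)ˣ // ∃ u : (Module.End F V)ˣ, InY y.val u ∧
        ∃ u'' : (Module.End F V)ˣ, InY w.val u'' ∧
          ∃ t : Module.End F V, u.val * t = t * u.val ∧ u''.val * σ.val = σ.val * t} := by
    apply card_mono
    rintro σ ⟨u, u'', hu, hu'', h⟩
    refine ⟨u, hu, u'', hu'', (σ⁻¹ * u'' * σ).val, h, ?_⟩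
    rw [← Units.val_mul, ← Units.val_mul]
    congr 1
    group
  have h2 := card_exists_le (I := (Module.End F V)ˣ) (S := (Module.End F V)ˣ)
    (fun u => InY y.val u)
    (fun u σ => ∃ u'' : (Module.End F V)ˣ, InY w.val u'' ∧
          ∃ t : Module.End F V, u.val * t = t * u.val ∧ u''.val * σ.val = σ.val * t)
    (q ^ 12) (q ^ 12 * (q ^ 11 * q ^ 11)) (card_InY hV hy) (by
      intro u hu
      refine card_exists_le (I := (Module.End F V)ˣ) (S := (Module.End F V)ˣ)
        (fun u'' => InY w.val u'')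
        (fun u'' σ => ∃ t : Module.End F V, u.val * t = t * u.val ∧ u''.val * σ.val = σ.val * t)
        (q ^ 12) (q ^ 11 * q ^ 11) (card_InY hV hw) ?_
      intro u'' hu''
      refine card_exists_le (I := Module.End F V) (S := (Module.End F V)ˣ)
        (fun t => u.val * t = t * u.val)
        (fun t σ => u''.val * σ.val = σ.val * t) (q ^ 11) (q ^ 11)
        (card_intertwine hV (hu.isM hy) u.val) ?_
      intro t _
      exact (unit_card_le (fun σ => u''.val * σ = σ * t)).trans
        (card_intertwine hV (hu''.isM hw) t))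
  calc _ ≤ _ := h1
    _ ≤ _ := h2
    _ = q ^ 46 := by ring

/-- the reducible configuration -/
theorem card_red [Finite V] (hV : finrank F V = 11) {y w : (Module.End F V)ˣ} (hy : IsM y)
    (hw : IsM w) :
    Nat.card {σ : (Module.End F V)ˣ // (∃ μ : F, μ ≠ 0 ∧ y.val ^ 11 = μ ^ 11 • 1) ∧
      (∃ μ : F, μ ≠ 0 ∧ w.val ^ 11 = μ ^ 11 • 1) ∧
      ∃ U U' : Submodule F V, (∀ x ∈ U, y.val x ∈ U) ∧ (∀ x ∈ U', w.val x ∈ U') ∧
        finrank F U = 8 ∧ finrank F U' = 8 ∧ ∀ x ∈ U, σ.val x ∈ U'} ≤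
      2 ^ 22 * Nat.card F ^ 97 := by
  have : Finite (Module.End F V) := Finite.of_injective (fun f => (f : V → V)) DFunLike.coe_injective
  have : Finite (Submodule F V) := Finite.of_injective (fun U => (U : Set V)) SetLike.coe_injective
  set q := Nat.card F with hq
  by_cases hμ : ∃ μ : F, μ ≠ 0 ∧ y.val ^ 11 = μ ^ 11 • 1
  · by_cases hν : ∃ μ : F, μ ≠ 0 ∧ w.val ^ 11 = μ ^ 11 • 1
    · obtain ⟨μ, hμ0, hμ1⟩ := hμ
      obtain ⟨ν, hν0, hν1⟩ := hν
      have h1 : Nat.card {σ : (Module.End F V)ˣ // (∃ μ : F, μ ≠ 0 ∧ y.val ^ 11 = μ ^ 11 • 1) ∧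
          (∃ μ : F, μ ≠ 0 ∧ w.val ^ 11 = μ ^ 11 • 1) ∧
          ∃ U U' : Submodule F V, (∀ x ∈ U, y.val x ∈ U) ∧ (∀ x ∈ U', w.val x ∈ U') ∧
            finrank F U = 8 ∧ finrank F U' = 8 ∧ ∀ x ∈ U, σ.val x ∈ U'} ≤
          Nat.card {σ : (Module.End F V)ˣ // ∃ U : Submodule F V, (∀ x ∈ U, y.val x ∈ U) ∧
            ∃ U' : Submodule F V, (∀ x ∈ U', w.val x ∈ U') ∧
              (finrank F U = 8 ∧ finrank F U' = 8 ∧ ∀ x ∈ U, σ.val x ∈ U')} := by
        apply card_mono
        rintro σ ⟨-, -, U, U', h3, h4, h5, h6, h7⟩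
        exact ⟨U, h3, U', h4, h5, h6, h7⟩
      have h2 := card_exists_le (I := Submodule F V) (S := (Module.End F V)ˣ)
        (fun U => ∀ x ∈ U, y.val x ∈ U)
        (fun U σ => ∃ U' : Submodule F V, (∀ x ∈ U', w.val x ∈ U') ∧
              (finrank F U = 8 ∧ finrank F U' = 8 ∧ ∀ x ∈ U, σ.val x ∈ U'))
        (2 ^ 11) (2 ^ 11 * q ^ 97) (card_stable hV hy hμ0 hμ1) (by
          intro U _
          refine card_exists_le (I := Submodule F V) (S := (Module.End F V)ˣ)
            (fun U' => ∀ x ∈ U', w.val x ∈ U')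
            (fun U' σ => finrank F U = 8 ∧ finrank F U' = 8 ∧ ∀ x ∈ U, σ.val x ∈ U')
            (2 ^ 11) (q ^ 97) (card_stable hV hw hν0 hν1) ?_
          intro U' _
          by_cases hd : finrank F U = 8 ∧ finrank F U' = 8
          · refine (card_mono (Q := fun σ : (Module.End F V)ˣ => ∀ x ∈ U, σ.val x ∈ U')
              (fun σ h => h.2.2)).trans ?_
            exact (unit_card_le (fun σ => ∀ x ∈ U, σ x ∈ U')).trans
              (card_maps hV U U' hd.1 hd.2)
          · have : IsEmpty {σ : (Module.End F V)ˣ //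
                finrank F U = 8 ∧ finrank F U' = 8 ∧ ∀ x ∈ U, σ.val x ∈ U'} :=
              ⟨fun σ => hd ⟨σ.2.1, σ.2.2.1⟩⟩
            rw [Nat.card_of_isEmpty]
            exact Nat.zero_le _)
      calc _ ≤ _ := h1
        _ ≤ _ := h2
        _ = 2 ^ 22 * q ^ 97 := by ring
    · have : IsEmpty {σ : (Module.End F V)ˣ // (∃ μ : F, μ ≠ 0 ∧ y.val ^ 11 = μ ^ 11 • 1) ∧
          (∃ μ : F, μ ≠ 0 ∧ w.val ^ 11 = μ ^ 11 • 1) ∧
          ∃ U U' : Submodule F V, (∀ x ∈ U, y.val x ∈ U) ∧ (∀ x ∈ U', w.val x ∈ U') ∧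
            finrank F U = 8 ∧ finrank F U' = 8 ∧ ∀ x ∈ U, σ.val x ∈ U'} :=
        ⟨fun σ => hν σ.2.2.1⟩
      rw [Nat.card_of_isEmpty]
      exact Nat.zero_le _
  · have : IsEmpty {σ : (Module.End F V)ˣ // (∃ μ : F, μ ≠ 0 ∧ y.val ^ 11 = μ ^ 11 • 1) ∧
        (∃ μ : F, μ ≠ 0 ∧ w.val ^ 11 = μ ^ 11 • 1) ∧
        ∃ U U' : Submodule F V, (∀ x ∈ U, y.val x ∈ U) ∧ (∀ x ∈ U', w.val x ∈ U') ∧
          finrank F U = 8 ∧ finrank F U' = 8 ∧ ∀ x ∈ U, σ.val x ∈ U'} :=
      ⟨fun σ => hμ σ.2.1⟩
    rw [Nat.card_of_isEmpty]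
    exact Nat.zero_le _

omit [Finite F] in
theorem IsM.scalar (hV : finrank F V = 11) {y : (Module.End F V)ˣ} (hy : IsM y) :
    ∃ c : F, y.val ^ 11 = c • 1 := by
  obtain ⟨b, η, h1, h2, h3⟩ := hy
  exact pow_eleven_scalar hV h1 h2 h3

/-- the two configurations -/
theorem pair_cases [Finite V] (hV : finrank F V = 11) {η : F} (h1 : η ^ 11 = 1) (h2 : η ≠ 1)
    {y w σ : (Module.End F V)ˣ} (hy : IsM y) (hw : IsM w) (h : SolPair y (σ⁻¹ * w * σ)) :
    (∃ u u'' : (Module.End F V)ˣ, InY y.val u ∧ InY w.val u'' ∧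
      u.val * (σ⁻¹ * u'' * σ).val = (σ⁻¹ * u'' * σ).val * u.val) ∨
    ((∃ μ : F, μ ≠ 0 ∧ y.val ^ 11 = μ ^ 11 • 1) ∧
      (∃ μ : F, μ ≠ 0 ∧ w.val ^ 11 = μ ^ 11 • 1) ∧
      ∃ U U' : Submodule F V, (∀ x ∈ U, y.val x ∈ U) ∧ (∀ x ∈ U', w.val x ∈ U') ∧
        finrank F U = 8 ∧ finrank F U' = 8 ∧ ∀ x ∈ U, σ.val x ∈ U') := by
  have : Finite (Module.End F V) := Finite.of_injective (fun f => (f : V → V)) DFunLike.coe_injective
  set z := σ⁻¹ * w * σ with hz
  have hzM : IsM z := by
    have := hw.conj σ⁻¹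
    rwa [inv_inv] at this
  have hwz : w = σ * z * σ⁻¹ := by rw [hz]; group
  let H := Subgroup.closure ({y, z} : Set (Module.End F V)ˣ)
  have hsol : Group.IsSolvable H := h
  have hfinH : Finite H := inferInstance
  let ρ : H →* Module.End F V := (Units.coeHom (Module.End F V)).comp H.subtype
  have hρ : Function.Injective ρ := fun x y hxy => Subtype.ext (Units.ext hxy)
  let y' : H := ⟨y, Subgroup.subset_closure (by simp)⟩
  let z' : H := ⟨z, Subgroup.subset_closure (by simp)⟩
  have hρy : ρ y' = y.val := rfl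
  have hρz : ρ z' = z.val := rfl
  have htop : Subgroup.closure ({y', z'} : Set H) = ⊤ := by
    have h3 := Subgroup.closure_closure_coe_preimage (k := ({y, z} : Set (Module.End F V)ˣ))
    have h4 : ({y', z'} : Set H) = ((↑) : H → (Module.End F V)ˣ) ⁻¹' {y, z} := by
      ext x
      simp only [Set.mem_insert_iff, Set.mem_singleton_iff, Set.mem_preimage]
      constructor
      · rintro (rfl | rfl)
        · exact Or.inl rfl
        · exact Or.inr rfl
      · rintro (h5 | h5)
        · exact Or.inl (Subtype.ext h5)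
        · exact Or.inr (Subtype.ext h5)
    rw [h4]
    exact h3
  have hys : ∃ c : F, ρ y' ^ 11 = c • 1 := hy.scalar hV
  have hzs : ∃ c : F, ρ z' ^ 11 = c • 1 := hzM.scalar hV
  by_cases hirr : Irr ρ Set.univ
  · left
    obtain ⟨u, u', hu, hu', hc⟩ := irr_case hV h1 h2 hρ y' z' htop hirr hys hzs
    refine ⟨u, σ * u' * σ⁻¹, hu, ?_, ?_⟩
    · rw [hwz]
      exact InY.conj hu' σ
    · have h3 : σ⁻¹ * (σ * u' * σ⁻¹) * σ = u' := by group
      rw [h3]
      exact hc
  · right
    obtain ⟨hμ, hν, U, hU8, hUy, hUz⟩ := red_case hV h1 h2 ρ y' z' htop hirr hys hzs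
    refine ⟨hμ, ?_, U, U.map σ.val, hUy, ?_, hU8, ?_, ?_⟩
    · obtain ⟨ν, hν0, hν1⟩ := hν
      refine ⟨ν, hν0, ?_⟩
      have h3 : w ^ 11 = σ * z ^ 11 * σ⁻¹ := by rw [hwz, conj_pow]
      rw [← Units.val_pow_eq_pow_val, h3, Units.val_mul, Units.val_mul, Units.val_pow_eq_pow_val]
      have h4 : z.val ^ 11 = ν ^ 11 • 1 := hν1
      rw [h4, mul_smul_comm, mul_one, smul_mul_assoc, ← Units.val_mul, mul_inv_cancel,
        Units.val_one]
    · rintro _ ⟨x, hx, rfl⟩
      refine ⟨z.val x, hUz x hx, ?_⟩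
      rw [← Module.End.mul_apply, ← Module.End.mul_apply, ← Units.val_mul, ← Units.val_mul]
      congr 2
      rw [hwz]
      group
    · have hinj : Function.Injective σ.val := by
        intro a b hab
        have h3 : ∀ x, (σ⁻¹).val (σ.val x) = x := by
          intro x
          rw [← Module.End.mul_apply, ← Units.val_mul, inv_mul_cancel]
          rfl
        rw [← h3 a, hab, h3]
      exact (Submodule.equivMapOfInjective σ.val hinj U).finrank_eq.symm.trans hU8
    · intro x hx
      exact ⟨x, hx, rfl⟩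

end units

end Pool.Agent.K4H75.PG
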