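import Pool.Agent.K4H75.PG.Good

set_option autoImplicit false

/-! Passing to the quotient by the scalars. -/

namespace Pool.Agent.K4H75.PG

open Module

universe u v w

section groups

variable {G : Type u} [Group G]

theorem solvable_of_comm (h : ∀ a b : G, a * b = b * a) : Group.IsSolvable G :=
  Group.isSolvable_of_comm h

theorem solPair_of_commute {a b : G} (h : a * b = b * a) : SolPair a b := by
  have : IsMulCommutative (Subgroup.closure ({a, b} : Set G)) := by
    apply Subgroup.isMulCommutative_closure
    rintro x (rfl | rfl) y (rfl | rfl)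
    · rfl
    · exact h
    · exact h.symm
    · rfl
  exact Group.isSolvable_of_comm (fun x y => this.is_comm.comm x y)

theorem solPair_self (a : G) : SolPair a a := solPair_of_commute rfl

theorem solPair_lift {H : Type v} [Group H] (f : G →* H)
    (hker : ∀ g, f g = 1 → ∀ h, g * h = h * g) {a b : G} (h : SolPair (f a) (f b)) :
    SolPair a b := by
  unfold SolPair at h ⊢
  set A := Subgroup.closure ({a, b} : Set G) with hA
  have h1 : Subgroup.closure ({f a, f b} : Set H) = A.map f := by
    rw [hA, MonoidHom.map_closure, Set.image_pair]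
  rw [h1] at h
  let g := f.subgroupMap A
  have hk : Group.IsSolvable g.ker := by
    apply Group.isSolvable_of_comm
    rintro ⟨x, hx⟩ ⟨y, hy⟩
    apply Subtype.ext
    apply Subtype.ext
    have h2 : f x.1 = 1 := congrArg Subtype.val hx
    exact hker x.1 h2 y.1
  exact Group.isSolvable_of_ker_le_range g.ker.subtype g (by rw [Subgroup.range_subtype])

theorem solPair_of_mem_normal {N : Subgroup G} (hN : N.Normal) (hs : Group.IsSolvable N)
    (g : G) {t : G} (ht : t ∈ N) : SolPair g t := by
  unfold SolPair
  set A := Subgroup.closure ({g, t} : Set G) with hA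
  let f : A →* G ⧸ N := (QuotientGroup.mk' N).comp A.subtype
  have hrange : ∀ a : A, f a ∈ Subgroup.zpowers (QuotientGroup.mk' N g) := by
    have hle : A ≤ (Subgroup.zpowers (QuotientGroup.mk' N g)).comap (QuotientGroup.mk' N) := by
      rw [hA, Subgroup.closure_le]
      rintro x (rfl | rfl)
      · exact Subgroup.mem_zpowers _
      · show QuotientGroup.mk' N x ∈ Subgroup.zpowers (QuotientGroup.mk' N g)
        have : QuotientGroup.mk' N x = 1 := by
          rw [← MonoidHom.mem_ker, QuotientGroup.ker_mk']
          exact ht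
        rw [this]
        exact Subgroup.one_mem _
    intro a
    exact hle a.2
  have hs1 : Group.IsSolvable f.range := by
    apply Group.isSolvable_of_comm
    rintro ⟨_, a, rfl⟩ ⟨_, b, rfl⟩
    apply Subtype.ext
    show f a * f b = f b * f a
    obtain ⟨m, hm⟩ := hrange a
    obtain ⟨n, hn⟩ := hrange b
    rw [← hm, ← hn]
    show QuotientGroup.mk' N g ^ m * QuotientGroup.mk' N g ^ n =
      QuotientGroup.mk' N g ^ n * QuotientGroup.mk' N g ^ m
    rw [← zpow_add, ← zpow_add, add_comm]
  have hs2 : Group.IsSolvable f.rangeRestrict.ker := by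
    let j : f.rangeRestrict.ker →* N :=
      { toFun := fun x => ⟨x.1.1, by
          have h1 : f.rangeRestrict x.1 = 1 := x.2
          have h2 : f x.1 = 1 := congrArg Subtype.val h1
          have h3 : QuotientGroup.mk' N x.1.1 = 1 := h2
          rwa [← MonoidHom.mem_ker, QuotientGroup.ker_mk'] at h3⟩
        map_one' := rfl
        map_mul' := fun _ _ => rfl }
    refine Group.isSolvable_of_isSolvable_injective (f := j) ?_
    intro x y hxy
    have h1 : x.1.1 = y.1.1 := congrArg (fun t : N => t.1) hxy
    exact Subtype.ext (Subtype.ext h1)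
  exact Group.isSolvable_of_ker_le_range f.rangeRestrict.ker.subtype f.rangeRestrict
    (by rw [Subgroup.range_subtype])

/-- two involutions generate a soluble group -/
theorem solPair_involutions {a b : G} (ha : a * a = 1) (hb : b * b = 1) : SolPair a b := by
  -- the group generated is inside the set of `c ^ n` and `c ^ n * a`, `c = a * b`
  set c := a * b with hc
  have hai : a⁻¹ = a := inv_eq_of_mul_eq_one_left ha
  have hbi : b⁻¹ = b := inv_eq_of_mul_eq_one_left hb
  have hca : a * c * a⁻¹ = c⁻¹ := by
    rw [hc, mul_inv_rev, hai, hbi, ← mul_assoc, ha, one_mul]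
  have hcb : b * c * b⁻¹ = c⁻¹ := by
    rw [hc, mul_inv_rev, hai, hbi, mul_assoc, mul_assoc, hb, mul_one]
  have hzn : ∀ x : G, x * c * x⁻¹ = c⁻¹ → ∀ y ∈ Subgroup.zpowers c,
      x * y * x⁻¹ ∈ Subgroup.zpowers c := by
    rintro x hx _ ⟨n, rfl⟩
    show x * c ^ n * x⁻¹ ∈ _
    rw [← conj_zpow, hx]
    exact Subgroup.zpow_mem _ (Subgroup.inv_mem _ (Subgroup.mem_zpowers c)) n
  -- work in the closure
  unfold SolPair
  set A := Subgroup.closure ({a, b} : Set G) with hA
  have haA : a ∈ A := Subgroup.subset_closure (by simp)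
  have hbA : b ∈ A := Subgroup.subset_closure (by simp)
  let a' : A := ⟨a, haA⟩
  let c' : A := ⟨c, A.mul_mem haA hbA⟩
  let N : Subgroup A := (Subgroup.zpowers c).comap A.subtype
  have hAn : A ≤ Subgroup.normalizer (Subgroup.zpowers c : Set G) := by
    rw [hA, Subgroup.closure_le]
    have key : ∀ x : G, x * c * x⁻¹ = c⁻¹ → x⁻¹ = x →
        x ∈ Subgroup.normalizer (Subgroup.zpowers c : Set G) := by
      intro x hx hxi
      rw [Subgroup.mem_normalizer_iff]
      intro y
      constructor
      · intro hy
        exact hzn x hx y hy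
      · intro hy
        have h1 := hzn x hx _ hy
        have h2 : x * (x * y * x⁻¹) * x⁻¹ = y := by
          have h3 : x * x = 1 := by
            nth_rewrite 1 [← hxi]
            exact inv_mul_cancel x
          calc x * (x * y * x⁻¹) * x⁻¹ = (x * x) * y * (x * x)⁻¹ := by group
            _ = y := by rw [h3, one_mul, inv_one, mul_one]
        rwa [h2] at h1
    rintro x (rfl | rfl)
    · exact key x hca hai
    · exact key x hcb hbi
  have hNn : N.Normal := by
    refine ⟨?_⟩
    rintro ⟨n, hn1⟩ hn ⟨g, hg⟩
    have h1 := hAn hg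
    rw [Subgroup.mem_normalizer_iff] at h1
    exact (h1 n).mp hn
  have hNs : Group.IsSolvable N := by
    apply Group.isSolvable_of_comm
    rintro ⟨x, hx⟩ ⟨y, hy⟩
    apply Subtype.ext
    apply Subtype.ext
    obtain ⟨m, hm⟩ := hx
    obtain ⟨n, hn⟩ := hy
    show x.1 * y.1 = y.1 * x.1
    have hm' : c ^ m = x.1 := hm
    have hn' : c ^ n = y.1 := hn
    rw [← hm', ← hn', ← zpow_add, ← zpow_add, add_comm]
  have hfin : SolPair a' c' := solPair_of_mem_normal hNn hNs a' (Subgroup.mem_zpowers c)
  have htop : Subgroup.closure ({a', c'} : Set A) = ⊤ := by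
    rw [eq_top_iff]
    have hle : A ≤ (Subgroup.closure ({a', c'} : Set A)).map A.subtype := by
      refine (Subgroup.closure_le _).mpr ?_
      rintro x (rfl | rfl)
      · exact ⟨a', Subgroup.subset_closure (by simp), rfl⟩
      · refine ⟨a' * c', Subgroup.mul_mem _ (Subgroup.subset_closure (by simp))
          (Subgroup.subset_closure (by simp)), ?_⟩
        show a * (a * x) = x
        rw [← mul_assoc, ha, one_mul]
    intro x _
    obtain ⟨y, hy, hyx⟩ := hle x.2
    have : y = x := Subtype.ext hyx
    rw [← this]
    exact hy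
  unfold SolPair at hfin
  rw [htop] at hfin
  exact Group.isSolvable_of_surjective (f := (Subgroup.topEquiv (G := A)).toMonoidHom)
    (Subgroup.topEquiv (G := A)).surjective

end groups

section path

variable {F : Type} [Field F] {K : Type} [Field K] [Algebra F K]
  [Finite F] [FiniteDimensional F K] [Finite K]

/-- an involution commuting with a field automorphism -/
theorem exists_involution (hK : finrank F K = 11) {η : F} (h1 : η ^ 11 = 1) (h2 : η ≠ 1)
    (h2F : (2 : F) ≠ 0) {τ : K ≃ₐ[F] K} (hτ : τ ≠ 1) :
    ∃ ι : (Module.End F K)ˣ, NS ι ∧ ι * ι = 1 ∧ galUnit τ * ι = ι * galUnit τ := by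
  obtain ⟨β, θ, hβ, hθ1, hθ2, hτβ⟩ := exists_kummer hK h1 h2 hτ
  have h11 : (11 : F) ≠ 0 := eleven_ne_zero h1 h2
  let T : Module.End F K := τ.toLinearMap
  have hTn : ∀ (n : ℕ) (v : K), (T ^ n) v = (τ ^ n) v := by
    intro n
    induction n with
    | zero => intro v; rfl
    | succ n ih =>
      intro v
      rw [pow_succ', pow_succ', Module.End.mul_apply, ih]
      rfl
  have hT : T ^ 11 = 1 := by
    ext v
    rw [hTn, gal_pow hK]
    rfl
  let S : Module.End F K := ∑ j ∈ Finset.range 11, T ^ j
  have hTS : T * S = S := by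
    show T * ∑ j ∈ Finset.range 11, T ^ j = ∑ j ∈ Finset.range 11, T ^ j
    rw [Finset.mul_sum]
    have e1 := Finset.sum_range_succ (fun j => T ^ j) 11
    have e2 := Finset.sum_range_succ' (fun j => T ^ j) 11
    rw [e1, hT, pow_zero] at e2
    have e3 := add_right_cancel e2
    rw [e3]
    apply Finset.sum_congr rfl
    intro j _
    rw [pow_succ']
  have hST : S * T = S := by
    have : S * T = T * S := by
      show (∑ j ∈ Finset.range 11, T ^ j) * T = T * ∑ j ∈ Finset.range 11, T ^ j
      rw [Finset.mul_sum, Finset.sum_mul]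
      apply Finset.sum_congr rfl
      intro j _
      rw [← pow_succ, pow_succ']
    rw [this, hTS]
  have hTjS : ∀ j : ℕ, T ^ j * S = S := by
    intro j
    induction j with
    | zero => rw [pow_zero, one_mul]
    | succ j ih => rw [pow_succ, mul_assoc, hTS, ih]
  have hSS : S * S = (11 : F) • S := by
    have : S * S = ∑ j ∈ Finset.range 11, T ^ j * S := by
      show (∑ j ∈ Finset.range 11, T ^ j) * S = _
      rw [Finset.sum_mul]
    rw [this, Finset.sum_congr rfl (fun j _ => hTjS j), Finset.sum_const, Finset.card_range,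
      ← Nat.cast_smul_eq_nsmul F]
    norm_num
  let i0 : Module.End F K := 1 - (2 / 11 : F) • S
  have hii : i0 * i0 = 1 := by
    show (1 - (2 / 11 : F) • S) * (1 - (2 / 11 : F) • S) = 1
    rw [mul_sub, sub_mul, sub_mul, one_mul, mul_one, one_mul, smul_mul_smul_comm, hSS, smul_smul]
    have : (2 / 11 : F) * (2 / 11) * 11 = 2 / 11 + 2 / 11 := by
      field_simp
      norm_num
    rw [this, add_smul]
    abel
  let ι : (Module.End F K)ˣ := ⟨i0, i0, hii, hii⟩
  have hιv : ∀ v, ι.val v = v - (2 / 11 : F) • S v := fun v => rfl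
  have hSv : ∀ v, S v = ∑ j ∈ Finset.range 11, (τ ^ j) v := by
    intro v
    show (∑ j ∈ Finset.range 11, T ^ j) v = _
    rw [LinearMap.sum_apply]
    exact Finset.sum_congr rfl (fun j _ => hTn j v)
  refine ⟨ι, ?_, ?_, ?_⟩
  · intro c hc
    have e1 := LinearMap.congr_fun hc 1
    have e2 := LinearMap.congr_fun hc β
    rw [hιv] at e1 e2
    have e3 : S 1 = (11 : K) := by
      rw [hSv, Finset.sum_congr rfl (fun j _ => map_one (τ ^ j)), Finset.sum_const,
        Finset.card_range]
      norm_num
    have e4 : S β = 0 := by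
      have e5 : T (S β) = S β := by
        rw [← Module.End.mul_apply, hTS]
      have e6 : S (T β) = S β := by
        rw [← Module.End.mul_apply, hST]
      have e7 : T β = θ • β := by
        rw [Algebra.smul_def]
        exact hτβ
      rw [e7, map_smul] at e6
      have e8 : (θ - 1) • S β = 0 := by rw [sub_smul, e6, one_smul, sub_self]
      rcases smul_eq_zero.mp e8 with h | h
      · exact absurd (sub_eq_zero.mp h) hθ2
      · exact h
    rw [e4, smul_zero, sub_zero, LinearMap.smul_apply, Module.End.one_apply] at e2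
    have e9 : c = 1 := by
      have : (c - 1) • β = 0 := by rw [sub_smul, ← e2, one_smul, sub_self]
      rcases smul_eq_zero.mp this with h | h
      · exact sub_eq_zero.mp h
      · exact absurd h hβ
    rw [e3, e9, one_smul, Module.End.one_apply] at e1
    have e10 : (2 / 11 : F) • (11 : K) = 0 := by
      have := sub_eq_self.mp e1
      exact this
    rw [Algebra.smul_def] at e10
    have e11 : (11 : K) = algebraMap F K 11 := by rw [map_ofNat]
    rw [e11, ← map_mul, map_eq_zero] at e10
    apply h2F
    have : (2 / 11 : F) * 11 = 2 := by field_simp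
    rw [← this]
    exact e10
  · apply Units.ext
    exact hii
  · apply Units.ext
    show T * i0 = i0 * T
    show T * (1 - (2 / 11 : F) • S) = (1 - (2 / 11 : F) • S) * T
    rw [mul_sub, sub_mul, mul_one, one_mul, mul_smul_comm, smul_mul_assoc, hTS, hST]

end path

end Pool.Agent.K4H75.PG
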