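import Pool.Agent.K4H75.PG.Count

set_option autoImplicit false

/-! A good conjugate. -/

namespace Pool.Agent.K4H75.PG

open Module

universe u v

variable {F : Type u} [Field F] {K : Type v} [Field K] [Algebra F K]
  [Finite F] [FiniteDimensional F K]

/-- the conditions on the conjugating element -/
structure Good (σ : (Module.End F K)ˣ) : Prop where
  nsl : ¬ SL σ
  comm : ∀ y w : (Module.End F K)ˣ, SL y → SL w → IsM w → w.val * σ.val ≠ σ.val * y.val
  pair : ∀ y w : (Module.End F K)ˣ, SL y → SL w → IsM y → IsM w → ¬ SolPair y (σ⁻¹ * w * σ)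

theorem numeric {q N : ℕ} (hq : 2 ^ 22 ≤ q) (h1 : q ^ 121 ≤ 2 ^ 11 * N)
    (h2 : N ≤ 11 * q ^ 11 + (11 * q ^ 11) * ((11 * q ^ 11) *
      (q ^ 11 + (q ^ 46 + 2 ^ 22 * q ^ 97)))) : False := by
  have hq1 : 1 ≤ q := le_trans (by norm_num) hq
  have h11 : q ^ 11 ≤ q ^ 97 := Nat.pow_le_pow_right hq1 (by norm_num)
  have h46 : q ^ 46 ≤ q ^ 97 := Nat.pow_le_pow_right hq1 (by norm_num)
  have h119 : q ^ 11 ≤ q ^ 119 := Nat.pow_le_pow_right hq1 (by norm_num)
  have h3 : q ^ 11 + (q ^ 46 + 2 ^ 22 * q ^ 97) ≤ 2 ^ 23 * q ^ 97 := by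
    have : (2 ^ 23 : ℕ) * q ^ 97 = q ^ 97 + (q ^ 97 + 2 ^ 22 * q ^ 97) + (2 ^ 22 - 2) * q ^ 97 := by
      norm_num
      ring
    omega
  have h4 : (11 * q ^ 11) * ((11 * q ^ 11) * (q ^ 11 + (q ^ 46 + 2 ^ 22 * q ^ 97))) ≤
      2 ^ 30 * q ^ 119 := by
    calc _ ≤ (11 * q ^ 11) * ((11 * q ^ 11) * (2 ^ 23 * q ^ 97)) :=
          Nat.mul_le_mul_left _ (Nat.mul_le_mul_left _ h3)
      _ = (121 * 2 ^ 23) * q ^ 119 := by ring
      _ ≤ 2 ^ 30 * q ^ 119 := Nat.mul_le_mul_right _ (by norm_num)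
  have h5 : N ≤ 2 ^ 31 * q ^ 119 := by
    have : (2 ^ 31 : ℕ) * q ^ 119 = 2 ^ 30 * q ^ 119 + 11 * q ^ 119 + (2 ^ 30 - 11) * q ^ 119 := by
      norm_num
      ring
    omega
  have h6 : q ^ 121 ≤ 2 ^ 42 * q ^ 119 := by
    calc q ^ 121 ≤ 2 ^ 11 * N := h1
      _ ≤ 2 ^ 11 * (2 ^ 31 * q ^ 119) := Nat.mul_le_mul_left _ h5
      _ = 2 ^ 42 * q ^ 119 := by ring
  have h7 : q ^ 121 = q ^ 2 * q ^ 119 := by ring
  rw [h7] at h6
  have h8 := Nat.le_of_mul_le_mul_right h6 (Nat.pow_pos (by omega))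
  have h9 : (2 ^ 22) ^ 2 ≤ q ^ 2 := Nat.pow_le_pow_left hq 2
  have h10 : (2 ^ 22) ^ 2 ≤ 2 ^ 42 := h9.trans h8
  norm_num at h10

theorem exists_good [Finite K] (hK : finrank F K = 11) {η : F} (h1 : η ^ 11 = 1) (h2 : η ≠ 1)
    (hq : 2 ^ 22 ≤ Nat.card F) : ∃ σ : (Module.End F K)ˣ, Good σ := by
  have : Finite (Module.End F K) := Finite.of_injective (fun f => (f : K → K)) DFunLike.coe_injective
  set q := Nat.card F with hq'
  by_contra hcon
  push Not at hcon
  let Gr := (Module.End F K)ˣ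
  have hall : ∀ σ : Gr, True → (SL σ ∨ ∃ y : Gr, SL y ∧ ∃ w : Gr, SL w ∧
      ((IsM w ∧ w.val * σ.val = σ.val * y.val) ∨
        ((IsM y ∧ IsM w ∧ ∃ u u'' : Gr, InY y.val u ∧ InY w.val u'' ∧
          u.val * (σ⁻¹ * u'' * σ).val = (σ⁻¹ * u'' * σ).val * u.val) ∨
         (IsM y ∧ IsM w ∧ (∃ μ : F, μ ≠ 0 ∧ y.val ^ 11 = μ ^ 11 • 1) ∧
          (∃ μ : F, μ ≠ 0 ∧ w.val ^ 11 = μ ^ 11 • 1) ∧
          ∃ U U' : Submodule F K, (∀ x ∈ U, y.val x ∈ U) ∧ (∀ x ∈ U', w.val x ∈ U') ∧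
            finrank F U = 8 ∧ finrank F U' = 8 ∧ ∀ x ∈ U, σ.val x ∈ U')))) := by
    intro σ _
    by_contra hno
    push Not at hno
    obtain ⟨hn1, hn2⟩ := hno
    apply hcon σ
    refine ⟨hn1, ?_, ?_⟩
    · intro y w hy hw hwM heq
      exact (hn2 y hy w hw).1 hwM heq
    · intro y w hy hw hyM hwM hsol
      obtain ⟨-, hb, hc⟩ := hn2 y hy w hw
      rcases pair_cases hK h1 h2 hyM hwM hsol with ⟨u, u'', hu, hu'', hcc⟩ |
        ⟨hμ, hν, U, U', e1, e2, e3, e4, e5⟩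
      · exact hb hyM hwM u u'' hu hu'' hcc
      · obtain ⟨x, hx1, hx2⟩ := hc hyM hwM hμ hν U U' e1 e2 e3 e4
        exact hx2 (e5 x hx1)
  have hN : Nat.card Gr ≤ 11 * q ^ 11 + (11 * q ^ 11) * ((11 * q ^ 11) *
      (q ^ 11 + (q ^ 46 + 2 ^ 22 * q ^ 97))) := by
    have e0 : Nat.card Gr = Nat.card {_σ : Gr // True} :=
      Nat.card_congr (Equiv.subtypeUnivEquiv (fun _ => trivial)).symm
    rw [e0]
    refine (card_mono hall).trans ?_
    refine (card_or_le _ _).trans ?_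
    refine Nat.add_le_add (card_SL hK) ?_
    refine card_exists_le (I := Gr) (S := Gr) (fun y => SL y) _ _ _ (card_SL hK) ?_
    intro y _
    refine card_exists_le (I := Gr) (S := Gr) (fun w => SL w) _ _ _ (card_SL hK) ?_
    intro w _
    refine (card_or_le _ _).trans ?_
    refine Nat.add_le_add ?_ ?_
    · by_cases hw : IsM w
      · refine (card_mono (Q := fun σ : Gr => w.val * σ.val = σ.val * y.val)
          (fun σ h => h.2)).trans ?_
        exact (unit_card_le (fun σ => w.val * σ = σ * y.val)).trans (card_intertwine hK hw _)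
      · have : IsEmpty {σ : Gr // IsM w ∧ w.val * σ.val = σ.val * y.val} :=
          ⟨fun σ => hw σ.2.1⟩
        rw [Nat.card_of_isEmpty]
        exact Nat.zero_le _
    · refine (card_or_le _ _).trans ?_
      refine Nat.add_le_add ?_ ?_
      · by_cases hyw : IsM y ∧ IsM w
        · exact (card_mono (fun σ h => h.2.2)).trans (card_irr hK hyw.1 hyw.2)
        · refine le_trans (le_of_eq ?_) (Nat.zero_le _)
          rw [Nat.card_eq_zero]
          left
          exact ⟨fun σ => hyw ⟨σ.2.1, σ.2.2.1⟩⟩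
      · by_cases hyw : IsM y ∧ IsM w
        · exact (card_mono (fun σ h => h.2.2)).trans (card_red hK hyw.1 hyw.2)
        · refine le_trans (le_of_eq ?_) (Nat.zero_le _)
          rw [Nat.card_eq_zero]
          left
          exact ⟨fun σ => hyw ⟨σ.2.1, σ.2.2.1⟩⟩
  exact numeric hq (card_GL_ge hK) hN

omit [Finite F] [FiniteDimensional F K] in
theorem scalar_of_coprime {α : K} (hα : ∀ a : F, algebraMap F K a ≠ α) {s : ℕ} (hs : s.Prime)
    (hs11 : s % 11 = 1) (h1 : ∃ a : F, algebraMap F K a = α ^ s)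
    (h2 : ∃ a : F, algebraMap F K a = α ^ 11) : False := by
  have hα0 : α ≠ 0 := by
    rintro rfl
    exact hα 0 (map_zero _)
  obtain ⟨a, ha⟩ := h1
  obtain ⟨b, hb⟩ := h2
  obtain ⟨m, hm⟩ : ∃ m, s = 11 * m + 1 := ⟨s / 11, by omega⟩
  apply hα (a / b ^ m)
  rw [map_div₀, map_pow, ha, hb, hm]
  have : α ^ 11 ≠ 0 := pow_ne_zero _ hα0
  rw [pow_succ, pow_mul]
  field_simp

/-- no nonscalar element of the normaliser is conjugated into the normaliser -/
theorem Good.not_both [Finite K] (hK : finrank F K = 11) {η : F} (h1 : η ^ 11 = 1) (h2 : η ≠ 1)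
    {σ : (Module.End F K)ˣ} (hσ : Good σ) {t : (Module.End F K)ˣ} (hns : NS t) (ht : SL t)
    (hw : SL (σ * t * σ⁻¹)) : False := by
  obtain ⟨m, hm1, hm2⟩ := exists_power hK h1 h2 ht hns
  set t' := t ^ m with ht'
  have hw' : SL (σ * t' * σ⁻¹) := by
    have := hw.pow m
    rwa [conj_pow] at this
  have heq : (σ * t' * σ⁻¹).val * σ.val = σ.val * t'.val := by
    rw [← Units.val_mul, ← Units.val_mul]
    congr 1
    group
  rcases hm2 with hTL | hM
  · obtain ⟨α, s, hα, hs, hs11, hαs, hv⟩ := hTL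
    have hw'' := hw'
    obtain ⟨τ, c, hc0, hτ⟩ := hw''
    by_cases hτ1 : τ = 1
    · subst hτ1
      apply hσ.nsl
      refine SL_of_intertwine hK (α := α) (α' := c) hα ?_
      intro v
      have h3 := LinearMap.congr_fun heq v
      rw [Module.End.mul_apply, Module.End.mul_apply, hv, hτ] at h3
      exact h3.symm
    · have hM := IsM_of_ne_one hK h1 h2 hτ1 hτ
      have hM' : IsM t' := by
        have h3 := hM.conj σ⁻¹
        have h4 : σ⁻¹ * (σ * t' * σ⁻¹) * σ⁻¹⁻¹ = t' := by group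
        rwa [h4] at h3
      obtain ⟨c', hc'⟩ := hM'.scalar hK
      refine scalar_of_coprime hα hs hs11 hαs ⟨c', ?_⟩
      have h5 := mult_pow hv 11 1
      rw [Units.val_pow_eq_pow_val, hc', mul_one] at h5
      rw [← h5, Algebra.algebraMap_eq_smul_one]
      rfl
  · exact hσ.comm t' (σ * t' * σ⁻¹) (ht.pow m) hw' (hM.conj σ) heq

theorem no_path [Finite K] (hK : finrank F K = 11) {η : F} (h1 : η ^ 11 = 1) (h2 : η ≠ 1)
    {σ : (Module.End F K)ˣ} (hσ : Good σ) {x : (Module.End F K)ˣ} (hx : TL x)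
    {y z : (Module.End F K)ˣ} (hy : NS y) (hz : NS z) (hxy : SolPair x y) (hyz : SolPair y z)
    (hzx : SolPair z (σ⁻¹ * x * σ)) : False := by
  have hySL : SL y := stepA hK hx hxy
  have hwSL : SL (σ * z * σ⁻¹) := by
    have h3 := solPair_conj (solPair_symm hzx) σ
    have h4 : σ * (σ⁻¹ * x * σ) * σ⁻¹ = x := by group
    rw [h4] at h3
    exact stepA hK hx h3
  have hwNS : NS (σ * z * σ⁻¹) := by
    intro c hc
    apply hz c
    have h3 : z = σ⁻¹ * (σ * z * σ⁻¹) * σ := by group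
    rw [h3, Units.val_mul, Units.val_mul, hc, mul_smul_comm, mul_one, smul_mul_assoc,
      ← Units.val_mul, inv_mul_cancel, Units.val_one]
  obtain ⟨m, hm1, hm2⟩ := exists_power hK h1 h2 hySL hy
  obtain ⟨n, hn1, hn2⟩ := exists_power hK h1 h2 hwSL hwNS
  have hzn : (σ * z * σ⁻¹) ^ n = σ * z ^ n * σ⁻¹ := conj_pow
  rcases hm2 with hyT | hyM
  · -- `y ^ m` is a multiplication: then `z` is in the normaliser
    have h3 : SolPair (y ^ m) z := by
      have := solPair_pow hyz m 1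
      rwa [pow_one] at this
    exact hσ.not_both hK h1 h2 hz (stepA hK hyT h3) hwSL
  · rcases hn2 with hwT | hwM
    · have h3 : SolPair ((σ * z * σ⁻¹) ^ n) (σ * y * σ⁻¹) := by
        rw [hzn]
        apply solPair_conj
        have := solPair_symm (solPair_pow hyz 1 n)
        rwa [pow_one] at this
      exact hσ.not_both hK h1 h2 hy hySL (stepA hK hwT h3)
    · apply hσ.pair (y ^ m) ((σ * z * σ⁻¹) ^ n) (hySL.pow m) (hwSL.pow n) hyM hwM
      have h3 : σ⁻¹ * (σ * z * σ⁻¹) ^ n * σ = z ^ n := by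
        rw [hzn]
        group
      rw [h3]
      exact solPair_pow hyz m n

end Pool.Agent.K4H75.PG
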