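import Mathlib

set_option autoImplicit false

/-! Minimal non-central normal subgroups of finite soluble groups. -/

namespace Pool.Agent.K4H75.PG

universe u

variable {G : Type u} [Group G]

/-- minimal among the non-central normal subgroups -/
structure MinNC (N : Subgroup G) : Prop where
  normal : N.Normal
  nc : ¬ N ≤ Subgroup.center G
  min : ∀ M : Subgroup G, M.Normal → M < N → M ≤ Subgroup.center G

theorem exists_minNC [Finite G] (h : ¬ ∀ a b : G, a * b = b * a) :
    ∃ N : Subgroup G, MinNC N := by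
  have hwf : WellFounded ((· < ·) : Subgroup G → Subgroup G → Prop) := wellFounded_lt
  obtain ⟨N, ⟨hN1, hN2⟩, hN3⟩ := hwf.has_min {N : Subgroup G | N.Normal ∧ ¬ N ≤ Subgroup.center G}
    ⟨⊤, inferInstance, by
      intro h1
      apply h
      intro a b
      have := h1 (Subgroup.mem_top a)
      rw [Subgroup.mem_center_iff] at this
      exact (this b).symm⟩
  refine ⟨N, hN1, hN2, ?_⟩
  intro M hM hlt
  by_contra hc
  exact hN3 M ⟨hM, hc⟩ hlt

variable {N : Subgroup G}

theorem MinNC.ne_bot (hN : MinNC N) : N ≠ ⊥ := by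
  rintro rfl
  exact hN.nc bot_le

theorem MinNC.comm_le [Group.IsSolvable G] (hN : MinNC N) : ⁅N, N⁆ ≤ Subgroup.center G := by
  have := hN.normal
  exact hN.min _ inferInstance (Group.IsSolvable.commutator_lt_of_ne_bot hN.ne_bot)

theorem MinNC.comm_mem [Group.IsSolvable G] (hN : MinNC N) {a b : G} (ha : a ∈ N) (hb : b ∈ N) :
    a * b * a⁻¹ * b⁻¹ ∈ Subgroup.center G :=
  hN.comm_le (Subgroup.commutator_mem_commutator ha hb)

/-- the image in the quotient by the centre -/
def bar (N : Subgroup G) : Subgroup (G ⧸ Subgroup.center G) :=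
  N.map (QuotientGroup.mk' (Subgroup.center G))

theorem mk_mem_bar {a : G} (ha : a ∈ N) : (QuotientGroup.mk' (Subgroup.center G) a) ∈ bar N :=
  Subgroup.mem_map_of_mem _ ha

theorem mk_eq_one_iff (a : G) :
    QuotientGroup.mk' (Subgroup.center G) a = 1 ↔ a ∈ Subgroup.center G := by
  rw [← MonoidHom.mem_ker, QuotientGroup.ker_mk']

theorem MinNC.bar_comm [Group.IsSolvable G] (hN : MinNC N) (x y : G ⧸ Subgroup.center G)
    (hx : x ∈ bar N) (hy : y ∈ bar N) : x * y = y * x := by
  obtain ⟨a, ha, rfl⟩ := hx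
  obtain ⟨b, hb, rfl⟩ := hy
  have h1 := (mk_eq_one_iff _).mpr (hN.comm_mem ha hb)
  rw [map_mul, map_mul, map_mul, map_inv, map_inv] at h1
  have h2 := mul_inv_eq_one.mp h1
  exact mul_inv_eq_iff_eq_mul.mp h2

theorem MinNC.exists_prime [Finite G] [Group.IsSolvable G] (hN : MinNC N) :
    ∃ c k : ℕ, c.Prime ∧ Nat.card (bar N) = c ^ k ∧ ∀ n ∈ N, n ^ c ∈ Subgroup.center G := by
  have hcard : Nat.card (bar N) ≠ 1 := by
    intro h
    rw [Subgroup.card_eq_one] at h
    apply hN.nc
    intro a ha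
    have := mk_mem_bar ha
    rw [h, Subgroup.mem_bot, mk_eq_one_iff] at this
    exact this
  obtain ⟨c, hc, hcd⟩ := Nat.exists_prime_and_dvd hcard
  have : Fact c.Prime := ⟨hc⟩
  obtain ⟨a, ha⟩ := exists_prime_orderOf_dvd_card' (G := bar N) c hcd
  let M : Subgroup G :=
    { carrier := {x | x ∈ N ∧ x ^ c ∈ Subgroup.center G}
      mul_mem' := by
        rintro x y ⟨hx, hx'⟩ ⟨hy, hy'⟩
        refine ⟨N.mul_mem hx hy, ?_⟩
        rw [← mk_eq_one_iff] at hx' hy' ⊢
        rw [map_pow] at hx' hy' ⊢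
        rw [map_mul, (show Commute _ _ from
          hN.bar_comm _ _ (mk_mem_bar hx) (mk_mem_bar hy)).mul_pow, hx', hy', one_mul]
      one_mem' := ⟨N.one_mem, by rw [one_pow]; exact Subgroup.one_mem _⟩
      inv_mem' := by
        rintro x ⟨hx, hx'⟩
        exact ⟨N.inv_mem hx, by rw [inv_pow]; exact Subgroup.inv_mem _ hx'⟩ }
  have hMn : M.Normal := by
    refine ⟨?_⟩
    rintro n ⟨hn, hn'⟩ g
    refine ⟨hN.normal.conj_mem n hn g, ?_⟩
    rw [conj_pow]
    exact Subgroup.Normal.conj_mem inferInstance _ hn' g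
  have hMN : M ≤ N := fun x hx => hx.1
  have hMeq : M = N := by
    rcases lt_or_eq_of_le hMN with h | h
    · exfalso
      have h1 := hN.min M hMn h
      obtain ⟨b, hb, hb'⟩ := a.2
      have h2 : b ∈ M := by
        refine ⟨hb, ?_⟩
        rw [← mk_eq_one_iff, map_pow, hb']
        have := pow_orderOf_eq_one a
        rw [ha] at this
        have h3 := congrArg Subtype.val this
        simpa using h3
      have h3 := (mk_eq_one_iff _).mpr (h1 h2)
      rw [hb'] at h3
      have h4 : a = 1 := Subtype.ext h3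
      rw [h4, orderOf_one] at ha
      exact hc.one_lt.ne ha
    · exact h
  have hexp : ∀ n ∈ N, n ^ c ∈ Subgroup.center G := by
    intro n hn
    rw [← hMeq] at hn
    exact hn.2
  have hp : IsPGroup c (bar N) := by
    rintro ⟨x, n, hn, rfl⟩
    refine ⟨1, ?_⟩
    apply Subtype.ext
    rw [pow_one]
    show (QuotientGroup.mk' (Subgroup.center G) n) ^ c = 1
    rw [← map_pow, mk_eq_one_iff]
    exact hexp n hn
  obtain ⟨k, hk⟩ := IsPGroup.iff_card.mp hp
  exact ⟨c, k, hc, hk, hexp⟩

/-- if `N` is not abelian then its image is not cyclic of prime order -/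
theorem two_le_of_not_comm [Finite G] {c k : ℕ} (hc : c.Prime)
    (hk : Nat.card (bar N) = c ^ k) (hnc : ¬ ∀ a ∈ N, ∀ b ∈ N, a * b = b * a) : 2 ≤ k := by
  by_contra hlt
  apply hnc
  have hcyc : IsCyclic (bar N) := by
    rcases Nat.lt_or_ge k 1 with h | h
    · have h0 : k = 0 := by omega
      rw [h0, pow_zero] at hk
      have := (Nat.card_eq_one_iff_unique.mp hk).1
      infer_instance
    · have h1 : k = 1 := by omega
      rw [h1, pow_one] at hk
      have : Fact c.Prime := ⟨hc⟩
      exact isCyclic_of_prime_card hk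
  let f : N →* bar N := (QuotientGroup.mk' (Subgroup.center G)).subgroupMap N
  have hf : f.ker ≤ Subgroup.center N := by
    rintro ⟨a, ha⟩ h
    rw [MonoidHom.mem_ker] at h
    have h1 := congrArg Subtype.val h
    change QuotientGroup.mk' (Subgroup.center G) a = 1 at h1
    rw [mk_eq_one_iff, Subgroup.mem_center_iff] at h1
    rw [Subgroup.mem_center_iff]
    rintro ⟨b, hb⟩
    exact Subtype.ext (h1 b)
  intro a ha b hb
  have := (MonoidHom.isMulCommutative_of_isCyclic_of_ker_le_center f hf).is_comm.comm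
    ⟨a, ha⟩ ⟨b, hb⟩
  exact congrArg Subtype.val this

/-- elements of `N` commuting with `N` are central -/
theorem MinNC.center_of_comm (hN : MinNC N) (hnc : ¬ ∀ a ∈ N, ∀ b ∈ N, a * b = b * a)
    {a : G} (ha : a ∈ N) (h : ∀ b ∈ N, a * b = b * a) : a ∈ Subgroup.center G := by
  let M : Subgroup G := N ⊓ Subgroup.centralizer (N : Set G)
  have hnorm := hN.normal
  have hMn : M.Normal := by
    refine ⟨?_⟩
    rintro n ⟨hn, hn'⟩ g
    refine ⟨hN.normal.conj_mem n hn g, ?_⟩
    exact (Subgroup.Normal.conj_mem inferInstance n hn' g)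
  have hMN : M ≤ N := inf_le_left
  have hM : M < N := by
    refine lt_of_le_of_ne hMN ?_
    intro h1
    apply hnc
    intro x hx y hy
    have h2 : x ∈ M := by rw [h1]; exact hx
    exact (Subgroup.mem_centralizer_iff.mp h2.2 y hy).symm
  refine hN.min M hMn hM ⟨ha, ?_⟩
  exact Subgroup.mem_centralizer_iff.mpr (fun y hy => (h y hy).symm)

theorem prime_arith {c s k j : ℕ} (hc : c.Prime) (hs : s.Prime) (hne : s ≠ c) (hjk : j ≤ k)
    (h : c ^ k ≡ c ^ j [MOD s]) (hnum : ∀ i, 1 ≤ i → i ≤ k → ¬ c ^ i ≡ 1 [MOD s]) : j = k := by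
  by_contra hlt
  have hlt' : j < k := lt_of_le_of_ne hjk hlt
  apply hnum (k - j) (by omega) (by omega)
  have hcop : Nat.Coprime s (c ^ j) := Nat.Coprime.pow_right _ ((Nat.coprime_primes hs hc).mpr hne)
  refine Nat.ModEq.cancel_left_of_coprime (m := s) (c := c ^ j) hcop ?_
  rw [← pow_add, mul_one, show j + (k - j) = k by omega]
  exact h

/-- an element of order prime to `|N / Z|` whose order does not divide the relevant numbers
centralises `N` -/
theorem MinNC.centralises [Finite G] [Group.IsSolvable G] (hN : MinNC N) {c k s : ℕ}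
    (hc : c.Prime) (hk : Nat.card (bar N) = c ^ k) (hexp : ∀ n ∈ N, n ^ c ∈ Subgroup.center G)
    (hs : s.Prime) (hne : s ≠ c) (hnum : ∀ i, 1 ≤ i → i ≤ k → ¬ c ^ i ≡ 1 [MOD s])
    {a : G} (ha : a ^ s ∈ Subgroup.center G) : ∀ n ∈ N, a * n = n * a := by
  classical
  have : Fact s.Prime := ⟨hs⟩
  set Q := G ⧸ Subgroup.center G
  let π : G →* Q := QuotientGroup.mk' (Subgroup.center G)
  have hn := hN.normal
  have hbn : (bar N).Normal := Subgroup.Normal.map hn π (QuotientGroup.mk'_surjective _)
  let f : Function.End (bar N) := fun x => ⟨π a * x.1 * (π a)⁻¹, hbn.conj_mem x.1 x.2 (π a)⟩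
  have hfit : ∀ (m : ℕ) (x : bar N), ((f ^ m) x).1 =
      (π a) ^ m * x.1 * ((π a) ^ m)⁻¹ := by
    intro m
    induction m with
    | zero =>
      intro x
      rw [pow_zero, pow_zero, one_mul, inv_one, mul_one]
      rfl
    | succ m ih =>
      intro x
      rw [pow_succ']
      show π a * ((f ^ m) x).1 * (π a)⁻¹ = _
      rw [ih, pow_succ']
      group
  have hfs : f ^ s ^ 1 = 1 := by
    rw [pow_one]
    funext x
    apply Subtype.ext
    rw [hfit, ← map_pow, (mk_eq_one_iff _).mpr ha, one_mul, inv_one, mul_one]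
    rfl
  have : Finite Q := inferInstance
  have : Fintype (bar N) := Fintype.ofFinite _
  have h1 := Equiv.Perm.card_fixedPoints_modEq hfs
  -- the fixed subgroup
  let K : Subgroup (bar N) :=
    { carrier := {x | π a * x.1 = x.1 * π a}
      mul_mem' := by
        intro x y hx hy
        show π a * (x.1 * y.1) = x.1 * y.1 * π a
        rw [← mul_assoc, (show π a * x.1 = x.1 * π a from hx), mul_assoc,
          (show π a * y.1 = y.1 * π a from hy), mul_assoc]
      one_mem' := by
        show π a * 1 = 1 * π a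
        rw [mul_one, one_mul]
      inv_mem' := by
        intro x hx
        have h2 : Commute (π a) x.1 := hx
        exact h2.inv_right }
  have hK : Fintype.card (Function.fixedPoints f) = Nat.card K := by
    rw [← Nat.card_eq_fintype_card]
    apply Nat.card_congr
    refine Equiv.subtypeEquivRight ?_
    intro x
    show f x = x ↔ π a * x.1 = x.1 * π a
    rw [Subtype.ext_iff]
    exact mul_inv_eq_iff_eq_mul
  have hdvd : Nat.card K ∣ c ^ k := hk ▸ Subgroup.card_subgroup_dvd_card K
  obtain ⟨j, hj, hKj⟩ := (Nat.dvd_prime_pow hc).mp hdvd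
  rw [← Nat.card_eq_fintype_card, hk, hK, hKj] at h1
  have hjk := prime_arith hc hs hne hj h1 hnum
  have hKtop : K = ⊤ := by
    apply Subgroup.eq_top_of_card_eq
    rw [hKj, hjk, hk]
  intro n hn'
  have h2 : (⟨π n, mk_mem_bar hn'⟩ : bar N) ∈ K := by rw [hKtop]; exact Subgroup.mem_top _
  have h3 : π a * π n = π n * π a := h2
  set z := a * n * a⁻¹ * n⁻¹ with hz
  have hzc : z ∈ Subgroup.center G := by
    rw [← mk_eq_one_iff]
    show π z = 1
    rw [hz, map_mul, map_mul, map_mul, map_inv, map_inv, h3]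
    group
  have hzc' := Subgroup.mem_center_iff.mp hzc
  have h4 : a * n * a⁻¹ = z * n := by rw [hz]; group
  have hit : ∀ m : ℕ, a ^ m * n * (a ^ m)⁻¹ = z ^ m * n := by
    intro m
    induction m with
    | zero => simp
    | succ m ih =>
      rw [pow_succ']
      calc a * a ^ m * n * (a * a ^ m)⁻¹ = a * (a ^ m * n * (a ^ m)⁻¹) * a⁻¹ := by group
        _ = a * (z ^ m * n) * a⁻¹ := by rw [ih]
        _ = (a * z ^ m) * n * a⁻¹ := by group
        _ = (z ^ m * a) * n * a⁻¹ := by
          have : a * z ^ m = z ^ m * a := (show Commute a z from hzc' a).pow_right m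
          rw [this]
        _ = z ^ m * (a * n * a⁻¹) := by group
        _ = z ^ m * (z * n) := by rw [h4]
        _ = z ^ (m + 1) * n := by rw [← mul_assoc, ← pow_succ]
  have hz1 : z ^ s = 1 := by
    have h5 := hit s
    have h6 := Subgroup.mem_center_iff.mp ha n
    rw [← h6, mul_inv_cancel_right] at h5
    exact (mul_eq_right.mp h5.symm)
  have hz2 : z ^ c = 1 := by
    have h5 : (a * n * a⁻¹) ^ c = (z * n) ^ c := by rw [h4]
    rw [conj_pow, (show Commute z n from (hzc' n).symm).mul_pow] at h5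
    have h6 := Subgroup.mem_center_iff.mp (hexp n hn') a
    rw [h6, mul_inv_cancel_right] at h5
    exact (mul_eq_right.mp h5.symm)
  have hz3 : z = 1 := by
    have h5 : orderOf z ∣ s := orderOf_dvd_of_pow_eq_one hz1
    have h6 : orderOf z ∣ c := orderOf_dvd_of_pow_eq_one hz2
    have h7 : orderOf z ∣ Nat.gcd s c := Nat.dvd_gcd h5 h6
    rw [(Nat.coprime_primes hs hc).mpr hne, Nat.dvd_one, orderOf_eq_one_iff] at h7
    exact h7
  rw [hz3, one_mul] at h4
  exact mul_inv_eq_iff_eq_mul.mp h4

end Pool.Agent.K4H75.PG
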