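import Pool.Agent.K4H75.PG.Grp

set_option autoImplicit false

/-! Linear soluble groups of small degree. -/

namespace Pool.Agent.K4H75.PG

open Module TensorProduct

universe u v w

section stable

variable {F : Type u} [Field F] {W : Type v} [AddCommGroup W] [Module F W]

/-- `U` is stable under the set `C` of endomorphisms -/
def Stab (C : Set (Module.End F W)) (U : Submodule F W) : Prop := ∀ c ∈ C, ∀ u ∈ U, c u ∈ U

theorem exists_min_stable [FiniteDimensional F W] (C : Set (Module.End F W))
    (U : Submodule F W) (h0 : U ≠ ⊥) (hs : Stab C U) :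
    ∃ S : Submodule F W, S ≤ U ∧ S ≠ ⊥ ∧ Stab C S ∧
      ∀ T : Submodule F W, T ≤ S → T ≠ ⊥ → Stab C T → T = S := by
  have hwf : WellFounded ((· < ·) : Submodule F W → Submodule F W → Prop) := wellFounded_lt
  obtain ⟨S, ⟨h1, h2, h3⟩, h4⟩ := hwf.has_min
    {S : Submodule F W | S ≤ U ∧ S ≠ ⊥ ∧ Stab C S} ⟨U, le_refl _, h0, hs⟩
  refine ⟨S, h1, h2, h3, ?_⟩
  intro T hT1 hT2 hT3
  rcases lt_or_eq_of_le hT1 with h | h
  · exact absurd h (h4 T ⟨hT1.trans h1, hT2, hT3⟩)
  · exact h

theorem exists_common_eigenvector [IsAlgClosed F] [FiniteDimensional F W] [Nontrivial W]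
    (C : Set (Module.End F W)) (hC : ∀ a ∈ C, ∀ b ∈ C, a * b = b * a) :
    ∃ v : W, v ≠ 0 ∧ ∀ c ∈ C, ∃ μ : F, c v = μ • v := by
  obtain ⟨S, -, hS, hst, hmin⟩ := exists_min_stable C ⊤ top_ne_bot (fun _ _ _ _ => Submodule.mem_top)
  obtain ⟨v, hv, hv0⟩ := (Submodule.ne_bot_iff S).mp hS
  refine ⟨v, hv0, ?_⟩
  intro c hc
  have hnt : Nontrivial S := Submodule.nontrivial_iff_ne_bot.mpr hS
  let cS : Module.End F S := c.restrict (hst c hc)
  obtain ⟨μ, hμ⟩ := Module.End.exists_eigenvalue cS
  obtain ⟨x, hx⟩ := hμ.exists_hasEigenvector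
  have hx1 : c x.1 = μ • x.1 := by
    have := hx.apply_eq_smul
    exact congrArg Subtype.val this
  let T : Submodule F W := S ⊓ LinearMap.ker (c - μ • 1)
  have hTS : T = S := by
    apply hmin T inf_le_left
    · rw [Submodule.ne_bot_iff]
      refine ⟨x.1, ⟨x.2, ?_⟩, ?_⟩
      · show (c - μ • (1 : Module.End F W)) x.1 = 0
        rw [LinearMap.sub_apply, hx1]
        simp
      · intro h
        exact hx.2 (Subtype.ext h)
    · rintro d hd u ⟨hu1, hu2⟩
      refine ⟨hst d hd u hu1, ?_⟩
      simp only [SetLike.mem_coe, LinearMap.mem_ker, LinearMap.sub_apply, LinearMap.smul_apply,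
        sub_eq_zero] at hu2 ⊢
      have h1 : c (d u) = d (c u) := by
        rw [← Module.End.mul_apply, hC c hc d hd, Module.End.mul_apply]
      rw [h1, hu2]
      simp
  have hvT : v ∈ T := by rw [hTS]; exact hv
  have := hvT.2
  simp only [SetLike.mem_coe, LinearMap.mem_ker, LinearMap.sub_apply, LinearMap.smul_apply,
    sub_eq_zero] at this
  exact ⟨μ, by rw [this]; simp⟩

theorem exists_common_kernel [FiniteDimensional F W] [Nontrivial W]
    (C : Set (Module.End F W)) (hC : ∀ a ∈ C, ∀ b ∈ C, a * b = b * a)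
    (hn : ∀ c ∈ C, IsNilpotent c) : ∃ v : W, v ≠ 0 ∧ ∀ c ∈ C, c v = 0 := by
  obtain ⟨S, -, hS, hst, hmin⟩ := exists_min_stable C ⊤ top_ne_bot (fun _ _ _ _ => Submodule.mem_top)
  obtain ⟨v, hv, hv0⟩ := (Submodule.ne_bot_iff S).mp hS
  refine ⟨v, hv0, ?_⟩
  intro c hc
  obtain ⟨r, hr⟩ := hn c hc
  -- the least power killing `v`
  have hex : ∃ n, (c ^ n) v = 0 := ⟨r, by rw [hr]; rfl⟩
  classical
  obtain ⟨m, hm⟩ : ∃ m, Nat.find hex = m + 1 := by
    rcases h : Nat.find hex with _ | m
    · exfalso
      have := Nat.find_spec hex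
      rw [h, pow_zero] at this
      exact hv0 this
    · exact ⟨m, rfl⟩
  have h1 : (c ^ m) v ≠ 0 := Nat.find_min hex (by omega)
  have h2 : c ((c ^ m) v) = 0 := by
    have := Nat.find_spec hex
    rwa [hm, pow_succ'] at this
  have h3 : ∀ n, (c ^ n) v ∈ S := by
    intro n
    induction n with
    | zero => exact hv
    | succ n ih =>
      rw [pow_succ']
      exact hst c hc _ ih
  let T : Submodule F W := S ⊓ LinearMap.ker c
  have hTS : T = S := by
    apply hmin T inf_le_left
    · rw [Submodule.ne_bot_iff]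
      exact ⟨_, ⟨h3 m, h2⟩, h1⟩
    · rintro d hd u ⟨hu1, hu2⟩
      refine ⟨hst d hd u hu1, ?_⟩
      rw [SetLike.mem_coe, LinearMap.mem_ker] at hu2 ⊢
      rw [← Module.End.mul_apply, hC c hc d hd, Module.End.mul_apply, hu2, map_zero]
  have hvT : v ∈ T := by rw [hTS]; exact hv
  exact hvT.2

theorem linInd_of_char {A : Type w} [Group A] {ι : Type} (ρ : A →* Module.End F W)
    (χ : ι → (A →* F)) (hχ : Function.Injective χ) (x : ι → W) (hx : ∀ i, x i ≠ 0)
    (h : ∀ i a, ρ a (x i) = χ i a • x i) : LinearIndependent F x := by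
  rw [linearIndependent_iff']
  intro s g hg i hi
  have hind : LinearIndependent F (fun i => (χ i : A → F)) :=
    (linearIndependent_monoidHom A F).comp χ hχ
  rw [linearIndependent_iff'] at hind
  have h1 : ∀ f : Module.Dual F W, f (g i • x i) = 0 := by
    intro f
    have h2 := hind s (fun i => g i * f (x i)) (by
      funext a
      simp only [Finset.sum_apply, Pi.smul_apply, smul_eq_mul, Pi.zero_apply]
      have h3 : f (ρ a (∑ i ∈ s, g i • x i)) = 0 := by rw [hg, map_zero, map_zero]
      rw [map_sum, map_sum] at h3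
      rw [← h3]
      apply Finset.sum_congr rfl
      intro j _
      rw [map_smul, h, map_smul, map_smul, smul_eq_mul, smul_eq_mul]
      ring) i hi
    rw [map_smul, smul_eq_mul]
    exact h2
  have h2 := (Module.forall_dual_apply_eq_zero_iff F (g i • x i)).mp h1
  rcases smul_eq_zero.mp h2 with h3 | h3
  · exact h3
  · exact absurd h3 (hx i)

end stable

section weights

variable {F : Type u} [Field F] {W : Type v} [AddCommGroup W] [Module F W]
  {G : Type w} [Group G]

theorem exists_weight [IsAlgClosed F] [FiniteDimensional F W] [Nontrivial W]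
    (ρ : G →* Module.End F W) (A : Subgroup G) (hA : A.Normal)
    (hAc : ∀ a ∈ A, ∀ b ∈ A, a * b = b * a) (Y : Set G)
    (hY : ∀ y ∈ Y, ∃ s : ℕ, s.Prime ∧ finrank F W < s ∧ ∀ a ∈ A, y ^ s * a = a * y ^ s) :
    ∃ v : W, v ≠ 0 ∧ ∀ b ∈ Subgroup.closure Y, ∀ a ∈ A, ρ (b * a * b⁻¹) v = ρ a v := by
  obtain ⟨v, hv0, hv⟩ := exists_common_eigenvector (F := F) (ρ '' (A : Set G)) (by
    rintro _ ⟨a, ha, rfl⟩ _ ⟨b, hb, rfl⟩
    rw [← map_mul, hAc a ha b hb, map_mul])
  refine ⟨v, hv0, ?_⟩
  have hv' : ∀ a : A, ∃ μ : F, ρ a v = μ • v := fun a => hv _ ⟨a, a.2, rfl⟩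
  choose χ0 hχ0 using hv'
  have hinj : ∀ μ ν : F, μ • v = ν • v → μ = ν := fun μ ν h => smul_left_injective F hv0 h
  let χ : A →* F :=
    { toFun := χ0
      map_one' := by
        apply hinj
        rw [← hχ0, one_smul, Subgroup.coe_one, map_one]
        rfl
      map_mul' := by
        intro a b
        apply hinj
        rw [← hχ0, Subgroup.coe_mul, map_mul, Module.End.mul_apply, hχ0, map_smul, hχ0, smul_smul,
          mul_comm] }
  have hχ : ∀ a : A, ρ a v = χ a • v := hχ0
  let cj : G → A → A := fun g a => ⟨g * a * g⁻¹, hA.conj_mem a a.2 g⟩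
  have hcj : ∀ g a, (cj g a : G) = g * a * g⁻¹ := fun _ _ => rfl
  let T : Subgroup G :=
    { carrier := {g | ∀ a, χ (cj g a) = χ a}
      mul_mem' := by
        intro g h hg hh a
        have : cj (g * h) a = cj g (cj h a) := by
          apply Subtype.ext
          rw [hcj, hcj, hcj]
          group
        rw [this, hg, hh]
      one_mem' := by
        intro a
        congr 1
        apply Subtype.ext
        rw [hcj]
        group
      inv_mem' := by
        intro g hg a
        have : cj g (cj g⁻¹ a) = a := by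
          apply Subtype.ext
          rw [hcj, hcj]
          group
        rw [← hg (cj g⁻¹ a), this] }
  have hYT : Y ⊆ T := by
    intro y hy
    obtain ⟨s, hs, hlt, hcomm⟩ := hY y hy
    by_contra hyT
    let χi : Fin s → (A →* F) := fun i =>
      { toFun := fun a => χ (cj (y ^ (i : ℕ))⁻¹ a)
        map_one' := by
          have : cj (y ^ (i : ℕ))⁻¹ 1 = 1 := by
            apply Subtype.ext
            rw [hcj]
            simp
          rw [this, map_one]
        map_mul' := by
          intro a b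
          rw [← map_mul]
          congr 1
          apply Subtype.ext
          rw [Subgroup.coe_mul, hcj, hcj, hcj, Subgroup.coe_mul]
          group }
    have hχi : Function.Injective χi := by
      have key : ∀ i j : Fin s, (i : ℕ) < j → χi i ≠ χi j := by
        intro i j hij heq
        apply hyT
        have h1 : y ^ ((j : ℕ) - i) ∈ T := by
          intro a
          have h2 := DFunLike.congr_fun heq (cj (y ^ (j : ℕ)) a)
          change χ (cj (y ^ (i : ℕ))⁻¹ (cj (y ^ (j : ℕ)) a)) =
            χ (cj (y ^ (j : ℕ))⁻¹ (cj (y ^ (j : ℕ)) a)) at h2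
          have h3 : cj (y ^ (j : ℕ))⁻¹ (cj (y ^ (j : ℕ)) a) = a := by
            apply Subtype.ext
            rw [hcj, hcj]
            group
          have h4 : cj (y ^ (i : ℕ))⁻¹ (cj (y ^ (j : ℕ)) a) = cj (y ^ ((j : ℕ) - i)) a := by
            apply Subtype.ext
            rw [hcj, hcj, hcj]
            have h5 : y ^ (j : ℕ) = y ^ (i : ℕ) * y ^ ((j : ℕ) - i) := by
              rw [← pow_add]
              congr 1
              omega
            rw [h5]
            group
          rw [h3, h4] at h2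
          exact h2
        have h2 : y ^ s ∈ T := by
          intro a
          congr 1
          apply Subtype.ext
          rw [hcj, hcomm a a.2, mul_inv_cancel_right]
        have hcop : Nat.Coprime ((j : ℕ) - i) s := by
          rw [Nat.coprime_comm]
          apply (Nat.Prime.coprime_iff_not_dvd hs).mpr
          intro h
          have := Nat.le_of_dvd (by omega) h
          have := j.2
          omega
        have hb := Nat.gcd_eq_gcd_ab ((j : ℕ) - i) s
        rw [hcop] at hb
        have h3 : y = (y ^ ((j : ℕ) - i)) ^ (Nat.gcdA ((j : ℕ) - i) s) *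
            (y ^ s) ^ (Nat.gcdB ((j : ℕ) - i) s) := by
          rw [← zpow_natCast, ← zpow_natCast, ← zpow_mul, ← zpow_mul, ← zpow_add, ← hb]
          simp
        rw [h3]
        exact T.mul_mem (T.zpow_mem h1 _) (T.zpow_mem h2 _)
      intro i j hij
      rcases lt_trichotomy (i : ℕ) j with h | h | h
      · exact absurd hij (key i j h)
      · exact Fin.ext h
      · exact absurd hij.symm (key j i h)
    have hind := linInd_of_char (F := F) (ρ.comp A.subtype) χi hχi
      (fun i => ρ (y ^ (i : ℕ)) v) (by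
        intro i h
        apply hv0
        have h1 : ρ ((y ^ (i : ℕ))⁻¹) (ρ (y ^ (i : ℕ)) v) = v := by
          rw [← Module.End.mul_apply, ← map_mul, inv_mul_cancel, map_one]
          rfl
        rw [← h1, h, map_zero]) (by
        intro i a
        show ρ a (ρ (y ^ (i : ℕ)) v) = χ (cj (y ^ (i : ℕ))⁻¹ a) • ρ (y ^ (i : ℕ)) v
        rw [← map_smul, ← hχ, ← Module.End.mul_apply, ← Module.End.mul_apply, ← map_mul, ← map_mul,
          hcj]
        congr 2
        group)
    have := hind.fintype_card_le_finrank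
    rw [Fintype.card_fin] at this
    omega
  have hBT : Subgroup.closure Y ≤ T := by rwa [Subgroup.closure_le]
  intro b hb a ha
  have h1 := hBT hb ⟨a, ha⟩
  have h2 := hχ (cj b ⟨a, ha⟩)
  rw [hcj] at h2
  rw [h2, h1]
  exact (hχ ⟨a, ha⟩).symm

theorem centralises_of_weights [FiniteDimensional F W] [Nontrivial W] [Finite G]
    (ρ : G →* Module.End F W) (hρ : Function.Injective ρ) (A : Subgroup G) (hA : A.Normal)
    (hAc : ∀ a ∈ A, ∀ b ∈ A, a * b = b * a) (Y : Set G)
    (hY : ∀ y ∈ Y, ∃ s : ℕ, s.Prime ∧ finrank F W < s ∧ ∀ a ∈ A, y ^ s * a = a * y ^ s)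
    (hirr : ∀ U : Submodule F W, Stab (ρ '' (Subgroup.closure Y : Set G)) U → U = ⊥ ∨ U = ⊤) :
    ∀ b ∈ Subgroup.closure Y, ∀ a ∈ A, b * a = a * b := by
  classical
  set B := Subgroup.closure Y with hB
  let Fb := AlgebraicClosure F
  let ρb : G →* Module.End Fb (Fb ⊗[F] W) :=
    (Module.End.baseChangeHom F Fb W : Module.End F W →* Module.End Fb (Fb ⊗[F] W)).comp ρ
  have hfin : finrank Fb (Fb ⊗[F] W) = finrank F W := Module.finrank_baseChange
  have hnt : Nontrivial (Fb ⊗[F] W) := by
    apply Module.nontrivial_of_finrank_pos (R := Fb)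
    rw [hfin]
    exact finrank_pos
  obtain ⟨v, hv0, hv⟩ := exists_weight ρb A hA hAc Y (by rw [hfin]; exact hY)
  let I := B × A
  have : Fintype I := Fintype.ofFinite _
  let f : I → Module.End F W := fun i => ρ (i.1 * i.2 * (i.1 : G)⁻¹) - ρ i.2
  have hfv : ∀ i, (f i).baseChange Fb v = 0 := by
    intro i
    have h1 := hv i.1 i.1.2 i.2 i.2.2
    have h2 : (f i).baseChange Fb = ρb (i.1 * i.2 * (i.1 : G)⁻¹) - ρb i.2 := by
      show Module.End.baseChangeHom F Fb W (f i) = Module.End.baseChangeHom F Fb W _ -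
        Module.End.baseChangeHom F Fb W _
      exact map_sub (Module.End.baseChangeHom F Fb W) _ _
    rw [h2, LinearMap.sub_apply, h1, sub_self]
  let U : Submodule F W := LinearMap.ker (LinearMap.pi f)
  have hU : ∀ x, x ∈ U ↔ ∀ b ∈ B, ∀ a ∈ A, ρ (b * a * b⁻¹) x = ρ a x := by
    intro x
    rw [LinearMap.mem_ker]
    constructor
    · intro h b hb a ha
      have := congrFun h (⟨b, hb⟩, ⟨a, ha⟩)
      exact sub_eq_zero.mp this
    · intro h
      funext i
      show f i x = 0
      exact sub_eq_zero.mpr (h i.1 i.1.2 i.2 i.2.2)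
  have hUst : Stab (ρ '' (B : Set G)) U := by
    rintro _ ⟨b', hb', rfl⟩ x hx
    rw [hU] at hx ⊢
    intro b hb a ha
    have e1 : ρ (b * a * b⁻¹) (ρ b' x) = ρ b' (ρ ((b'⁻¹ * b) * a * (b'⁻¹ * b)⁻¹) x) := by
      rw [← Module.End.mul_apply, ← Module.End.mul_apply, ← map_mul, ← map_mul]
      congr 2
      group
    have e2 : ρ a (ρ b' x) = ρ b' (ρ (b'⁻¹ * a * b'⁻¹⁻¹) x) := by
      rw [← Module.End.mul_apply, ← Module.End.mul_apply, ← map_mul, ← map_mul]
      congr 2
      group
    rw [e1, e2, hx _ (B.mul_mem (B.inv_mem hb') hb) a ha, hx _ (B.inv_mem hb') a ha]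
  rcases hirr U hUst with h | h
  · exfalso
    obtain ⟨g, hg⟩ := LinearMap.exists_leftInverse_of_injective (LinearMap.pi f) h
    have h1 : ∀ x, x = ∑ i, (g ∘ₗ LinearMap.single F (fun _ => W) i) (f i x) := by
      intro x
      have h2 := LinearMap.congr_fun hg x
      rw [LinearMap.comp_apply, LinearMap.id_apply] at h2
      conv_lhs => rw [← h2]
      have h3 : (LinearMap.pi f) x = ∑ i, LinearMap.single F (fun _ => W) i (f i x) := by
        funext j
        rw [Finset.sum_apply]
        simp only [LinearMap.pi_apply, LinearMap.coe_single, Pi.single_apply]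
        rw [Finset.sum_ite_eq]
        simp
      rw [h3, map_sum]
      rfl
    have h2 : (LinearMap.id : W →ₗ[F] W) =
        ∑ i, (g ∘ₗ LinearMap.single F (fun _ => W) i) ∘ₗ (f i) := by
      ext x
      rw [LinearMap.sum_apply]
      exact h1 x
    have h3 : (LinearMap.id : (Fb ⊗[F] W) →ₗ[Fb] (Fb ⊗[F] W)) =
        ∑ i, ((g ∘ₗ LinearMap.single F (fun _ => W) i).baseChange Fb) ∘ₗ
          ((f i).baseChange Fb) := by
      rw [← LinearMap.baseChange_id, h2]
      have h4 := map_sum (LinearMap.baseChangeHom F Fb W W)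
        (fun i => (g ∘ₗ LinearMap.single F (fun _ => W) i) ∘ₗ (f i)) Finset.univ
      change LinearMap.baseChange Fb _ = _ at h4
      rw [h4]
      apply Finset.sum_congr rfl
      intro i _
      exact LinearMap.baseChange_comp _ _
    apply hv0
    have h4 := LinearMap.congr_fun h3 v
    rw [LinearMap.id_apply, LinearMap.sum_apply] at h4
    rw [h4]
    apply Finset.sum_eq_zero
    intro i _
    rw [LinearMap.comp_apply, hfv, map_zero]
  · intro b hb a ha
    have h1 : ρ (b * a * b⁻¹) = ρ a := by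
      ext x
      have : x ∈ U := by rw [h]; exact Submodule.mem_top
      exact (hU x).mp this b hb a ha
    have h2 := hρ h1
    exact mul_inv_eq_iff_eq_mul.mp h2

end weights

end Pool.Agent.K4H75.PG
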