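import Pool.Agent.K4H75.PG.TypeM

set_option autoImplicit false

/-! Soluble groups generated by elements of order eleven modulo scalars. -/

namespace Pool.Agent.K4H75.PG

open Module

universe u v w

theorem comm_of_small' {F : Type u} [Field F] {W : Type v} [AddCommGroup W] [Module F W]
    {G : Type w} [Group G] [FiniteDimensional F W] [Nontrivial W] [Finite G]
    [Group.IsSolvable G] (ρ : G →* Module.End F W) (Y : Set G)
    (htop : Subgroup.closure Y = ⊤)
    (hirr : Irr ρ Set.univ) (hdim : finrank F W ≤ 10)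
    (hY : ∀ y ∈ Y, ∀ g, ρ (y ^ 11) * ρ g = ρ g * ρ (y ^ 11)) :
    ∀ g h : G, ρ g * ρ h = ρ h * ρ g := by
  let R : Subgroup (Module.End F W)ˣ := (ρ.toHomUnits).range
  let φ : G →* R := (ρ.toHomUnits).rangeRestrict
  let ρ' : R →* Module.End F W := (Units.coeHom (Module.End F W)).comp R.subtype
  have hsurj : Function.Surjective φ := (ρ.toHomUnits).rangeRestrict_surjective
  have hsol : Group.IsSolvable R := Group.isSolvable_of_surjective hsurj
  have hfin : Finite R := Finite.of_surjective φ hsurj
  have hmk : ∀ g : G, ρ' (φ g) = ρ g := fun g => rfl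
  have hρ' : Function.Injective ρ' := fun a b h => Subtype.ext (Units.ext h)
  have h1 : Subgroup.closure (φ '' Y) = ⊤ := by
    rw [← MonoidHom.map_closure, htop, ← MonoidHom.range_eq_map, MonoidHom.range_eq_top]
    exact hsurj
  have h2 : Irr ρ' Set.univ := by
    intro U hU
    apply hirr U
    rintro _ ⟨g, -, rfl⟩
    exact hU _ ⟨φ g, Set.mem_univ _, hmk g⟩
  have h3 : ∀ y ∈ φ '' Y, y ^ 11 ∈ Subgroup.center R := by
    rintro _ ⟨y, hy, rfl⟩
    rw [Subgroup.mem_center_iff]
    intro g
    obtain ⟨g', rfl⟩ := hsurj g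
    apply hρ'
    rw [← map_pow φ y 11, map_mul ρ', map_mul ρ', hmk, hmk]
    exact (hY y hy g').symm
  have h4 := comm_of_small (F := F) (W := W) hρ' _ h1 h2 hdim h3
  intro g h
  rw [← hmk g, ← hmk h, ← map_mul ρ', h4, map_mul ρ']

section eleven

variable {G : Type u} [Group G]

/-- the case of a normal section of order `11 ^ 2` -/
theorem no_eleven [Finite G] [Group.IsSolvable G] {N : Subgroup G} (hN : MinNC N) {k : ℕ}
    (hk2 : 2 ≤ k) (hk : Nat.card (bar N) = 11 ^ k) (hle : 11 ^ k ≤ 121)
    (hexp : ∀ n ∈ N, n ^ 11 ∈ Subgroup.center G) (Y : Set G) (hYtop : Subgroup.closure Y = ⊤)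
    (hY : ∀ y ∈ Y, y ^ 11 ∈ Subgroup.center G) : False := by
  classical
  have : Fact (Nat.Prime 11) := ⟨by norm_num⟩
  let instCG : CommGroup (bar N) :=
    { (inferInstance : Group (bar N)) with
      mul_comm := fun x y => Subtype.ext (hN.bar_comm x.1 y.1 x.2 y.2) }
  let W := Additive (bar N)
  let instMod : Module (ZMod 11) W := AddCommGroup.zmodModule (by
    intro x
    obtain ⟨n, hn, hn'⟩ := (Additive.toMul x).2
    apply Additive.toMul.injective
    apply Subtype.ext
    show ((Additive.toMul x).1) ^ 11 = 1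
    rw [← hn', ← map_pow]
    exact (mk_eq_one_iff _).mpr (hexp n hn))
  have hfinW : Finite W := inferInstanceAs (Finite (bar N))
  have hMF : Module.Finite (ZMod 11) W := Module.Finite.of_finite
  have hn := hN.normal
  let π : G →* G ⧸ Subgroup.center G := QuotientGroup.mk' (Subgroup.center G)
  have hbn : (bar N).Normal := Subgroup.Normal.map hn π (QuotientGroup.mk'_surjective _)
  let act : G → bar N → bar N := fun g x => ⟨π g * x.1 * (π g)⁻¹, hbn.conj_mem x.1 x.2 (π g)⟩
  let actAdd : G → (W →+ W) := fun g =>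
    { toFun := fun x => Additive.ofMul (act g (Additive.toMul x))
      map_zero' := by
        apply Additive.toMul.injective
        apply Subtype.ext
        show π g * 1 * (π g)⁻¹ = 1
        rw [mul_one, mul_inv_cancel]
      map_add' := by
        intro x y
        apply Additive.toMul.injective
        apply Subtype.ext
        show π g * ((Additive.toMul x).1 * (Additive.toMul y).1) * (π g)⁻¹ =
          (π g * (Additive.toMul x).1 * (π g)⁻¹) * (π g * (Additive.toMul y).1 * (π g)⁻¹)
        group }
  let ρ : G →* Module.End (ZMod 11) W :=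
    { toFun := fun g => (actAdd g).toZModLinearMap 11
      map_one' := by
        apply LinearMap.ext
        intro x
        apply Additive.toMul.injective
        apply Subtype.ext
        show π 1 * (Additive.toMul x).1 * (π 1)⁻¹ = (Additive.toMul x).1
        rw [map_one, one_mul, inv_one, mul_one]
      map_mul' := by
        intro g h
        apply LinearMap.ext
        intro x
        apply Additive.toMul.injective
        apply Subtype.ext
        show π (g * h) * (Additive.toMul x).1 * (π (g * h))⁻¹ =
          π g * (π h * (Additive.toMul x).1 * (π h)⁻¹) * (π g)⁻¹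
        rw [map_mul]
        group }
  have hρ : ∀ g (x : W), (Additive.toMul (ρ g x)).1 = π g * (Additive.toMul x).1 * (π g)⁻¹ :=
    fun _ _ => rfl
  have hfr : finrank (ZMod 11) W = k := by
    have h1 : Nat.card W = Nat.card (ZMod 11) ^ finrank (ZMod 11) W :=
      Module.natCard_eq_pow_finrank
    have h2 : Nat.card W = 11 ^ k := hk
    rw [h2, Nat.card_zmod] at h1
    exact (Nat.pow_right_injective (le_refl 11 |>.trans' (by norm_num)) h1).symm
  have hk3 : k ≤ 2 := by
    by_contra hlt
    have : 11 ^ 3 ≤ 11 ^ k := Nat.pow_le_pow_right (by norm_num) (by omega)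
    omega
  have hntW : Nontrivial W := Module.nontrivial_of_finrank_pos (R := ZMod 11) (by omega)
  have hirr : Irr ρ Set.univ := by
    intro U hU
    let M : Subgroup G :=
      { carrier := {n | ∃ h : n ∈ N, (Additive.ofMul (⟨π n, mk_mem_bar h⟩ : bar N) : W) ∈ U}
        mul_mem' := by
          rintro a b ⟨ha, ha'⟩ ⟨hb, hb'⟩
          refine ⟨N.mul_mem ha hb, ?_⟩
          have h0 := U.add_mem ha' hb'
          convert h0 using 1
          apply Additive.toMul.injective
          apply Subtype.ext
          exact map_mul π a b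
        one_mem' := by
          refine ⟨N.one_mem, ?_⟩
          have h0 := U.zero_mem
          convert h0 using 1
          apply Additive.toMul.injective
          apply Subtype.ext
          exact map_one π
        inv_mem' := by
          rintro a ⟨ha, ha'⟩
          refine ⟨N.inv_mem ha, ?_⟩
          have h0 := U.neg_mem ha'
          convert h0 using 1
          apply Additive.toMul.injective
          apply Subtype.ext
          exact map_inv π a }
    have hMn : M.Normal := by
      refine ⟨?_⟩
      rintro n ⟨hn1, hn2⟩ g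
      refine ⟨hn.conj_mem n hn1 g, ?_⟩
      have h1 := hU (ρ g) ⟨g, Set.mem_univ _, rfl⟩ _ hn2
      convert h1 using 1
      apply Additive.toMul.injective
      apply Subtype.ext
      show π (g * n * g⁻¹) = π g * π n * (π g)⁻¹
      rw [map_mul, map_mul, map_inv]
    have hMN : M ≤ N := fun n hn => hn.1
    rcases lt_or_eq_of_le hMN with h | h
    · left
      have h1 := hN.min M hMn h
      rw [Submodule.eq_bot_iff]
      intro x hx
      obtain ⟨n, hn1, hn2⟩ := (Additive.toMul x).2
      have h2 : n ∈ M := by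
        refine ⟨hn1, ?_⟩
        have h3 : (Additive.ofMul (⟨π n, mk_mem_bar hn1⟩ : bar N) : W) = x := by
          apply Additive.toMul.injective
          apply Subtype.ext
          exact hn2
        rw [h3]
        exact hx
      have h3 := (mk_eq_one_iff n).mpr (h1 h2)
      apply Additive.toMul.injective
      apply Subtype.ext
      rw [← hn2]
      exact h3
    · right
      rw [Submodule.eq_top_iff']
      intro x
      obtain ⟨n, hn1, hn2⟩ := (Additive.toMul x).2
      have h2 : n ∈ M := by rw [h]; exact hn1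
      obtain ⟨h3, h4⟩ := h2
      have h5 : (Additive.ofMul (⟨π n, mk_mem_bar h3⟩ : bar N) : W) = x := by
        apply Additive.toMul.injective
        apply Subtype.ext
        exact hn2
      rw [h5] at h4
      exact h4
  have hcomm : ∀ g h : G, ρ g * ρ h = ρ h * ρ g := by
    refine comm_of_small' ρ Y hYtop hirr (by omega) ?_
    intro y hy g
    have h1 : ρ (y ^ 11) = 1 := by
      apply LinearMap.ext
      intro x
      apply Additive.toMul.injective
      apply Subtype.ext
      rw [hρ, (mk_eq_one_iff _).mpr (hY y hy), one_mul, inv_one, mul_one]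
      rfl
    rw [h1, one_mul, mul_one]
  have hone : ∀ y ∈ Y, ρ y = 1 := by
    intro y hy
    have hstab : Stab (ρ '' Set.univ) (LinearMap.ker (ρ y - 1)) := by
      rintro _ ⟨g, -, rfl⟩ x hx
      rw [LinearMap.mem_ker, LinearMap.sub_apply, sub_eq_zero] at hx ⊢
      rw [← Module.End.mul_apply, hcomm, Module.End.mul_apply, hx]
      rfl
    rcases hirr _ hstab with h | h
    · exfalso
      let f : Function.End W := fun x => ρ y x
      have hf : ∀ (m : ℕ) (x : W), (f ^ m) x = (ρ y ^ m) x := by
        intro m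
        induction m with
        | zero => intro x; rfl
        | succ m ih =>
          intro x
          rw [pow_succ', pow_succ']
          show ρ y ((f ^ m) x) = ρ y ((ρ y ^ m) x)
          rw [ih]
      have hf11 : f ^ 11 ^ 1 = 1 := by
        funext x
        rw [hf, pow_one, ← map_pow]
        apply Additive.toMul.injective
        apply Subtype.ext
        rw [hρ, (mk_eq_one_iff _).mpr (hY y hy), one_mul, inv_one, mul_one]
        rfl
      have : Fintype W := Fintype.ofFinite _
      have h1 := Equiv.Perm.card_fixedPoints_modEq hf11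
      have h2 : Fintype.card (Function.fixedPoints f) = 1 := by
        rw [Fintype.card_eq_one_iff]
        refine ⟨⟨0, map_zero (ρ y)⟩, ?_⟩
        rintro ⟨x, hx⟩
        apply Subtype.ext
        have h3 : x ∈ LinearMap.ker (ρ y - 1) := by
          rw [LinearMap.mem_ker, LinearMap.sub_apply, sub_eq_zero]
          exact hx
        rw [h] at h3
        exact h3
      rw [h2, ← Nat.card_eq_fintype_card] at h1
      have h3 : Nat.card W = 11 ^ k := hk
      rw [h3] at h1
      have h4 : 11 ∣ 11 ^ k := dvd_pow_self 11 (by omega)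
      have h5 := (Nat.modEq_zero_iff_dvd.mpr h4).symm.trans h1
      exact absurd h5 (by decide)
    · apply LinearMap.ext
      intro x
      have h1 : x ∈ LinearMap.ker (ρ y - 1) := by rw [h]; exact Submodule.mem_top
      rw [LinearMap.mem_ker, LinearMap.sub_apply, sub_eq_zero] at h1
      exact h1
  have hall : ∀ g : G, ρ g = 1 := by
    have h1 : Subgroup.closure Y ≤ ρ.ker := by
      rw [Subgroup.closure_le]
      intro y hy
      exact hone y hy
    intro g
    exact h1 (by rw [hYtop]; exact Subgroup.mem_top g)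
  obtain ⟨x, hx⟩ := exists_ne (0 : W)
  rcases hirr (Submodule.span (ZMod 11) {x}) (by
      rintro _ ⟨g, -, rfl⟩ w hw
      rw [hall g]
      exact hw) with h | h
  · rw [Submodule.span_singleton_eq_bot] at h
    exact hx h
  · have h1 := finrank_span_le_card (R := ZMod 11) ({x} : Set W)
    rw [h, finrank_top, hfr, Set.toFinset_singleton, Finset.card_singleton] at h1
    omega

end eleven

section reps

variable {F : Type u} [Field F] {V : Type v} [AddCommGroup V] [Module F V]
  {G : Type w} [Group G]

/-- restriction of a representation to a stable subspace -/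
def resRep (ρ : G →* Module.End F V) (U : Submodule F V) (hU : ∀ g, ∀ x ∈ U, ρ g x ∈ U) :
    G →* Module.End F U where
  toFun g := (ρ g).restrict (hU g)
  map_one' := by
    ext x
    show ρ 1 x.1 = x.1
    rw [map_one]
    rfl
  map_mul' := by
    intro g h
    ext x
    show ρ (g * h) x.1 = ρ g (ρ h x.1)
    rw [map_mul]
    rfl

/-- the quotient representation -/
def quoRep (ρ : G →* Module.End F V) (U : Submodule F V) (hU : ∀ g, ∀ x ∈ U, ρ g x ∈ U) :
    G →* Module.End F (V ⧸ U) where
  toFun g := U.mapQ U (ρ g) (hU g)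
  map_one' := by
    ext x
    show U.mkQ (ρ 1 x) = U.mkQ x
    rw [map_one]
    rfl
  map_mul' := by
    intro g h
    ext x
    show U.mkQ (ρ (g * h) x) = U.mkQ (ρ g (ρ h x))
    rw [map_mul]
    rfl

theorem stab_iff {ρ : G →* Module.End F V} {U : Submodule F V} :
    Stab (ρ '' Set.univ) U ↔ ∀ g, ∀ x ∈ U, ρ g x ∈ U := by
  constructor
  · intro h g x hx
    exact h _ ⟨g, Set.mem_univ _, rfl⟩ x hx
  · rintro h _ ⟨g, -, rfl⟩ x hx
    exact h g x hx

/-- a common eigenvector in small degree -/
theorem exists_line [FiniteDimensional F V] [Nontrivial V] [Finite G] [Group.IsSolvable G]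
    (ρ : G →* Module.End F V) (hdim : finrank F V ≤ 10) {η : F} (h1 : η ^ 11 = 1) (h2 : η ≠ 1)
    (Y : Set G) (hYtop : Subgroup.closure Y = ⊤)
    (hY : ∀ y ∈ Y, ∃ μ : F, μ ≠ 0 ∧ ρ y ^ 11 = μ ^ 11 • 1) :
    ∃ x : V, x ≠ 0 ∧ ∀ g, ∃ c : F, ρ g x = c • x := by
  obtain ⟨S, -, hS, hst, hmin⟩ := exists_min_stable (ρ '' Set.univ) ⊤ top_ne_bot
    (fun _ _ _ _ => Submodule.mem_top)
  have hst' := stab_iff.mp hst
  have hntS : Nontrivial S := Submodule.nontrivial_iff_ne_bot.mpr hS
  let σ : G →* Module.End F S := resRep ρ S hst'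
  have hσ : ∀ g (x : S), (σ g x : V) = ρ g x := fun _ _ => rfl
  have hirr : Irr σ Set.univ := by
    intro U hU
    rw [stab_iff] at hU
    by_cases h0 : U = ⊥
    · exact Or.inl h0
    · right
      have h3 := hmin (U.map S.subtype) (Submodule.map_subtype_le S U) (by
        intro h
        apply h0
        rw [Submodule.eq_bot_iff]
        intro x hx
        have h4 : S.subtype x ∈ Submodule.map S.subtype U := Submodule.mem_map_of_mem hx
        rw [h] at h4
        exact Subtype.ext h4) (by
        rintro _ ⟨g, -, rfl⟩ _ ⟨x, hx, rfl⟩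
        exact ⟨σ g x, hU g x hx, rfl⟩)
      rw [Submodule.eq_top_iff']
      intro x
      have h4 : x.1 ∈ U.map S.subtype := by rw [h3]; exact x.2
      obtain ⟨x', hx', hx''⟩ := h4
      have : x' = x := Subtype.ext hx''
      rw [← this]
      exact hx'
  have hpow : ∀ (g : G) (m : ℕ) (x : S), ((σ g ^ m) x : V) = (ρ g ^ m) x := by
    intro g m
    induction m with
    | zero => intro x; rfl
    | succ m ih =>
      intro x
      rw [pow_succ', pow_succ', Module.End.mul_apply, Module.End.mul_apply, hσ, ih]
  have hYσ : ∀ y ∈ Y, ∃ μ : F, μ ≠ 0 ∧ σ y ^ 11 = μ ^ 11 • 1 := by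
    intro y hy
    obtain ⟨μ, hμ, h3⟩ := hY y hy
    refine ⟨μ, hμ, ?_⟩
    ext x
    rw [hpow, h3]
    rfl
  have hcomm : ∀ g h : G, σ g * σ h = σ h * σ g := by
    refine comm_of_small' σ Y hYtop hirr ((Submodule.finrank_le S).trans hdim) ?_
    intro y hy g
    obtain ⟨μ, -, h3⟩ := hYσ y hy
    rw [map_pow, h3, smul_mul_assoc, mul_smul_comm, mul_one, one_mul]
  have hscal : ∀ y ∈ Y, ∃ c : F, c ≠ 0 ∧ σ y = c • 1 := by
    intro y hy
    obtain ⟨μ, hμ, h3⟩ := hYσ y hy
    let T : Module.End F S := μ⁻¹ • σ y
    have hT : T ^ 11 = 1 := by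
      show (μ⁻¹ • σ y) ^ 11 = 1
      rw [_root_.smul_pow, h3, smul_smul, ← mul_pow, inv_mul_cancel₀ hμ, one_pow, one_smul]
    obtain ⟨v, hv⟩ := exists_ne (0 : S)
    obtain ⟨k, hk⟩ := P_exists (T := T) h1 h2 hv
    have h4 := P_eig hT h1 k v
    set w := P T η k v with hw
    have hη0 : η ≠ 0 := by
      rintro rfl
      rw [zero_pow (by norm_num)] at h1
      exact zero_ne_one h1
    let c : F := μ * (η ^ k)⁻¹
    have hc0 : c ≠ 0 := mul_ne_zero hμ (inv_ne_zero (pow_ne_zero _ hη0))
    have h5 : σ y w = c • w := by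
      conv_rhs => rw [← h4]
      show σ y w = (μ * (η ^ k)⁻¹) • (η ^ k • (μ⁻¹ • σ y w))
      rw [smul_smul, smul_smul]
      have h6 : μ * (η ^ k)⁻¹ * η ^ k * μ⁻¹ = 1 := by
        rw [mul_assoc μ, inv_mul_cancel₀ (pow_ne_zero k hη0), mul_one, mul_inv_cancel₀ hμ]
      rw [h6, one_smul]
    have hstab : Stab (σ '' Set.univ) (LinearMap.ker (σ y - c • 1)) := by
      rintro _ ⟨g, -, rfl⟩ x hx
      rw [LinearMap.mem_ker, LinearMap.sub_apply, sub_eq_zero] at hx ⊢
      rw [← Module.End.mul_apply, hcomm, Module.End.mul_apply, hx]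
      simp
    refine ⟨c, hc0, ?_⟩
    rcases hirr _ hstab with h | h
    · exfalso
      apply hk
      have h6 : w ∈ LinearMap.ker (σ y - c • 1) := by
        rw [LinearMap.mem_ker, LinearMap.sub_apply, sub_eq_zero, h5]
        simp
      rw [h] at h6
      exact h6
    · ext1 x
      have h6 : x ∈ LinearMap.ker (σ y - c • 1) := by rw [h]; exact Submodule.mem_top
      rw [LinearMap.mem_ker, LinearMap.sub_apply, sub_eq_zero] at h6
      exact h6
  let Sc : Subgroup G :=
    { carrier := {g | ∃ c : F, c ≠ 0 ∧ σ g = c • 1}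
      mul_mem' := by
        rintro a b ⟨c, hc, h3⟩ ⟨d, hd, h4⟩
        refine ⟨c * d, mul_ne_zero hc hd, ?_⟩
        rw [map_mul, h3, h4, smul_mul_assoc, one_mul, smul_smul]
      one_mem' := ⟨1, one_ne_zero, by rw [map_one, one_smul]⟩
      inv_mem' := by
        rintro a ⟨c, hc, h3⟩
        refine ⟨c⁻¹, inv_ne_zero hc, ?_⟩
        have h4 : σ a⁻¹ * σ a = 1 := by rw [← map_mul, inv_mul_cancel, map_one]
        rw [h3, mul_smul_comm, mul_one] at h4
        rw [← h4, smul_smul, inv_mul_cancel₀ hc, one_smul] }
  have hSc : Subgroup.closure Y ≤ Sc := by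
    rw [Subgroup.closure_le]
    exact hscal
  obtain ⟨x, hx⟩ := exists_ne (0 : S)
  refine ⟨x.1, fun h => hx (Subtype.ext h), ?_⟩
  intro g
  obtain ⟨c, -, h3⟩ := hSc (by rw [hYtop]; exact Subgroup.mem_top g)
  refine ⟨c, ?_⟩
  rw [← hσ, h3]
  rfl

end reps

end Pool.Agent.K4H75.PG
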