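import Pool.Agent.K4H75.PG.Singer

set_option autoImplicit false

/-! Powers of elements of the normaliser of the Singer cycle. -/

namespace Pool.Agent.K4H75.PG

open Module Polynomial

universe u v

variable {F : Type u} [Field F] {K : Type v} [Field K] [Algebra F K]
  [Finite F] [FiniteDimensional F K]

theorem card_gal [Finite K] (hK : finrank F K = 11) : Nat.card (K ≃ₐ[F] K) = 11 := by
  rw [IsGalois.card_aut_eq_finrank, hK]

theorem gal_pow [Finite K] (hK : finrank F K = 11) (τ : K ≃ₐ[F] K) : τ ^ 11 = 1 := by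
  rw [← card_gal hK]
  exact pow_card_eq_one'

theorem fixed_of_ne_one [Finite K] (hK : finrank F K = 11) {τ : K ≃ₐ[F] K} (hτ : τ ≠ 1) {x : K}
    (hx : τ x = x) : ∃ a : F, algebraMap F K a = x := by
  let S : Subgroup (K ≃ₐ[F] K) :=
    { carrier := {g | g x = x}
      mul_mem' := by
        intro g h hg hh
        show g (h x) = x
        rw [show h x = x from hh]
        exact hg
      one_mem' := rfl
      inv_mem' := by
        intro g hg
        show g⁻¹ x = x
        have h1 : g x = x := hg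
        conv_lhs => rw [← h1]
        exact g.symm_apply_apply x }
  have : Fact (Nat.Prime (Nat.card (K ≃ₐ[F] K))) := ⟨by rw [card_gal hK]; norm_num⟩
  rcases S.eq_bot_or_eq_top_of_prime_card with h | h
  · exfalso
    apply hτ
    have h1 : τ ∈ S := hx
    rw [h, Subgroup.mem_bot] at h1
    exact h1
  · have h1 : x ∈ (⊥ : IntermediateField F K) := by
      rw [IsGalois.mem_bot_iff_fixed]
      intro f
      have h2 : f ∈ S := by rw [h]; exact Subgroup.mem_top f
      exact h2
    rw [IntermediateField.mem_bot] at h1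
    exact h1

theorem exists_kummer [Finite K] (hK : finrank F K = 11) {η : F} (h1 : η ^ 11 = 1) (h2 : η ≠ 1)
    {τ : K ≃ₐ[F] K} (hτ : τ ≠ 1) :
    ∃ (β : K) (θ : F), β ≠ 0 ∧ θ ^ 11 = 1 ∧ θ ≠ 1 ∧ τ β = algebraMap F K θ * β := by
  let T : Module.End F K := τ.toLinearMap
  have hTn : ∀ (n : ℕ) (v : K), (T ^ n) v = (τ ^ n) v := by
    intro n
    induction n with
    | zero => intro v; rfl
    | succ n ih =>
      intro v
      rw [pow_succ', pow_succ', Module.End.mul_apply, ih]
      rfl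
  have hT : T ^ 11 = 1 := by
    ext v
    rw [hTn, gal_pow hK]
    rfl
  obtain ⟨v, hv⟩ : ∃ v, τ v ≠ v := by
    by_contra hcon
    push Not at hcon
    exact hτ (AlgEquiv.ext hcon)
  obtain ⟨k, hk1, hk2, hP⟩ := P_ne_zero hT h1 h2 (v := v) hv
  have heig := P_eig hT h1 k v
  set w := P T η k v with hw
  have hη0 : η ≠ 0 := by
    rintro rfl
    rw [zero_pow (by norm_num)] at h1
    exact zero_ne_one h1
  refine ⟨w, (η ^ k)⁻¹, hP, ?_, ?_, ?_⟩
  · rw [inv_pow, ← pow_mul, mul_comm, pow_mul, h1, one_pow, inv_one]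
  · rw [Ne, inv_eq_one]
    intro h
    have := root_pow_inj h1 h2 hk2 (by norm_num : 0 < 11) (by rw [h, pow_zero])
    omega
  · have h3 : η ^ k • τ w = w := heig
    conv_rhs => rw [← h3]
    rw [← Algebra.smul_def, smul_smul, inv_mul_cancel₀ (pow_ne_zero k hη0), one_smul]

theorem IsM_of_ne_one [Finite K] (hK : finrank F K = 11) {η : F} (h1 : η ^ 11 = 1) (h2 : η ≠ 1)
    {τ : K ≃ₐ[F] K} (hτ : τ ≠ 1) {g : (Module.End F K)ˣ} {c : K} (hg : ∀ v, g.val v = c * τ v) :
    IsM g := by
  obtain ⟨β, θ, hβ, hθ1, hθ2, hτβ⟩ := exists_kummer hK h1 h2 hτ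
  have hθ0 : θ ≠ 0 := by
    rintro rfl
    rw [zero_pow (by norm_num)] at hθ1
    exact zero_ne_one hθ1
  refine ⟨mu β hβ, θ⁻¹, by rw [inv_pow, hθ1, inv_one], by rw [Ne, inv_eq_one]; exact hθ2, ?_⟩
  apply LinearMap.ext
  intro v
  rw [Module.End.mul_apply, mu_apply, LinearMap.smul_apply, Module.End.mul_apply, mu_apply, hg, hg,
    map_mul, hτβ, Algebra.smul_def, map_inv₀]
  have h3 : algebraMap F K θ ≠ 0 := by
    rw [Ne, map_eq_zero]
    exact hθ0
  field_simp

/-- a field automorphism as a linear unit -/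
def galUnit (τ : K ≃ₐ[F] K) : (Module.End F K)ˣ where
  val := τ.toLinearMap
  inv := τ.symm.toLinearMap
  val_inv := by
    ext v
    exact τ.apply_symm_apply v
  inv_val := by
    ext v
    exact τ.symm_apply_apply v

theorem galUnit_apply (τ : K ≃ₐ[F] K) (v : K) : (galUnit τ).val v = τ v := rfl

theorem exists_gal [Finite K] (hK : finrank F K = 11) : ∃ τ : K ≃ₐ[F] K, τ ≠ 1 := by
  have h1 : 1 < Nat.card (K ≃ₐ[F] K) := by rw [card_gal hK]; norm_num
  have : Nontrivial (K ≃ₐ[F] K) := Finite.one_lt_card_iff_nontrivial.mp h1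
  exact exists_ne 1

theorem IsM_of_eleven [Finite K] (hK : finrank F K = 11) {η : F} (h1 : η ^ 11 = 1) (h2 : η ≠ 1)
    {α : K} (hα : ∀ a : F, algebraMap F K a ≠ α) (h11 : ∃ a : F, algebraMap F K a = α ^ 11)
    {g : (Module.End F K)ˣ} (hg : ∀ v, g.val v = α * v) : IsM g := by
  obtain ⟨τ, hτ⟩ := exists_gal hK
  have hα0 : α ≠ 0 := by
    rintro rfl
    exact hα 0 (map_zero _)
  obtain ⟨a, ha⟩ := h11
  set θ := τ α / α with hθ
  have hθ1 : θ ^ 11 = 1 := by
    rw [hθ, div_pow, ← map_pow, ← ha, AlgEquiv.commutes, ha, div_self (pow_ne_zero _ hα0)]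
  have hθ2 : θ ≠ 1 := by
    intro h
    rw [hθ, div_eq_one_iff_eq hα0] at h
    obtain ⟨b, hb⟩ := fixed_of_ne_one hK hτ h
    exact hα b hb
  have hprim : IsPrimitiveRoot (algebraMap F K η) 11 := by
    have : Fact (Nat.Prime 11) := ⟨by norm_num⟩
    have h3 : (algebraMap F K η) ^ 11 = 1 := by rw [← map_pow, h1, map_one]
    have h4 : algebraMap F K η ≠ 1 := by
      intro h
      rw [← map_one (algebraMap F K)] at h
      exact h2 ((algebraMap F K).injective h)
    have h5 := orderOf_eq_prime h3 h4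
    have h6 := IsPrimitiveRoot.orderOf (algebraMap F K η)
    rwa [h5] at h6
  obtain ⟨i, hi, hi'⟩ := hprim.eq_pow_of_pow_eq_one hθ1
  refine ⟨galUnit τ, η ^ i, by rw [← pow_mul, mul_comm, pow_mul, h1, one_pow], ?_, ?_⟩
  · intro h
    apply hθ2
    rw [← hi', ← map_pow, h, map_one]
  · apply LinearMap.ext
    intro v
    rw [Module.End.mul_apply, LinearMap.smul_apply, Module.End.mul_apply, galUnit_apply,
      galUnit_apply, hg, hg, map_mul, Algebra.smul_def, map_pow, hi', hθ]
    field_simp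

theorem prime_mod [Finite K] (hK : finrank F K = 11) {α : K}
    (hα : ∀ a : F, algebraMap F K a ≠ α) {s : ℕ} (hs : s.Prime) (hs11 : s ≠ 11)
    (hαs : ∃ a : F, algebraMap F K a = α ^ s) : s % 11 = 1 := by
  have : Fintype F := Fintype.ofFinite F
  have : Fact s.Prime := ⟨hs⟩
  have : Fact (Nat.Prime 11) := ⟨by norm_num⟩
  set q := Fintype.card F with hq
  have hq2 : 2 ≤ q := Fintype.one_lt_card
  have hα0 : α ≠ 0 := by
    rintro rfl
    exact hα 0 (map_zero _)
  obtain ⟨a, ha⟩ := hαs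
  let τ : K ≃ₐ[F] K := FiniteField.frobeniusAlgEquivOfAlgebraic F K
  have hτv : ∀ v, τ v = v ^ q := fun v => rfl
  have hτ1 : τ ≠ 1 := by
    intro h
    have h3 := FiniteField.orderOf_frobeniusAlgEquivOfAlgebraic F K
    change orderOf τ = _ at h3
    rw [h, orderOf_one, hK] at h3
    omega
  set θ := τ α / α with hθ
  have hθs : θ ^ s = 1 := by
    rw [hθ, div_pow, ← map_pow, ← ha, AlgEquiv.commutes, ha, div_self (pow_ne_zero _ hα0)]
  have hθ1 : θ ≠ 1 := by
    intro h
    rw [hθ, div_eq_one_iff_eq hα0] at h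
    obtain ⟨b, hb⟩ := fixed_of_ne_one hK hτ1 h
    exact hα b hb
  have hord : orderOf θ = s := orderOf_eq_prime hθs hθ1
  have hθ0 : θ ≠ 0 := by
    intro h
    rw [h, zero_pow hs.ne_zero] at hθs
    exact zero_ne_one hθs
  have hcardK : Nat.card K = q ^ 11 := by
    rw [Module.natCard_eq_pow_finrank (K := F), hK, Nat.card_eq_fintype_card]
  have hdvd : s ∣ q ^ 11 - 1 := by
    rw [← hord]
    apply orderOf_dvd_of_pow_eq_one
    have : Fintype K := Fintype.ofFinite K
    have h3 := FiniteField.pow_card_sub_one_eq_one θ hθ0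
    rwa [← Nat.card_eq_fintype_card, hcardK] at h3
  have hndvd : ¬ s ∣ q - 1 := by
    intro h
    have h3 : θ ^ q = θ := by
      obtain ⟨m, hm⟩ := h
      have h4 : q = (q - 1) + 1 := by omega
      rw [h4, pow_succ, hm, pow_mul, hθs, one_pow, one_mul]
    obtain ⟨t, ht⟩ := fixed_of_ne_one hK hτ1 (x := θ) (by rw [hτv, h3])
    have h5 : ∀ n : ℕ, (τ ^ n) α = θ ^ n * α := by
      intro n
      induction n with
      | zero => rw [pow_zero, pow_zero, one_mul]; rfl
      | succ n ih =>
        rw [pow_succ']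
        show τ ((τ ^ n) α) = _
        rw [ih, map_mul, map_pow, hτv θ, h3, pow_succ, mul_assoc]
        congr 1
        rw [hθ]
        field_simp
    have h6 := h5 11
    rw [gal_pow hK] at h6
    have h7 : θ ^ 11 = 1 := by
      have h8 : α = θ ^ 11 * α := h6
      have h9 : (θ ^ 11 - 1) * α = 0 := by rw [sub_mul, ← h8, one_mul, sub_self]
      rcases mul_eq_zero.mp h9 with h10 | h10
      · exact sub_eq_zero.mp h10
      · exact absurd h10 hα0
    have h8 := orderOf_dvd_of_pow_eq_one h7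
    rw [hord] at h8
    exact hs11 ((Nat.prime_dvd_prime_iff_eq hs (by norm_num)).mp h8)
  -- the order of q modulo s
  have hq1 : ((q : ℕ) : ZMod s) ^ 11 = 1 := by
    have h3 : ((q ^ 11 - 1 : ℕ) : ZMod s) = 0 := (ZMod.natCast_eq_zero_iff _ _).mpr hdvd
    rw [Nat.cast_sub (Nat.one_le_pow _ _ (by omega)), Nat.cast_pow, Nat.cast_one,
      sub_eq_zero] at h3
    exact h3
  have hq1' : ((q : ℕ) : ZMod s) ≠ 1 := by
    intro h
    apply hndvd
    rw [← ZMod.natCast_eq_zero_iff, Nat.cast_sub (by omega), h, Nat.cast_one, sub_self]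
  have hq0 : ((q : ℕ) : ZMod s) ≠ 0 := by
    intro h
    rw [h, zero_pow (by norm_num)] at hq1
    exact zero_ne_one hq1
  have h11 := orderOf_eq_prime hq1 hq1'
  have h12 := ZMod.orderOf_dvd_card_sub_one hq0
  rw [h11] at h12
  have := hs.two_le
  omega

theorem mult_pow {g : (Module.End F K)ˣ} {c : K} (hg : ∀ v, g.val v = c * v) (m : ℕ) :
    ∀ v, (g ^ m).val v = c ^ m * v := by
  induction m with
  | zero => intro v; rw [pow_zero, pow_zero, one_mul]; rfl
  | succ m ih =>
    intro v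
    rw [pow_succ']
    show g.val ((g ^ m).val v) = _
    rw [ih, hg, pow_succ', mul_assoc]

theorem exists_power [Finite K] (hK : finrank F K = 11) {η : F} (h1 : η ^ 11 = 1) (h2 : η ≠ 1)
    {g : (Module.End F K)ˣ} (hg : SL g) (hns : NS g) :
    ∃ m : ℕ, NS (g ^ m) ∧ (TL (g ^ m) ∨ IsM (g ^ m)) := by
  classical
  obtain ⟨τ, c, hc0, hv⟩ := hg
  by_cases hτ : τ = 1
  · subst hτ
    have hv' : ∀ v, g.val v = c * v := hv
    have hcF : ∀ a : F, algebraMap F K a ≠ c := by
      intro a ha
      apply hns a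
      apply LinearMap.ext
      intro v
      rw [hv', ← ha, ← Algebra.smul_def]
      rfl
    have hex : ∃ d, 0 < d ∧ ∃ a : F, algebraMap F K a = c ^ d := by
      have : Fintype K := Fintype.ofFinite K
      have h3 := FiniteField.pow_card_sub_one_eq_one c hc0
      have h4 : 1 < Fintype.card K := Fintype.one_lt_card
      exact ⟨Fintype.card K - 1, by omega, 1, by rw [map_one, h3]⟩
    set d := Nat.find hex with hd
    obtain ⟨hd0, a, ha⟩ := Nat.find_spec hex
    rw [← hd] at hd0 ha
    have hd1 : d ≠ 1 := by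
      intro h
      rw [h, pow_one] at ha
      exact hcF a ha
    set s := d.minFac with hs
    have hsp : s.Prime := Nat.minFac_prime hd1
    obtain ⟨m, hm⟩ : s ∣ d := Nat.minFac_dvd d
    have hs2 := hsp.two_le
    have hm0 : 0 < m := by
      rcases Nat.eq_zero_or_pos m with h | h
      · rw [h, mul_zero] at hm
        omega
      · exact h
    have hmd : m < d := by
      rw [hm]
      calc m = 1 * m := (one_mul m).symm
        _ < s * m := Nat.mul_lt_mul_of_pos_right (by omega) hm0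
    have hcm : ∀ a : F, algebraMap F K a ≠ c ^ m := by
      intro a ha
      exact Nat.find_min hex hmd ⟨hm0, a, ha⟩
    have hcms : ∃ a : F, algebraMap F K a = (c ^ m) ^ s :=
      ⟨a, by rw [ha, ← pow_mul, hm, mul_comm]⟩
    have hgm := mult_pow hv' m
    refine ⟨m, ?_, ?_⟩
    · intro e he
      apply hcm e
      have h3 := LinearMap.congr_fun he 1
      rw [hgm, mul_one] at h3
      rw [h3, Algebra.algebraMap_eq_smul_one]
      rfl
    · by_cases hs11 : s = 11
      · right
        rw [hs11] at hcms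
        exact IsM_of_eleven hK h1 h2 hcm hcms hgm
      · left
        exact ⟨c ^ m, s, hcm, hsp, prime_mod hK hcm hsp hs11 hcms, hcms, hgm⟩
  · exact ⟨1, by rw [pow_one]; exact hns, Or.inr (by
      rw [pow_one]
      exact IsM_of_ne_one hK h1 h2 hτ hv)⟩

end Pool.Agent.K4H75.PG
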