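import Pool.Agent.K4H75.PG.Final

set_option autoImplicit false

/-! The quotient group: insoluble, not simple, no short path. -/

namespace Pool.Agent.K4H75.PG

open Module

variable {F : Type} [Field F] {K : Type} [Field K] [Algebra F K]
  [Finite F] [FiniteDimensional F K] [Finite K]

/-- chains of nontrivial elements, consecutive ones generating soluble groups -/
def Link {P : Type} [Group P] (a b : P) : Prop := a ≠ 1 ∧ b ≠ 1 ∧ SolPair a b

theorem Link.symm {P : Type} [Group P] {a b : P} (h : Link a b) : Link b a :=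
  ⟨h.2.1, h.1, solPair_symm h.2.2⟩

theorem chain_symm {P : Type} [Group P] {a b : P} (h : Relation.ReflTransGen Link a b) :
    Relation.ReflTransGen Link b a := by
  induction h with
  | refl => exact Relation.ReflTransGen.refl
  | tail _ hbc ih => exact Relation.ReflTransGen.head hbc.symm ih

theorem chain_conj {P : Type} [Group P] {a b : P} (h : Relation.ReflTransGen Link a b) (σ : P) :
    Relation.ReflTransGen Link (σ * a * σ⁻¹) (σ * b * σ⁻¹) := by
  have hn : ∀ c : P, c ≠ 1 → σ * c * σ⁻¹ ≠ 1 := by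
    intro c hc h
    apply hc
    rwa [conj_eq_one_iff] at h
  induction h with
  | refl => exact Relation.ReflTransGen.refl
  | tail _ hbc ih => exact ih.tail ⟨hn _ hbc.1, hn _ hbc.2.1, solPair_conj hbc.2.2 σ⟩

/-- everything about the quotient -/
theorem quotient_main (hK : finrank F K = 11) {η : F} (h1 : η ^ 11 = 1) (h2 : η ≠ 1)
    (h2F : (2 : F) ≠ 0) {σ : (Module.End F K)ˣ} (hσ : Good σ) {x : (Module.End F K)ˣ} (hx : TL x)
    {P : Type} [Group P] (ψ : (Module.End F K)ˣ →* P) (hsurj : Function.Surjective ψ)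
    (hker : ∀ g, ψ g = 1 ↔ ∃ c : F, g.val = c • 1) :
    ψ x ≠ 1 ∧ ψ (σ⁻¹ * x * σ) ≠ 1 ∧
    (∀ y z : P, y ≠ 1 → z ≠ 1 → SolPair (ψ x) y → SolPair y z →
      SolPair z (ψ (σ⁻¹ * x * σ)) → False) ∧
    Relation.ReflTransGen Link (ψ x) (ψ (σ⁻¹ * x * σ)) := by
  have hNS : ∀ g, ψ g ≠ 1 ↔ NS g := by
    intro g
    rw [Ne, hker]
    unfold NS
    push Not
    rfl
  have hcen : ∀ g, ψ g = 1 → ∀ h, g * h = h * g := by
    intro g hg h
    obtain ⟨c, hc⟩ := (hker g).mp hg
    apply Units.ext
    rw [Units.val_mul, Units.val_mul, hc, smul_mul_assoc, mul_smul_comm, one_mul, mul_one]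
  have hxNS : NS x := by
    obtain ⟨α, s, hα, -, -, -, hv⟩ := hx
    intro c hc
    apply hα c
    have e1 := LinearMap.congr_fun hc 1
    rw [hv, mul_one] at e1
    rw [e1, Algebra.algebraMap_eq_smul_one]
    rfl
  have hx1 : ψ x ≠ 1 := (hNS x).mpr hxNS
  have hx'1 : ψ (σ⁻¹ * x * σ) ≠ 1 := by
    intro h
    apply hx1
    rw [map_mul, map_mul, map_inv] at h
    have h3 : (ψ σ)⁻¹ * ψ x * ((ψ σ)⁻¹)⁻¹ = 1 := by rw [inv_inv]; exact h
    rwa [conj_eq_one_iff] at h3
  refine ⟨hx1, hx'1, ?_, ?_⟩
  · intro y z hy hz hxy hyz hzx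
    obtain ⟨y, rfl⟩ := hsurj y
    obtain ⟨z, rfl⟩ := hsurj z
    exact no_path hK h1 h2 hσ hx ((hNS y).mp hy) ((hNS z).mp hz) (solPair_lift ψ hcen hxy)
      (solPair_lift ψ hcen hyz) (solPair_lift ψ hcen hzx)
  · obtain ⟨τ, hτ⟩ := exists_gal (F := F) hK
    obtain ⟨β, θ, hβ, hθ1, hθ2, hτβ⟩ := exists_kummer hK h1 h2 hτ
    obtain ⟨ι, hιNS, hιι, hιτ⟩ := exists_involution hK h1 h2 h2F hτ
    have hβNS : NS (mu (F := F) β hβ) := by
      intro c hc
      have e1 := LinearMap.congr_fun hc 1
      rw [mu_apply, mul_one] at e1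
      have e2 : β = algebraMap F K c := by
        rw [e1, Algebra.algebraMap_eq_smul_one]
        rfl
      apply hθ2
      rw [e2, AlgEquiv.commutes] at hτβ
      have e3 : algebraMap F K c ≠ 0 := by rw [← e2]; exact hβ
      have e4 : algebraMap F K θ = 1 := by
        have : algebraMap F K θ * algebraMap F K c = 1 * algebraMap F K c := by
          rw [one_mul]
          exact hτβ.symm
        exact mul_right_cancel₀ e3 this
      rw [← map_one (algebraMap F K)] at e4
      exact (algebraMap F K).injective e4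
    have hτNS : NS (galUnit τ) := by
      intro c hc
      have e1 := LinearMap.congr_fun hc 1
      rw [galUnit_apply, map_one, LinearMap.smul_apply, Module.End.one_apply] at e1
      apply hτ
      apply AlgEquiv.ext
      intro v
      have e2 := LinearMap.congr_fun hc v
      rw [galUnit_apply, LinearMap.smul_apply, Module.End.one_apply] at e2
      have e3 : c • v = v := by
        calc c • v = (c • (1 : K)) * v := by rw [smul_mul_assoc, one_mul]
          _ = v := by rw [← e1, one_mul]
      exact e2.trans e3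
    have s1 : Link (ψ x) (ψ (mu β hβ)) := by
      refine ⟨hx1, (hNS _).mpr hβNS, solPair_of_commute ?_⟩
      rw [← map_mul, ← map_mul]
      congr 1
      apply Units.ext
      apply LinearMap.ext
      intro v
      obtain ⟨α, s, -, -, -, -, hv⟩ := hx
      rw [Units.val_mul, Units.val_mul, Module.End.mul_apply, Module.End.mul_apply, mu_apply,
        mu_apply, hv, hv]
      ring
    have s2 : Link (ψ (mu β hβ)) (ψ (galUnit τ)) := by
      refine ⟨(hNS _).mpr hβNS, (hNS _).mpr hτNS, solPair_of_commute ?_⟩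
      rw [← map_mul, ← map_mul, ← mul_inv_eq_one, ← map_inv, ← map_mul, hker]
      have hθ0 : θ ≠ 0 := by
        rintro rfl
        rw [zero_pow (by norm_num)] at hθ1
        exact zero_ne_one hθ1
      refine ⟨θ⁻¹, ?_⟩
      have e1 : (galUnit τ * mu (F := F) β hβ).val = θ • (mu (F := F) β hβ * galUnit τ).val := by
        apply LinearMap.ext
        intro v
        rw [Units.val_mul, Module.End.mul_apply, mu_apply, galUnit_apply, map_mul, hτβ,
          LinearMap.smul_apply, Units.val_mul, Module.End.mul_apply, mu_apply, galUnit_apply,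
          Algebra.smul_def, mul_assoc]
      have e2 : (mu (F := F) β hβ * galUnit τ).val = θ⁻¹ • (galUnit τ * mu (F := F) β hβ).val := by
        rw [e1, smul_smul, inv_mul_cancel₀ hθ0, one_smul]
      rw [Units.val_mul, e2, smul_mul_assoc, ← Units.val_mul, mul_inv_cancel, Units.val_one]
    have s3 : Link (ψ (galUnit τ)) (ψ ι) := by
      refine ⟨(hNS _).mpr hτNS, (hNS _).mpr hιNS, solPair_of_commute ?_⟩
      rw [← map_mul, hιτ, map_mul]
    have c1 : Relation.ReflTransGen Link (ψ x) (ψ ι) :=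
      ((Relation.ReflTransGen.single s1).tail s2).tail s3
    have c2 := chain_conj c1 (ψ σ⁻¹)
    have hι1 : ψ ι ≠ 1 := (hNS _).mpr hιNS
    have hι2 : ψ σ⁻¹ * ψ ι * (ψ σ⁻¹)⁻¹ ≠ 1 := by
      intro h
      rw [conj_eq_one_iff] at h
      exact hι1 h
    have s4 : Link (ψ ι) (ψ σ⁻¹ * ψ ι * (ψ σ⁻¹)⁻¹) := by
      refine ⟨hι1, hι2, solPair_involutions ?_ ?_⟩
      · rw [← map_mul, hιι, map_one]
      · have : ψ ι * ψ ι = 1 := by rw [← map_mul, hιι, map_one]
        calc ψ σ⁻¹ * ψ ι * (ψ σ⁻¹)⁻¹ * (ψ σ⁻¹ * ψ ι * (ψ σ⁻¹)⁻¹) =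
            ψ σ⁻¹ * (ψ ι * ψ ι) * (ψ σ⁻¹)⁻¹ := by group
          _ = 1 := by rw [this, mul_one, mul_inv_cancel]
    have hend : ψ σ⁻¹ * ψ x * (ψ σ⁻¹)⁻¹ = ψ (σ⁻¹ * x * σ) := by
      rw [map_mul, map_mul, map_inv, inv_inv]
    rw [hend] at c2
    exact (c1.tail s4).trans (chain_symm c2)

/-- the determinant power character -/
theorem exists_normal (hK : finrank F K = 11) {x : (Module.End F K)ˣ} (hx : TL x)
    (hq : Nat.card F % 11 = 1) {P : Type} [Group P] (ψ : (Module.End F K)ˣ →* P)
    (hsurj : Function.Surjective ψ) (hker : ∀ g, ψ g = 1 ↔ ∃ c : F, g.val = c • 1) :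
    ∃ N : Subgroup P, N.Normal ∧ N ≠ ⊤ ∧ ψ (x ^ 11) ∈ N := by
  classical
  have : Fintype F := Fintype.ofFinite F
  obtain ⟨m, hm⟩ : ∃ m, Nat.card F = 11 * m + 1 := ⟨Nat.card F / 11, by omega⟩
  have hcard : Fintype.card F = 11 * m + 1 := by rw [← Nat.card_eq_fintype_card, hm]
  have hm0 : 0 < m := by
    rcases Nat.eq_zero_or_pos m with h | h
    · have := Fintype.one_lt_card (α := F)
      rw [hcard, h] at this
      omega
    · exact h
  let det : (Module.End F K)ˣ →* Fˣ := Units.map (LinearMap.det : Module.End F K →* F)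
  let χ : (Module.End F K)ˣ →* Fˣ := (powMonoidHom m).comp det
  have hχ : ∀ g, χ g = (det g) ^ m := fun _ => rfl
  have hunit : ∀ a : Fˣ, a ^ (11 * m) = 1 := by
    intro a
    have h1 : Fintype.card Fˣ = 11 * m := by
      rw [Fintype.card_units, hcard]
      omega
    rw [← h1]
    exact pow_card_eq_one
  have hscal : ∀ g : (Module.End F K)ˣ, (∃ c : F, g.val = c • 1) → χ g = 1 := by
    rintro g ⟨c, hc⟩
    have h1 : (det g : F) = c ^ 11 := by
      show LinearMap.det g.val = c ^ 11
      rw [hc, LinearMap.det_smul, hK, map_one, mul_one]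
    have hc0 : c ≠ 0 := by
      rintro rfl
      have h3 : (det g : F) = 0 := by rw [h1]; norm_num
      exact (det g).ne_zero h3
    have h2 : det g = (Units.mk0 c hc0) ^ 11 := Units.ext h1
    rw [hχ, h2, ← pow_mul]
    exact hunit _
  refine ⟨χ.ker.map ψ, Subgroup.Normal.map inferInstance ψ hsurj, ?_, ?_⟩
  · intro htop
    -- then `χ` is trivial
    have hall : ∀ g, χ g = 1 := by
      intro g
      have h1 : ψ g ∈ χ.ker.map ψ := by rw [htop]; exact Subgroup.mem_top _
      obtain ⟨k, hk, hk'⟩ := h1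
      have h2 : ψ (g * k⁻¹) = 1 := by rw [map_mul, map_inv, hk', mul_inv_cancel]
      have h3 := hscal _ ((hker _).mp h2)
      rw [map_mul, map_inv, (show χ k = 1 from hk), inv_one, mul_one] at h3
      exact h3
    obtain ⟨a, ha⟩ := IsCyclic.exists_generator (α := Fˣ)
    have hord : orderOf a = 11 * m := by
      rw [orderOf_eq_card_of_forall_mem_zpowers ha, Nat.card_eq_fintype_card, Fintype.card_units,
        hcard]
      omega
    have e : K ≃ₗ[F] (Fin 11 → F) := LinearEquiv.ofFinrankEq _ _ (by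
      rw [hK, Module.finrank_fintype_fun_eq_card, Fintype.card_fin])
    let D : Matrix (Fin 11) (Fin 11) F := Matrix.diagonal (Function.update 1 0 (a : F))
    have hD : D.det = a := by
      show (Matrix.diagonal (Function.update 1 0 (a : F))).det = a
      rw [Matrix.det_diagonal, Finset.prod_update_of_mem (Finset.mem_univ _)]
      simp
    let gD : Module.End F K := e.symm.conj (Matrix.toLin' D)
    have hgD : LinearMap.det gD = a := by
      show LinearMap.det (e.symm.conj (Matrix.toLin' D)) = a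
      rw [LinearEquiv.conj_apply, LinearMap.comp_assoc, LinearMap.det_conj, LinearMap.det_toLin',
        hD]
    have hu : IsUnit gD := by
      rw [LinearMap.isUnit_iff_isUnit_det, hgD]
      exact a.isUnit
    obtain ⟨g, hg⟩ := hu
    have h1 := hall g
    have h2 : det g = a := by
      apply Units.ext
      show LinearMap.det g.val = a
      rw [hg, hgD]
    rw [hχ, h2] at h1
    have h3 := orderOf_dvd_of_pow_eq_one h1
    rw [hord] at h3
    have := Nat.le_of_dvd hm0 h3
    omega
  · refine ⟨x ^ 11, ?_, rfl⟩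
    rw [SetLike.mem_coe, MonoidHom.mem_ker, hχ, map_pow, ← pow_mul]
    exact hunit _

end Pool.Agent.K4H75.PG
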