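import Pool.Agent.K4H75.PG.Cases

set_option autoImplicit false

/-! The Singer cycle and its normaliser. -/

namespace Pool.Agent.K4H75.PG

open Module Polynomial

universe u v

variable {F : Type u} [Field F] {K : Type v} [Field K] [Algebra F K]

/-- semilinear maps of `K` over `F` -/
def SL (g : (Module.End F K)ˣ) : Prop :=
  ∃ (τ : K ≃ₐ[F] K) (c : K), c ≠ 0 ∧ ∀ v, g.val v = c * τ v

/-- multiplication by a nonzero element -/
def mu (c : K) (hc : c ≠ 0) : (Module.End F K)ˣ where
  val := LinearMap.mulLeft F c
  inv := LinearMap.mulLeft F c⁻¹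
  val_inv := by
    ext v
    show c * (c⁻¹ * v) = v
    rw [← mul_assoc, mul_inv_cancel₀ hc, one_mul]
  inv_val := by
    ext v
    show c⁻¹ * (c * v) = v
    rw [← mul_assoc, inv_mul_cancel₀ hc, one_mul]

theorem mu_apply (c : K) (hc : c ≠ 0) (v : K) : (mu (F := F) c hc).val v = c * v := rfl

theorem mu_SL (c : K) (hc : c ≠ 0) : SL (mu (F := F) c hc) := ⟨AlgEquiv.refl, c, hc, fun _ => rfl⟩

theorem SL.mul {g h : (Module.End F K)ˣ} (hg : SL g) (hh : SL h) : SL (g * h) := by
  obtain ⟨τ, c, hc, h1⟩ := hg
  obtain ⟨σ, d, hd, h2⟩ := hh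
  refine ⟨σ.trans τ, c * τ d, mul_ne_zero hc (by simpa using hd), ?_⟩
  intro v
  show g.val (h.val v) = _
  rw [h2, h1, map_mul, mul_assoc]
  rfl

theorem SL.pow {g : (Module.End F K)ˣ} (hg : SL g) (n : ℕ) : SL (g ^ n) := by
  induction n with
  | zero => exact ⟨AlgEquiv.refl, 1, one_ne_zero, fun v => (one_mul v).symm⟩
  | succ n ih => rw [pow_succ]; exact ih.mul hg

section prime

variable [FiniteDimensional F K] (hK : finrank F K = 11)
include hK

theorem eq_aeval {α : K} (hα : ∀ a : F, algebraMap F K a ≠ α) (β : K) :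
    ∃ p : F[X], β = aeval α p := by
  have h11 : Nat.Prime (finrank F K) := by rw [hK]; norm_num
  have h1 := (IntermediateField.isSimpleOrder_of_finrank_prime F K h11).eq_bot_or_eq_top
    (IntermediateField.adjoin F {α})
  rcases h1 with h | h
  · exfalso
    have h2 : α ∈ IntermediateField.adjoin F {α} := IntermediateField.mem_adjoin_simple_self F α
    rw [h, IntermediateField.mem_bot] at h2
    obtain ⟨a, ha⟩ := h2
    exact hα a ha
  · have h2 : β ∈ IntermediateField.adjoin F {α} := by rw [h]; exact IntermediateField.mem_top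
    have hint : IsIntegral F α := Algebra.IsIntegral.isIntegral α
    rw [← IntermediateField.mem_toSubalgebra, IntermediateField.adjoin_simple_toSubalgebra_of_isAlgebraic
      hint.isAlgebraic, Algebra.adjoin_singleton_eq_range_aeval] at h2
    obtain ⟨p, hp⟩ := h2
    exact ⟨p, hp.symm⟩

theorem stable_trivial {α : K} (hα : ∀ a : F, algebraMap F K a ≠ α) (U : Submodule F K)
    (hU : ∀ x ∈ U, α * x ∈ U) : U = ⊥ ∨ U = ⊤ := by
  by_cases h0 : U = ⊥
  · exact Or.inl h0
  · right
    obtain ⟨u, hu, hu0⟩ := (Submodule.ne_bot_iff U).mp h0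
    have hp : ∀ p : F[X], aeval α p * u ∈ U := by
      intro p
      induction p using Polynomial.induction_on' with
      | add p q hp hq => rw [map_add, add_mul]; exact U.add_mem hp hq
      | monomial n a =>
        rw [Polynomial.aeval_monomial, ← Algebra.smul_def, smul_mul_assoc]
        apply U.smul_mem
        induction n with
        | zero => rw [pow_zero, one_mul]; exact hu
        | succ n ih => rw [pow_succ', mul_assoc]; exact hU _ ih
    rw [Submodule.eq_top_iff']
    intro x
    obtain ⟨p, hpx⟩ := eq_aeval hK hα (x * u⁻¹)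
    have h1 := hp p
    rw [← hpx, mul_assoc, inv_mul_cancel₀ hu0, mul_one] at h1
    exact h1

theorem intertwine_aeval {α α' : K} {g : Module.End F K} (h : ∀ v, g (α * v) = α' * g v)
    (p : F[X]) (v : K) : g (aeval α p * v) = aeval α' p * g v := by
  induction p using Polynomial.induction_on' generalizing v with
  | add p q hp hq => rw [map_add, add_mul, map_add, hp, hq, map_add, add_mul]
  | monomial n a =>
    rw [Polynomial.aeval_monomial, Polynomial.aeval_monomial, ← Algebra.smul_def,
      ← Algebra.smul_def, smul_mul_assoc, map_smul, smul_mul_assoc]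
    congr 1
    induction n generalizing v with
    | zero => rw [pow_zero, one_mul, pow_zero, one_mul]
    | succ n ih => rw [pow_succ, mul_assoc, ih, h, pow_succ, mul_assoc]

theorem eq_mul_of_comm {α : K} (hα : ∀ a : F, algebraMap F K a ≠ α) {g : Module.End F K}
    (h : ∀ v, g (α * v) = α * g v) (v : K) : g v = g 1 * v := by
  obtain ⟨p, hp⟩ := eq_aeval hK hα v
  have h1 := intertwine_aeval hK h p 1
  rw [mul_one] at h1
  rw [hp, h1, mul_comm]

theorem SL_of_intertwine {α α' : K} (hα : ∀ a : F, algebraMap F K a ≠ α)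
    {g : (Module.End F K)ˣ} (h : ∀ v, g.val (α * v) = α' * g.val v) : SL g := by
  have hinj : Function.Injective g.val := by
    intro x y hxy
    have h1 : ∀ z, (g⁻¹).val (g.val z) = z := by
      intro z
      rw [← Module.End.mul_apply, ← Units.val_mul, inv_mul_cancel]
      rfl
    rw [← h1 x, hxy, h1]
  set c := g.val 1 with hc
  have hc0 : c ≠ 0 := by
    intro h0
    have := hinj (h0.trans (map_zero g.val).symm)
    exact one_ne_zero this
  have hmul : ∀ x y, g.val (x * y) * c = g.val x * g.val y := by
    intro x y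
    obtain ⟨p, rfl⟩ := eq_aeval hK hα x
    have h1 := intertwine_aeval hK h p y
    have h2 := intertwine_aeval hK h p 1
    rw [mul_one] at h2
    rw [h1, h2]
    ring
  let τl : K →ₗ[F] K := (LinearMap.mulLeft F c⁻¹) ∘ₗ g.val
  have hτl : ∀ v, τl v = c⁻¹ * g.val v := fun _ => rfl
  let τ : K →ₐ[F] K := AlgHom.ofLinearMap τl (by
    rw [hτl, ← hc, inv_mul_cancel₀ hc0]) (by
    intro x y
    rw [hτl, hτl, hτl]
    have h1 := hmul x y
    field_simp
    rw [← h1]
    ring)
  have hτ : ∀ v, τ v = c⁻¹ * g.val v := fun _ => rfl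
  have hbij : Function.Bijective τ := by
    have h1 : Function.Injective τ.toLinearMap := by
      intro x y hxy
      have h2 : c⁻¹ * g.val x = c⁻¹ * g.val y := hxy
      exact hinj (mul_left_cancel₀ (inv_ne_zero hc0) h2)
    exact ⟨h1, LinearMap.surjective_of_injective h1⟩
  refine ⟨AlgEquiv.ofBijective τ hbij, c, hc0, ?_⟩
  intro v
  rw [AlgEquiv.coe_ofBijective, hτ, ← mul_assoc, mul_inv_cancel₀ hc0, one_mul]

end prime

/-- the element is not a scalar -/
def NS (g : (Module.End F K)ˣ) : Prop := ∀ c : F, g.val ≠ c • 1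

/-- multiplication by an element outside `F` with a power of suitable prime exponent in `F` -/
def TL (g : (Module.End F K)ˣ) : Prop :=
  ∃ (α : K) (s : ℕ), (∀ a : F, algebraMap F K a ≠ α) ∧ s.Prime ∧ s % 11 = 1 ∧
    (∃ a : F, algebraMap F K a = α ^ s) ∧ ∀ v, g.val v = α * v

/-- two elements generate a soluble subgroup -/
def SolPair {G : Type v} [Group G] (a b : G) : Prop :=
  Group.IsSolvable (Subgroup.closure ({a, b} : Set G))

theorem stepA [Finite F] [FiniteDimensional F K] (hK : finrank F K = 11)
    {a b : (Module.End F K)ˣ} (ha : TL a) (h : SolPair a b) : SL b := by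
  obtain ⟨α, s, hα, hs, hs11, ⟨e, he⟩, hav⟩ := ha
  have : Finite K := Module.finite_of_finite F
  have : Finite (Module.End F K) := Module.finite_of_finite F
  let H := Subgroup.closure ({a, b} : Set (Module.End F K)ˣ)
  have hsol : Group.IsSolvable H := h
  have hfinH : Finite H := inferInstance
  let ρ : H →* Module.End F K := (Units.coeHom (Module.End F K)).comp H.subtype
  have hρ : Function.Injective ρ := fun x y hxy => Subtype.ext (Units.ext hxy)
  let a' : H := ⟨a, Subgroup.subset_closure (by simp)⟩
  let b' : H := ⟨b, Subgroup.subset_closure (by simp)⟩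
  have hρa : ρ a' = a.val := rfl
  have hs12 : 11 < s := by
    have := hs.two_le
    omega
  have hirr : Irr ρ (Subgroup.closure {a'} : Set H) := by
    intro U hU
    apply stable_trivial hK hα U
    intro x hx
    have h1 := hU (ρ a') ⟨a', Subgroup.subset_closure (by simp), rfl⟩ x hx
    rw [hρa, hav] at h1
    exact h1
  have hcen : a' ^ s ∈ Subgroup.center H := by
    refine scalar_mem_center hρ (c := e) ?_
    rw [hρa]
    have hp : ∀ (n : ℕ) (v : K), (a.val ^ n) v = α ^ n * v := by
      intro n
      induction n with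
      | zero => intro v; rw [pow_zero, pow_zero, one_mul]; rfl
      | succ n ih =>
        intro v
        rw [pow_succ', Module.End.mul_apply, ih, hav, pow_succ', mul_assoc]
    apply LinearMap.ext
    intro v
    rw [hp, ← he, ← Algebra.smul_def]
    rfl
  have hcomm : ∀ n : H, a' * n = n * a' → ∀ v, (ρ n) v = (ρ n) 1 * v := by
    intro n hn
    refine eq_mul_of_comm hK hα ?_
    intro v
    have h1 : (ρ (a' * n)) v = (ρ (n * a')) v := by rw [hn]
    rw [map_mul, map_mul, Module.End.mul_apply, Module.End.mul_apply, hρa, hav, hav] at h1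
    exact h1.symm
  by_cases hG : ∀ x y : H, x * y = y * x
  · have h1 := hcomm b' (hG a' b')
    have hb0 : b.val 1 ≠ 0 := by
      intro h0
      have h2 : ∀ z, (b⁻¹).val (b.val z) = z := by
        intro z
        rw [← Module.End.mul_apply, ← Units.val_mul, inv_mul_cancel]
        rfl
      have h3 := h2 1
      rw [h0, map_zero] at h3
      exact zero_ne_one h3
    exact ⟨AlgEquiv.refl, b.val 1, hb0, h1⟩
  · obtain ⟨N, hN⟩ := exists_minNC hG
    have hcent := minNC_centralised hρ {a'} hirr (by omega) (by
      rintro y hy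
      rw [Set.mem_singleton_iff] at hy
      rw [hy]
      exact ⟨s, hs, Or.inr hs11, by omega, hcen⟩) hN a' (Subgroup.subset_closure (by simp))
    obtain ⟨n, hn, hnc⟩ := SetLike.not_le_iff_exists.mp hN.nc
    have hn1 := hcomm n (hcent n hn)
    have hn2 := hN.normal.conj_mem n hn b'
    have hn3 := hcomm _ (hcent _ hn2)
    refine SL_of_intertwine hK (α := (ρ n) 1) (α' := (ρ (b' * n * b'⁻¹)) 1) ?_ ?_
    · intro c hc
      apply hnc
      rw [Subgroup.mem_center_iff]
      intro g
      apply hρ
      have h2 : ρ n = c • 1 := by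
        apply LinearMap.ext
        intro v
        rw [hn1, ← hc, ← Algebra.smul_def]
        rfl
      rw [map_mul, map_mul, h2, smul_mul_assoc, mul_smul_comm, one_mul, mul_one]
    · intro v
      have h2 : (ρ (b' * n * b'⁻¹ * b')) v = (ρ (b' * n)) v := by
        rw [inv_mul_cancel_right]
      rw [map_mul, Module.End.mul_apply, hn3, map_mul ρ b' n, Module.End.mul_apply, hn1 v] at h2
      exact h2.symm

end Pool.Agent.K4H75.PG
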