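import Pool.Agent.K4H75.PG.Lin

set_option autoImplicit false

/-! Irreducible soluble groups generated by elements of prime order larger than the degree. -/

namespace Pool.Agent.K4H75.PG

open Module

universe u v w

variable {F : Type u} [Field F] {W : Type v} [AddCommGroup W] [Module F W]
  {G : Type w} [Group G]

/-- irreducibility of a representation restricted to a set -/
def Irr (ρ : G →* Module.End F W) (B : Set G) : Prop :=
  ∀ U : Submodule F W, Stab (ρ '' B) U → U = ⊥ ∨ U = ⊤

theorem Irr.mono {ρ : G →* Module.End F W} {B C : Set G} (h : Irr ρ B) (hBC : B ⊆ C) :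
    Irr ρ C := by
  intro U hU
  apply h
  rintro _ ⟨b, hb, rfl⟩
  exact hU _ ⟨b, hBC hb, rfl⟩

theorem rho_inv (ρ : G →* Module.End F W) (g : G) (x : W) : ρ g (ρ g⁻¹ x) = x := by
  rw [← Module.End.mul_apply, ← map_mul, mul_inv_cancel, map_one]
  rfl

theorem rho_inv' (ρ : G →* Module.End F W) (g : G) (x : W) : ρ g⁻¹ (ρ g x) = x := by
  rw [← Module.End.mul_apply, ← map_mul, inv_mul_cancel, map_one]
  rfl

/-- Schur's lemma -/
theorem schur {ρ : G →* Module.End F W} (h : Irr ρ Set.univ) {d : Module.End F W}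
    (hd : ∀ g, d * ρ g = ρ g * d) (hd0 : d ≠ 0) : Function.Injective d := by
  rw [← LinearMap.ker_eq_bot]
  rcases h (LinearMap.ker d) (by
    rintro _ ⟨g, -, rfl⟩ x hx
    rw [LinearMap.mem_ker] at hx ⊢
    rw [← Module.End.mul_apply, hd, Module.End.mul_apply, hx, map_zero]) with h1 | h1
  · exact h1
  · exfalso
    apply hd0
    ext x
    have : x ∈ LinearMap.ker d := by rw [h1]; exact Submodule.mem_top
    exact this

theorem center_comm {ρ : G →* Module.End F W} {z : G} (hz : z ∈ Subgroup.center G) (g : G) :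
    ρ z * ρ g = ρ g * ρ z := by
  rw [← map_mul, ← map_mul, Subgroup.mem_center_iff.mp hz g]

theorem independent_aux {ρ : G →* Module.End F W} (hρ : Function.Injective ρ)
    (h : Irr ρ Set.univ) {N : Subgroup G}
    (hcomm : ∀ a ∈ N, ∀ b ∈ N, a * b * a⁻¹ * b⁻¹ ∈ Subgroup.center G)
    (hcen : ∀ a ∈ N, (∀ b ∈ N, a * b = b * a) → a ∈ Subgroup.center G)
    {ι : Type w} (n : ι → G) (hn : ∀ i, n i ∈ N)
    (hdist : ∀ i j, i ≠ j → (n j)⁻¹ * n i ∉ Subgroup.center G) (s : Finset ι) :
    ∀ d : ι → Module.End F W, (∀ i g, d i * ρ g = ρ g * d i) →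
      ∑ i ∈ s, d i * ρ (n i) = 0 → ∀ i ∈ s, d i = 0 := by
  classical
  induction s using Finset.induction_on with
  | empty => intro d _ _ i hi; exact absurd hi (Finset.notMem_empty i)
  | insert j s hj ih =>
    intro d hd hsum
    have hs : ∀ i ∈ s, d i = 0 := by
      intro i hi
      have hij : i ≠ j := by
        rintro rfl
        exact hj hi
      -- the commutators
      let z : ι → G → G := fun i m => m * n i * m⁻¹ * (n i)⁻¹
      have hz : ∀ i, ∀ m ∈ N, z i m ∈ Subgroup.center G := fun i m hm => hcomm m hm _ (hn i)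
      obtain ⟨m, hm, hne⟩ : ∃ m ∈ N, z i m ≠ z j m := by
        by_contra hcon
        push Not at hcon
        apply hdist i j hij
        refine hcen _ (N.mul_mem (N.inv_mem (hn j)) (hn i)) ?_
        intro m hm
        have h1 := hcon m hm
        have hzi := Subgroup.mem_center_iff.mp (hz i m hm)
        have e1 : m * n i * m⁻¹ = z i m * n i := by simp [z]
        have e2 : m * n j * m⁻¹ = z j m * n j := by simp [z]
        have e3 : m * ((n j)⁻¹ * n i) * m⁻¹ = (n j)⁻¹ * n i := by
          calc m * ((n j)⁻¹ * n i) * m⁻¹ = (m * n j * m⁻¹)⁻¹ * (m * n i * m⁻¹) := by group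
            _ = (z j m * n j)⁻¹ * (z i m * n i) := by rw [e1, e2]
            _ = (n j)⁻¹ * ((z j m)⁻¹ * z i m) * n i := by group
            _ = (n j)⁻¹ * n i := by rw [h1, inv_mul_cancel, mul_one]
        exact (mul_inv_eq_iff_eq_mul.mp e3).symm
      let d' : ι → Module.End F W := fun i => d i * (ρ (z i m) - ρ (z j m))
      have hd'c : ∀ i g, d' i * ρ g = ρ g * d' i := by
        intro i g
        show d i * (ρ (z i m) - ρ (z j m)) * ρ g = ρ g * (d i * (ρ (z i m) - ρ (z j m)))
        rw [mul_assoc, sub_mul, center_comm (hz i m hm), center_comm (hz j m hm), ← mul_sub,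
          ← mul_assoc, hd, mul_assoc]
      have hrel : ∑ i ∈ insert j s, d' i * ρ (n i) = 0 := by
        have h1 : ρ m * (∑ i ∈ insert j s, d i * ρ (n i)) * ρ m⁻¹ = 0 := by
          rw [hsum, mul_zero, zero_mul]
        have h2 : ρ (z j m) * (∑ i ∈ insert j s, d i * ρ (n i)) = 0 := by rw [hsum, mul_zero]
        rw [Finset.mul_sum, Finset.sum_mul] at h1
        rw [Finset.mul_sum] at h2
        rw [← sub_zero (∑ i ∈ insert j s, d' i * ρ (n i)), ← sub_self (0 : Module.End F W),
          sub_self, sub_zero]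
        have h3 : ∑ i ∈ insert j s, d' i * ρ (n i) =
            (∑ i ∈ insert j s, ρ m * (d i * ρ (n i)) * ρ m⁻¹) -
              ∑ i ∈ insert j s, ρ (z j m) * (d i * ρ (n i)) := by
          rw [← Finset.sum_sub_distrib]
          apply Finset.sum_congr rfl
          intro i _
          have e1 : ρ m * (d i * ρ (n i)) * ρ m⁻¹ = d i * (ρ (z i m) * ρ (n i)) := by
            rw [← mul_assoc, ← hd, mul_assoc, mul_assoc, ← map_mul, ← map_mul, ← map_mul]
            congr 2
            simp only [z]
            group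
          have e2 : ρ (z j m) * (d i * ρ (n i)) = d i * (ρ (z j m) * ρ (n i)) := by
            rw [← mul_assoc, ← hd, mul_assoc]
          rw [e1, e2, ← mul_sub, ← sub_mul]
          show d i * (ρ (z i m) - ρ (z j m)) * ρ (n i) = _
          rw [mul_assoc]
        rw [h3, h1, h2, sub_zero]
      rw [Finset.sum_insert hj] at hrel
      have hd'j : d' j = 0 := by
        show d j * (ρ (z j m) - ρ (z j m)) = 0
        rw [sub_self, mul_zero]
      rw [hd'j, zero_mul, zero_add] at hrel
      have h4 := ih d' hd'c hrel i hi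
      have h5 : ρ (z i m) - ρ (z j m) ≠ 0 := by
        intro h6
        exact hne (hρ (sub_eq_zero.mp h6))
      have h6 := schur h (d := ρ (z i m) - ρ (z j m)) (by
        intro g
        rw [sub_mul, center_comm (hz i m hm), center_comm (hz j m hm), ← mul_sub]) h5
      have h7 : (ρ (z i m) - ρ (z j m)) * d i = 0 := by
        rw [sub_mul, ← hd, ← hd, ← mul_sub]
        exact h4
      ext x
      apply h6
      have h8 := LinearMap.congr_fun h7 x
      rw [Module.End.mul_apply] at h8
      rw [h8]
      exact (map_zero _).symm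
    intro i hi
    rcases Finset.mem_insert.mp hi with rfl | hi
    · rw [Finset.sum_insert hj, Finset.sum_eq_zero (fun k hk => by rw [hs k hk, zero_mul]),
        add_zero] at hsum
      have h1 : d i * ρ (n i) * ρ (n i)⁻¹ = 0 := by rw [hsum, zero_mul]
      rw [mul_assoc, ← map_mul, mul_inv_cancel, map_one, mul_one] at h1
      exact h1
    · exact hs i hi

theorem card_bar_le [FiniteDimensional F W] [Nontrivial W] [Finite G]
    {ρ : G →* Module.End F W} (hρ : Function.Injective ρ)
    (h : Irr ρ Set.univ) {N : Subgroup G}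
    (hcomm : ∀ a ∈ N, ∀ b ∈ N, a * b * a⁻¹ * b⁻¹ ∈ Subgroup.center G)
    (hcen : ∀ a ∈ N, (∀ b ∈ N, a * b = b * a) → a ∈ Subgroup.center G) :
    Nat.card (bar N) ≤ finrank F W ^ 2 := by
  have hrep : ∀ x : bar N, ∃ a ∈ N, QuotientGroup.mk' (Subgroup.center G) a = x.1 := fun x => x.2
  choose n hn hn' using hrep
  have hind : LinearIndependent F (fun x : bar N => ρ (n x)) := by
    rw [linearIndependent_iff']
    intro s g hg i hi
    have h1 := independent_aux hρ h hcomm hcen n hn (by
      intro i j hij hc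
      apply hij
      apply Subtype.ext
      rw [← hn', ← hn']
      rw [← mk_eq_one_iff, map_mul, map_inv] at hc
      exact (inv_mul_eq_one.mp hc).symm) s (fun i => g i • 1) (by
        intro i g
        rw [smul_mul_assoc, one_mul, mul_smul_comm, mul_one]) (by
        rw [← hg]
        apply Finset.sum_congr rfl
        intro i _
        rw [smul_mul_assoc, one_mul]) i hi
    rcases smul_eq_zero.mp h1 with h2 | h2
    · exact h2
    · exact absurd h2 one_ne_zero
  have : Fintype (bar N) := Fintype.ofFinite _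
  have h1 := hind.fintype_card_le_finrank
  rw [Module.finrank_linearMap, ← Nat.card_eq_fintype_card, ← sq] at h1
  exact h1

theorem num_aux {s c k : ℕ} (hs : s.Prime) (hs' : s = 11 ∨ s % 11 = 1) (hc : c.Prime)
    (hne : s ≠ c) (hk : 2 ≤ k) (hle : c ^ k ≤ 121) :
    ∀ i, 1 ≤ i → i ≤ k → ¬ c ^ i ≡ 1 [MOD s] := by
  intro i hi1 hik hmod
  have hc2 := hc.two_le
  have hc11 : c ≤ 11 := by
    by_contra hlt
    have h1 : 12 ^ 2 ≤ c ^ k := by
      calc 12 ^ 2 ≤ c ^ 2 := Nat.pow_le_pow_left (by omega) 2
        _ ≤ c ^ k := Nat.pow_le_pow_right (by omega) hk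
    omega
  have hk6 : k ≤ 6 := by
    by_contra hlt
    have h1 : 2 ^ 7 ≤ c ^ k := by
      calc 2 ^ 7 ≤ 2 ^ k := Nat.pow_le_pow_right (by omega) (by omega)
        _ ≤ c ^ k := Nat.pow_le_pow_left hc2 k
    omega
  have hci : c ^ i ≤ 121 := (Nat.pow_le_pow_right (by omega) hik).trans hle
  have hci1 : 1 < c ^ i := Nat.one_lt_pow (by omega) hc.one_lt
  have hdvd : s ∣ c ^ i - 1 := (Nat.modEq_iff_dvd' hci1.le).mp hmod.symm
  have hs120 : s ≤ 120 := (Nat.le_of_dvd (by omega) hdvd).trans (by omega)
  have hslist : s = 11 ∨ s = 23 ∨ s = 67 ∨ s = 89 := by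
    rcases hs' with h | h
    · exact Or.inl h
    · obtain ⟨m, hm⟩ : ∃ m, s = 11 * m + 1 := ⟨s / 11, by omega⟩
      have hm10 : m ≤ 10 := by omega
      subst hm
      clear h hmod hdvd
      interval_cases m <;> first | omega | (exfalso; revert hs; norm_num)
  have hclist : c = 2 ∨ c = 3 ∨ c = 5 ∨ c = 7 ∨ c = 11 := by
    clear hmod hdvd hci hci1 hle
    interval_cases c <;> first | omega | (exfalso; revert hc; norm_num)
  clear hmod hs' hs120
  have hi6 : i ≤ 6 := hik.trans hk6
  rcases hslist with rfl | rfl | rfl | rfl <;> rcases hclist with rfl | rfl | rfl | rfl | rfl <;>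
    interval_cases i <;> first
      | exact absurd rfl hne
      | (norm_num at hdvd; done)
      | (norm_num at hci; done)

/-- the main lemma -/
theorem minNC_centralised [FiniteDimensional F W] [Nontrivial W] [Finite G]
    [Group.IsSolvable G] {ρ : G →* Module.End F W} (hρ : Function.Injective ρ) (Y : Set G)
    (hirr : Irr ρ (Subgroup.closure Y : Set G)) (hdim : finrank F W ≤ 11)
    (hY : ∀ y ∈ Y, ∃ s : ℕ, s.Prime ∧ (s = 11 ∨ s % 11 = 1) ∧ finrank F W < s ∧
      y ^ s ∈ Subgroup.center G) {N : Subgroup G} (hN : MinNC N) :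
    ∀ b ∈ Subgroup.closure Y, ∀ n ∈ N, b * n = n * b := by
  by_cases hab : ∀ a ∈ N, ∀ b ∈ N, a * b = b * a
  · refine centralises_of_weights ρ hρ N hN.normal hab Y ?_ hirr
    intro y hy
    obtain ⟨s, hs, -, hlt, hc⟩ := hY y hy
    exact ⟨s, hs, hlt, fun a _ => (Subgroup.mem_center_iff.mp hc a).symm⟩
  · obtain ⟨c, k, hc, hk, hexp⟩ := hN.exists_prime
    have hk2 := two_le_of_not_comm hc hk hab
    have hle := card_bar_le hρ (hirr.mono (Set.subset_univ _))
      (fun a ha b hb => hN.comm_mem ha hb) (fun a ha h => hN.center_of_comm hab ha h)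
    rw [hk] at hle
    have hle' : c ^ k ≤ 121 := hle.trans (Nat.pow_le_pow_left hdim 2)
    have hsub : Subgroup.closure Y ≤ Subgroup.centralizer (N : Set G) := by
      rw [Subgroup.closure_le]
      intro y hy
      obtain ⟨s, hs, hs', hlt, hyc⟩ := hY y hy
      have hcs : c < s := by
        have h1 : c ^ 2 ≤ finrank F W ^ 2 := (Nat.pow_le_pow_right hc.pos hk2).trans hle
        have h2 : c ≤ finrank F W := (Nat.pow_le_pow_iff_left (by norm_num)).mp h1
        omega
      have h1 := hN.centralises hc hk hexp hs (by omega)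
        (num_aux hs hs' hc (by omega) hk2 hle') hyc
      exact Subgroup.mem_centralizer_iff.mpr (fun n hn => (h1 n hn).symm)
    intro b hb n hn
    exact (Subgroup.mem_centralizer_iff.mp (hsub hb) n hn).symm

theorem comm_of_small [FiniteDimensional F W] [Nontrivial W] [Finite G]
    [Group.IsSolvable G] {ρ : G →* Module.End F W} (hρ : Function.Injective ρ) (Y : Set G)
    (htop : Subgroup.closure Y = ⊤)
    (hirr : Irr ρ Set.univ) (hdim : finrank F W ≤ 10)
    (hY : ∀ y ∈ Y, y ^ 11 ∈ Subgroup.center G) : ∀ a b : G, a * b = b * a := by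
  by_contra hcon
  obtain ⟨N, hN⟩ := exists_minNC hcon
  apply hN.nc
  intro n hn
  rw [Subgroup.mem_center_iff]
  intro b
  refine minNC_centralised hρ Y (by rw [htop]; exact hirr) (by omega) ?_ hN b
    (by rw [htop]; exact Subgroup.mem_top b) n hn
  intro y hy
  exact ⟨11, by norm_num, Or.inl rfl, by omega, hY y hy⟩

end Pool.Agent.K4H75.PG
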