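import Pool.Agent.K4H75.PG.Small

set_option autoImplicit false

/-! Elements conjugate to a multiple of themselves in degree eleven. -/

namespace Pool.Agent.K4H75.PG

open Module Polynomial

universe u v w

section eig

variable {F : Type u} [Field F] {M : Type v} [AddCommGroup M] [Module F M]

theorem eleven_mul_finrank_le [FiniteDimensional F M] (Θ : Module.End F M) (μ : Fin 11 → F)
    (hμ : Function.Injective μ) {I : Type w} [AddCommGroup I] [Module F I]
    (L : Fin 11 → (I →ₗ[F] M)) (hL : ∀ k, Function.Injective (L k))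
    (h : ∀ k x, Θ (L k x) = μ k • L k x) : 11 * finrank F I ≤ finrank F M := by
  have : Module.Finite F I := Module.Finite.of_injective (L 0) (hL 0)
  let Λ : (Fin 11 → I) →ₗ[F] M := ∑ k, (L k) ∘ₗ LinearMap.proj k
  have hinj : Function.Injective Λ := by
    rw [← LinearMap.ker_eq_bot, LinearMap.ker_eq_bot']
    intro x hx
    have h1 := (iSupIndep_iff_finsetSum_eq_zero_imp_eq_zero _).mp
      (Θ.eigenspaces_iSupIndep.comp hμ) Finset.univ (fun k => L k (x k))
      (fun k _ => Module.End.mem_eigenspace_iff.mpr (h k (x k))) (by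
        rw [← hx]
        simp only [Λ, LinearMap.sum_apply, LinearMap.comp_apply, LinearMap.proj_apply])
    funext k
    apply hL k
    rw [h1 k (Finset.mem_univ k)]
    exact (map_zero _).symm
  have h2 := LinearMap.finrank_le_finrank_of_injective hinj
  rw [Module.finrank_pi_fintype, Finset.sum_const, Finset.card_univ, Fintype.card_fin,
    smul_eq_mul] at h2
  exact h2

theorem root_pow_inj {η : F} (h1 : η ^ 11 = 1) (h2 : η ≠ 1) {i j : ℕ} (hi : i < 11) (hj : j < 11)
    (h : η ^ i = η ^ j) : i = j := by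
  have : Fact (Nat.Prime 11) := ⟨by norm_num⟩
  have h3 := orderOf_eq_prime h1 h2
  have h4 := IsPrimitiveRoot.orderOf η
  rw [h3] at h4
  exact h4.pow_inj hi hj h

theorem eleven_ne_zero {η : F} (h1 : η ^ 11 = 1) (h2 : η ≠ 1) : (11 : F) ≠ 0 := by
  intro h
  have hchar : CharP F 11 := by
    obtain ⟨p, hp⟩ := CharP.exists F
    have h3 : p ∣ 11 := (CharP.cast_eq_zero_iff F p 11).mp (by exact_mod_cast h)
    rcases (Nat.dvd_prime (by norm_num)).mp h3 with rfl | rfl
    · exact absurd rfl (CharP.char_ne_one F 1)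
    · exact hp
  have : Fact (Nat.Prime 11) := ⟨by norm_num⟩
  have h3 : (η - 1) ^ 11 = 0 := by
    rw [sub_pow_char, h1, one_pow, sub_self]
  exact h2 (sub_eq_zero.mp (pow_eq_zero_iff (by norm_num) |>.mp h3))

/-- the averages -/
def P (T : Module.End F M) (η : F) (k : ℕ) (v : M) : M :=
  ∑ j ∈ Finset.range 11, η ^ (j * k) • (T ^ j) v

theorem P_eig {T : Module.End F M} (hT : T ^ 11 = 1) {η : F} (h1 : η ^ 11 = 1) (k : ℕ) (v : M) :
    η ^ k • T (P T η k v) = P T η k v := by
  let f : ℕ → M := fun j => η ^ (j * k) • (T ^ j) v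
  have e1 : η ^ k • T (P T η k v) = ∑ j ∈ Finset.range 11, f (j + 1) := by
    unfold P
    rw [map_sum, Finset.smul_sum]
    apply Finset.sum_congr rfl
    intro j _
    show _ = η ^ ((j + 1) * k) • (T ^ (j + 1)) v
    rw [map_smul, smul_smul, ← pow_add, pow_succ' T, Module.End.mul_apply]
    congr 2
    ring
  have e2 : f 11 = f 0 := by
    show η ^ (11 * k) • (T ^ 11) v = η ^ (0 * k) • (T ^ 0) v
    rw [hT, pow_mul, h1, one_pow, zero_mul, pow_zero, pow_zero]
  have e3 := Finset.sum_range_succ f 11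
  have e4 := Finset.sum_range_succ' f 11
  rw [e3, e2] at e4
  have e5 := add_right_cancel e4
  rw [e1, ← e5]
  rfl

theorem P_sum (T : Module.End F M) {η : F} (h1 : η ^ 11 = 1) (h2 : η ≠ 1) (v : M) :
    ∑ k ∈ Finset.range 11, P T η k v = (11 : F) • v := by
  unfold P
  rw [Finset.sum_comm]
  have h3 : ∀ j ∈ Finset.range 11, j ≠ 0 →
      ∑ k ∈ Finset.range 11, η ^ (j * k) • (T ^ j) v = 0 := by
    intro j hj hj0
    rw [← Finset.sum_smul]
    have h4 : ∑ k ∈ Finset.range 11, η ^ (j * k) = 0 := by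
      have h5 : η ^ j ≠ 1 := by
        intro h6
        apply hj0
        apply root_pow_inj h1 h2 (Finset.mem_range.mp hj) (by norm_num)
        rw [h6, pow_zero]
      have h6 := geom_sum_mul (η ^ j) 11
      rw [← pow_mul, mul_comm j 11, pow_mul, h1, one_pow, sub_self] at h6
      rcases mul_eq_zero.mp h6 with h7 | h7
      · rw [← h7]
        apply Finset.sum_congr rfl
        intro k _
        rw [pow_mul]
      · exact absurd (sub_eq_zero.mp h7) h5
    rw [h4, zero_smul]
  rw [Finset.sum_eq_single_of_mem 0 (by norm_num) h3]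
  simp only [zero_mul, pow_zero, one_smul, Module.End.one_apply, Finset.sum_const,
    Finset.card_range]
  rw [← Nat.cast_smul_eq_nsmul F]
  norm_num

theorem P_ne_zero {T : Module.End F M} (hT : T ^ 11 = 1) {η : F} (h1 : η ^ 11 = 1) (h2 : η ≠ 1)
    {v : M} (hv : T v ≠ v) : ∃ k, 1 ≤ k ∧ k < 11 ∧ P T η k v ≠ 0 := by
  by_contra hcon
  push Not at hcon
  apply hv
  have h3 := P_sum T h1 h2 v
  rw [Finset.sum_eq_single_of_mem 0 (by norm_num) (fun j hj hj0 =>
    hcon j (by omega) (Finset.mem_range.mp hj))] at h3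
  have h4 := P_eig hT h1 0 v
  rw [pow_zero, one_smul, h3, map_smul] at h4
  exact smul_right_injective M (eleven_ne_zero h1 h2) h4

theorem P_exists {T : Module.End F M} {η : F} (h1 : η ^ 11 = 1) (h2 : η ≠ 1)
    {v : M} (hv : v ≠ 0) : ∃ k, P T η k v ≠ 0 := by
  by_contra hcon
  push Not at hcon
  have h3 := P_sum T h1 h2 v
  rw [Finset.sum_eq_zero (fun j _ => hcon j)] at h3
  rcases smul_eq_zero.mp h3.symm with h4 | h4
  · exact eleven_ne_zero h1 h2 h4
  · exact hv h4

end eig

variable {F : Type u} [Field F] {V : Type v} [AddCommGroup V] [Module F V]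

/-- conjugate to a multiple of itself by a nontrivial eleventh root of unity -/
def IsM (y : (Module.End F V)ˣ) : Prop :=
  ∃ (b : (Module.End F V)ˣ) (η : F), η ^ 11 = 1 ∧ η ≠ 1 ∧
    (b : Module.End F V) * y = η • ((y : Module.End F V) * b)

theorem IsM.conj {y : (Module.End F V)ˣ} (h : IsM y) (σ : (Module.End F V)ˣ) :
    IsM (σ * y * σ⁻¹) := by
  obtain ⟨b, η, h1, h2, h3⟩ := h
  refine ⟨σ * b * σ⁻¹, η, h1, h2, ?_⟩
  have e1 : ((σ * b * σ⁻¹ : (Module.End F V)ˣ) : Module.End F V) *
      ((σ * y * σ⁻¹ : (Module.End F V)ˣ) : Module.End F V) =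
      σ * (b * y) * ((σ⁻¹ : (Module.End F V)ˣ) : Module.End F V) := by
    rw [← Units.val_mul, ← Units.val_mul, ← Units.val_mul, ← Units.val_mul]
    congr 1
    group
  have e2 : ((σ * y * σ⁻¹ : (Module.End F V)ˣ) : Module.End F V) *
      ((σ * b * σ⁻¹ : (Module.End F V)ˣ) : Module.End F V) =
      σ * (y * b) * ((σ⁻¹ : (Module.End F V)ˣ) : Module.End F V) := by
    rw [← Units.val_mul, ← Units.val_mul, ← Units.val_mul, ← Units.val_mul]
    congr 1
    group
  rw [e1, e2, h3, mul_smul_comm, smul_mul_assoc]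

theorem conj_pow_aux {y b : (Module.End F V)ˣ} {η : F}
    (h3 : (b : Module.End F V) * y = η • ((y : Module.End F V) * b)) (k : ℕ) :
    (b : Module.End F V) ^ k * y = η ^ k • ((y : Module.End F V) * (b : Module.End F V) ^ k) := by
  induction k with
  | zero => simp
  | succ k ih =>
    rw [pow_succ', mul_assoc, ih, mul_smul_comm, ← mul_assoc, h3, smul_mul_assoc, smul_smul,
      ← pow_succ, mul_assoc]

theorem card_intertwine [Finite F] [FiniteDimensional F V] (hV : finrank F V = 11)
    {y : (Module.End F V)ˣ} (hy : IsM y) (t : Module.End F V) :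
    Nat.card {σ : Module.End F V // (y : Module.End F V) * σ = σ * t} ≤ Nat.card F ^ 11 := by
  obtain ⟨b, η, h1, h2, h3⟩ := hy
  let I : Submodule F (Module.End F V) :=
    LinearMap.ker (LinearMap.mulLeft F (y : Module.End F V) - LinearMap.mulRight F t)
  have hI : ∀ σ, σ ∈ I ↔ (y : Module.End F V) * σ = σ * t := by
    intro σ
    rw [LinearMap.mem_ker, LinearMap.sub_apply, LinearMap.mulLeft_apply, LinearMap.mulRight_apply,
      sub_eq_zero]
  let Θ : Module.End F (Module.End F V) :=
    (LinearMap.mulLeft F ((y⁻¹ : (Module.End F V)ˣ) : Module.End F V)) ∘ₗ LinearMap.mulRight F t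
  let L : Fin 11 → (I →ₗ[F] Module.End F V) := fun k =>
    (LinearMap.mulLeft F ((b : Module.End F V) ^ (k : ℕ))) ∘ₗ I.subtype
  have hL : ∀ k, Function.Injective (L k) := by
    intro k σ τ h
    apply Subtype.ext
    have h4 : (b : Module.End F V) ^ (k : ℕ) * σ = (b : Module.End F V) ^ (k : ℕ) * τ := h
    rw [← Units.val_pow_eq_pow_val] at h4
    exact (Units.mul_right_inj _).mp h4
  have h4 := eleven_mul_finrank_le Θ (fun k : Fin 11 => η ^ (k : ℕ))
    (fun i j h => Fin.ext (root_pow_inj h1 h2 i.2 j.2 h)) L hL (by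
      intro k σ
      show ((y⁻¹ : (Module.End F V)ˣ) : Module.End F V) * ((b : Module.End F V) ^ (k : ℕ) * σ * t) =
        η ^ (k : ℕ) • ((b : Module.End F V) ^ (k : ℕ) * σ)
      rw [mul_assoc, ← (hI σ.1).mp σ.2, ← mul_assoc _ (y : Module.End F V), conj_pow_aux h3,
        smul_mul_assoc, mul_smul_comm, mul_assoc, ← mul_assoc, Units.inv_mul, one_mul])
  rw [Module.finrank_linearMap, hV] at h4
  have h5 : finrank F I ≤ 11 := by omega
  have h6 : Nat.card {σ : Module.End F V // (y : Module.End F V) * σ = σ * t} = Nat.card I :=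
    Nat.card_congr (Equiv.subtypeEquivRight (fun σ => (hI σ).symm))
  rw [h6, Module.natCard_eq_pow_finrank (K := F)]
  exact Nat.pow_le_pow_right Nat.card_pos h5

theorem pow_eleven_scalar [FiniteDimensional F V] (hV : finrank F V = 11)
    {b : (Module.End F V)ˣ} {x : Module.End F V} {η : F} (h1 : η ^ 11 = 1) (h2 : η ≠ 1)
    (h3 : (b : Module.End F V) * x = η • (x * b)) : ∃ c : F, x ^ 11 = c • 1 := by
  have hint : IsIntegral F x := Algebra.IsIntegral.isIntegral x
  set m := minpoly F x with hm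
  have hmon : m.Monic := minpoly.monic hint
  set d := m.natDegree with hd
  have hnt : Nontrivial V := Module.nontrivial_of_finrank_pos (R := F) (by omega)
  have hd1 : 1 ≤ d := minpoly.natDegree_pos hint
  have hd11 : d ≤ 11 := by
    have h4 : m ∣ x.charpoly := LinearMap.minpoly_dvd_charpoly x
    have h5 := Polynomial.natDegree_le_of_dvd h4 x.charpoly_monic.ne_zero
    rw [LinearMap.charpoly_natDegree, hV] at h5
    exact h5
  have hη0 : η ≠ 0 := by
    rintro rfl
    rw [zero_pow (by norm_num)] at h1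
    exact zero_ne_one h1
  -- the polynomial
  let Q : F[X] := m.scaleRoots η⁻¹ - m
  have hcoef : ∀ k, Q.coeff k = m.coeff k * (η⁻¹ ^ (d - k) - 1) := by
    intro k
    show (m.scaleRoots η⁻¹ - m).coeff k = _
    rw [Polynomial.coeff_sub, Polynomial.coeff_scaleRoots]
    ring
  have hQ0 : Q = 0 := by
    by_contra hne
    have hroot : Polynomial.aeval x Q = 0 := by
      have h4 : (b : Module.End F V) * x * ((b⁻¹ : (Module.End F V)ˣ) : Module.End F V) = η • x := by
        rw [h3, smul_mul_assoc, mul_assoc, Units.mul_inv, mul_one]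
      have h5 : Polynomial.aeval ((b : Module.End F V) * x *
          ((b⁻¹ : (Module.End F V)ˣ) : Module.End F V)) m = 0 := by
        have h6 : Polynomial.aeval x m = 0 := minpoly.aeval F x
        rw [Polynomial.aeval_eq_sum_range] at h6 ⊢
        have h7 : ∀ i ∈ Finset.range (m.natDegree + 1), m.coeff i • ((b : Module.End F V) * x *
            ((b⁻¹ : (Module.End F V)ˣ) : Module.End F V)) ^ i =
            (b : Module.End F V) * (m.coeff i • x ^ i) *
              ((b⁻¹ : (Module.End F V)ˣ) : Module.End F V) := by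
          intro i _
          rw [Units.conj_pow, mul_smul_comm, smul_mul_assoc]
        rw [Finset.sum_congr rfl h7, ← Finset.sum_mul, ← Finset.mul_sum, h6, mul_zero, zero_mul]
      have h6 := Polynomial.scaleRoots_aeval_eq_zero (r := η⁻¹) h5
      have h7 : (algebraMap F (Module.End F V)) η⁻¹ * ((b : Module.End F V) * x *
          ((b⁻¹ : (Module.End F V)ˣ) : Module.End F V)) = x := by
        rw [h4, ← Algebra.smul_def, smul_smul, inv_mul_cancel₀ hη0, one_smul]
      rw [h7] at h6
      show Polynomial.aeval x (m.scaleRoots η⁻¹ - m) = 0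
      rw [map_sub, h6, minpoly.aeval, sub_zero]
    have hdeg := Polynomial.natDegree_le_natDegree (minpoly.degree_le_of_ne_zero F x hne hroot)
    have h8 : Q.coeff Q.natDegree ≠ 0 := by
      rw [Polynomial.coeff_natDegree]
      exact Polynomial.leadingCoeff_ne_zero.mpr hne
    apply h8
    rw [hcoef]
    have : d - Q.natDegree = 0 := by
      have h9 : d ≤ Q.natDegree := hdeg
      omega
    rw [this, pow_zero, sub_self, mul_zero]
  have hzero : ∀ k, k < d → (k ≠ 0 ∨ d < 11) → m.coeff k = 0 := by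
    intro k hk hor
    have h4 := hcoef k
    rw [hQ0, Polynomial.coeff_zero] at h4
    rcases mul_eq_zero.mp h4.symm with h5 | h5
    · exact h5
    · exfalso
      have h6 : η⁻¹ ^ (d - k) = η⁻¹ ^ 0 := by rw [sub_eq_zero.mp h5, pow_zero]
      have h7 := root_pow_inj (η := η⁻¹) (by rw [inv_pow, h1, inv_one])
        (by rw [Ne, inv_eq_one]; exact h2) (i := d - k) (j := 0) (by omega) (by omega) h6
      omega
  have hmx : Polynomial.aeval x m = 0 := minpoly.aeval F x
  rw [Polynomial.aeval_eq_sum_range, ← hd, Finset.sum_range_succ] at hmx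
  have hlead : m.coeff d = 1 := hmon.coeff_natDegree
  rw [hlead, one_smul, Finset.sum_eq_single_of_mem 0 (Finset.mem_range.mpr (by omega)) (by
    intro j hj hj0
    rw [hzero j (Finset.mem_range.mp hj) (Or.inl hj0), zero_smul]), pow_zero] at hmx
  rcases Nat.lt_or_ge d 11 with h | h
  · refine ⟨0, ?_⟩
    rw [hzero 0 (by omega) (Or.inr h), zero_smul, zero_add] at hmx
    rw [zero_smul, show 11 = d + (11 - d) by omega, pow_add, hmx, zero_mul]
  · have h11 : d = 11 := by omega
    rw [h11] at hmx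
    refine ⟨-m.coeff 0, ?_⟩
    rw [neg_smul]
    exact (neg_eq_of_add_eq_zero_right hmx).symm

theorem finrank_eig_le [FiniteDimensional F V] (hV : finrank F V = 11)
    {y b : (Module.End F V)ˣ} {η : F} (h1 : η ^ 11 = 1) (h2 : η ≠ 1)
    (h3 : (b : Module.End F V) * y = η • ((y : Module.End F V) * b)) {μ : F} (hμ : μ ≠ 0) :
    finrank F (LinearMap.ker ((y : Module.End F V) - μ • 1)) ≤ 1 := by
  have hη0 : η ≠ 0 := by
    rintro rfl
    rw [zero_pow (by norm_num)] at h1
    exact zero_ne_one h1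
  have hi1 : (η⁻¹) ^ 11 = 1 := by rw [inv_pow, h1, inv_one]
  have hi2 : η⁻¹ ≠ 1 := by rw [Ne, inv_eq_one]; exact h2
  let I := LinearMap.ker ((y : Module.End F V) - μ • 1)
  have hI : ∀ x ∈ I, y.val x = μ • x := by
    intro x hx
    have h4 : ((y : Module.End F V) - μ • 1) x = 0 := hx
    rw [LinearMap.sub_apply, sub_eq_zero] at h4
    simpa using h4
  let L : Fin 11 → (I →ₗ[F] V) := fun k => ((b : Module.End F V) ^ (k : ℕ)) ∘ₗ I.subtype
  have h4 := eleven_mul_finrank_le (y : Module.End F V) (fun k : Fin 11 => μ * η⁻¹ ^ (k : ℕ))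
    (fun i j h => Fin.ext (root_pow_inj hi1 hi2 i.2 j.2 (mul_left_cancel₀ hμ h))) L (by
      intro k x x' h
      apply Subtype.ext
      have h5 : ((b : Module.End F V) ^ (k : ℕ)) x.1 = ((b : Module.End F V) ^ (k : ℕ)) x'.1 := h
      have h6 : ∀ z, ((b⁻¹ : (Module.End F V)ˣ).val ^ (k : ℕ)) (((b : Module.End F V) ^ (k : ℕ)) z)
          = z := by
        intro z
        rw [← Module.End.mul_apply, ← Units.val_pow_eq_pow_val, ← Units.val_pow_eq_pow_val,
          ← Units.val_mul, inv_pow, inv_mul_cancel]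
        rfl
      rw [← h6 x.1, h5, h6]) (by
      intro k x
      show y.val (((b : Module.End F V) ^ (k : ℕ)) x.1) =
        (μ * η⁻¹ ^ (k : ℕ)) • (((b : Module.End F V) ^ (k : ℕ)) x.1)
      have h5 := LinearMap.congr_fun (conj_pow_aux h3 (k : ℕ)) x.1
      rw [Module.End.mul_apply, hI _ x.2, LinearMap.smul_apply, Module.End.mul_apply] at h5
      have h6 : y.val (((b : Module.End F V) ^ (k : ℕ)) x.1) =
          η⁻¹ ^ (k : ℕ) • (η ^ (k : ℕ) • (y.val (((b : Module.End F V) ^ (k : ℕ)) x.1))) := by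
        rw [smul_smul, ← mul_pow, inv_mul_cancel₀ hη0, one_pow, one_smul]
      rw [h6, ← h5, map_smul, smul_smul, mul_comm])
  rw [hV] at h4
  show finrank F I ≤ 1
  omega

/-- the number of stable subspaces -/
theorem card_stable [FiniteDimensional F V] (hV : finrank F V = 11)
    {y : (Module.End F V)ˣ} (hy : IsM y) {μ : F} (hμ : μ ≠ 0)
    (hc : (y : Module.End F V) ^ 11 = μ ^ 11 • 1) :
    Nat.card {U : Submodule F V // ∀ x ∈ U, y.val x ∈ U} ≤ 2 ^ 11 := by
  classical
  obtain ⟨b, η, h1, h2, h3⟩ := hy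
  have hη0 : η ≠ 0 := by
    rintro rfl
    rw [zero_pow (by norm_num)] at h1
    exact zero_ne_one h1
  let T : Module.End F V := μ⁻¹ • y.val
  have hT : T ^ 11 = 1 := by
    show (μ⁻¹ • y.val) ^ 11 = 1
    rw [_root_.smul_pow, hc, smul_smul, ← mul_pow, inv_mul_cancel₀ hμ, one_pow, one_smul]
  let E : Fin 11 → Submodule F V := fun k =>
    LinearMap.ker ((y : Module.End F V) - (μ * η⁻¹ ^ (k : ℕ)) • 1)
  have hE : ∀ (k : Fin 11) (v : V), P T η k v ∈ E k := by
    intro k v
    have h4 := P_eig hT h1 (k : ℕ) v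
    show ((y : Module.End F V) - (μ * η⁻¹ ^ (k : ℕ)) • 1) (P T η k v) = 0
    rw [LinearMap.sub_apply, sub_eq_zero]
    have h5 : (μ * η⁻¹ ^ (k : ℕ)) • P T η k v = y.val (P T η k v) := by
      conv_lhs => rw [← h4]
      show (μ * η⁻¹ ^ (k : ℕ)) • (η ^ (k : ℕ) • (μ⁻¹ • y.val (P T η k v))) = _
      rw [smul_smul, smul_smul]
      have : μ * η⁻¹ ^ (k : ℕ) * (η ^ (k : ℕ) * μ⁻¹) = 1 := by
        rw [mul_assoc, ← mul_assoc (η⁻¹ ^ (k : ℕ)), ← mul_pow, inv_mul_cancel₀ hη0, one_pow,
          one_mul, mul_inv_cancel₀ hμ]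
      rw [mul_assoc] at this
      rw [← mul_assoc] at this
      rw [show μ * η⁻¹ ^ (k : ℕ) * η ^ (k : ℕ) * μ⁻¹ = 1 by
        rw [mul_assoc μ, ← mul_pow, inv_mul_cancel₀ hη0, one_pow, mul_one, mul_inv_cancel₀ hμ]]
      rw [one_smul]
    rw [← h5]
    rfl
  have hPU : ∀ U : Submodule F V, (∀ x ∈ U, y.val x ∈ U) → ∀ v ∈ U, ∀ k, P T η k v ∈ U := by
    intro U hU v hv k
    unfold P
    apply Submodule.sum_mem
    intro j hj
    clear hj
    apply Submodule.smul_mem
    induction j with
    | zero => exact hv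
    | succ j ih =>
      rw [pow_succ', Module.End.mul_apply]
      exact Submodule.smul_mem _ _ (hU _ ih)
  have hline : ∀ (U : Submodule F V) (k : Fin 11) (w : V), w ∈ E k → w ≠ 0 → w ∈ U → E k ≤ U := by
    intro U k w hw hw0 hwU x hx
    have h4 : finrank F (E k) ≤ 1 := finrank_eig_le hV h1 h2 h3
      (mul_ne_zero hμ (pow_ne_zero _ (inv_ne_zero hη0)))
    have h5 : finrank F (E k) = 1 := by
      have h6 : 0 < finrank F (E k) := by
        rw [Module.finrank_pos_iff]
        exact ⟨⟨w, hw⟩, 0, fun h => hw0 (congrArg Subtype.val h)⟩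
      omega
    obtain ⟨c, hc⟩ := exists_smul_eq_of_finrank_eq_one h5 (x := (⟨w, hw⟩ : E k))
      (fun h => hw0 (congrArg Subtype.val h)) ⟨x, hx⟩
    have h6 := congrArg Subtype.val hc
    change c • w = x at h6
    rw [← h6]
    exact U.smul_mem _ hwU
  have hle : ∀ U U' : Submodule F V, (∀ x ∈ U, y.val x ∈ U) → (∀ k, E k ≤ U → E k ≤ U') →
      U ≤ U' := by
    intro U U' hU hUU v hv
    have h4 := P_sum T h1 h2 v
    have h5 : (11 : F) • v ∈ U' := by
      rw [← h4]
      apply Submodule.sum_mem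
      intro k hk
      by_cases hP : P T η k v = 0
      · rw [hP]; exact U'.zero_mem
      · let k' : Fin 11 := ⟨k, Finset.mem_range.mp hk⟩
        exact hUU k' (hline U k' _ (hE k' v) hP (hPU U hU v hv k)) (hE k' v)
    have h6 := U'.smul_mem (11 : F)⁻¹ h5
    rwa [smul_smul, inv_mul_cancel₀ (eleven_ne_zero h1 h2), one_smul] at h6
  let f : {U : Submodule F V // ∀ x ∈ U, y.val x ∈ U} → Finset (Fin 11) := fun U =>
    Finset.univ.filter (fun k => E k ≤ U.1)
  have hf : Function.Injective f := by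
    intro U U' h
    apply Subtype.ext
    have h4 : ∀ k, E k ≤ U.1 ↔ E k ≤ U'.1 := by
      intro k
      have h5 : k ∈ f U ↔ k ∈ f U' := by rw [h]
      simpa [f] using h5
    exact le_antisymm (hle _ _ U.2 (fun k hk => (h4 k).mp hk))
      (hle _ _ U'.2 (fun k hk => (h4 k).mpr hk))
  have h4 := Nat.card_le_card_of_injective f hf
  rw [Nat.card_eq_fintype_card (α := Finset (Fin 11)), Fintype.card_finset, Fintype.card_fin] at h4
  exact h4

/-- the number of maps sending a subspace of dimension eight into another -/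
theorem card_maps [Finite F] [FiniteDimensional F V] (hV : finrank F V = 11)
    (U U' : Submodule F V) (hU : finrank F U = 8) (hU' : finrank F U' = 8) :
    Nat.card {σ : Module.End F V // ∀ x ∈ U, σ x ∈ U'} ≤ Nat.card F ^ 97 := by
  let Φ : Module.End F V →ₗ[F] (U →ₗ[F] (V ⧸ U')) :=
    { toFun := fun σ => U'.mkQ ∘ₗ σ ∘ₗ U.subtype
      map_add' := by
        intro σ τ
        ext x
        simp
      map_smul' := by
        intro c σ
        ext x
        simp }
  have hsurj : Function.Surjective Φ := by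
    intro φ
    obtain ⟨s, hs⟩ := LinearMap.exists_rightInverse_of_surjective U'.mkQ
      (LinearMap.range_eq_top.mpr (Submodule.mkQ_surjective U'))
    obtain ⟨g, hg⟩ := LinearMap.exists_extend (s ∘ₗ φ)
    refine ⟨g, ?_⟩
    show U'.mkQ ∘ₗ g ∘ₗ U.subtype = φ
    rw [hg, ← LinearMap.comp_assoc, hs, LinearMap.id_comp]
  have h1 := LinearMap.finrank_range_add_finrank_ker Φ
  rw [LinearMap.range_eq_top.mpr hsurj, finrank_top, Module.finrank_linearMap,
    Module.finrank_linearMap, hV, hU] at h1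
  have h2 : finrank F (V ⧸ U') = 3 := by
    have := Submodule.finrank_quotient_add_finrank U'
    omega
  rw [h2] at h1
  have h3 : Nat.card {σ : Module.End F V // ∀ x ∈ U, σ x ∈ U'} = Nat.card (LinearMap.ker Φ) := by
    apply Nat.card_congr
    refine Equiv.subtypeEquivRight ?_
    intro σ
    rw [LinearMap.mem_ker]
    constructor
    · intro h
      ext x
      show U'.mkQ (σ x.1) = 0
      rw [Submodule.mkQ_apply, Submodule.Quotient.mk_eq_zero]
      exact h x.1 x.2
    · intro h x hx
      have h4 := LinearMap.congr_fun h ⟨x, hx⟩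
      change U'.mkQ (σ x) = 0 at h4
      rwa [Submodule.mkQ_apply, Submodule.Quotient.mk_eq_zero] at h4
  rw [h3, Module.natCard_eq_pow_finrank (K := F)]
  exact Nat.pow_le_pow_right Nat.card_pos (by omega)

theorem card_GL_ge [Finite F] [FiniteDimensional F V] (hV : finrank F V = 11) :
    Nat.card F ^ 121 ≤ 2 ^ 11 * Nat.card (Module.End F V)ˣ := by
  classical
  have : Fintype F := Fintype.ofFinite F
  have e : V ≃ₗ[F] (Fin 11 → F) := LinearEquiv.ofFinrankEq _ _ (by
    rw [hV, Module.finrank_fintype_fun_eq_card, Fintype.card_fin])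
  let e2 : Module.End F V ≃* Matrix (Fin 11) (Fin 11) F :=
    (e.conjAlgEquiv F).toMulEquiv.trans (LinearMap.toMatrixAlgEquiv' (R := F)).toMulEquiv
  have h1 : Nat.card (Module.End F V)ˣ = Nat.card (Matrix.GeneralLinearGroup (Fin 11) F) :=
    Nat.card_congr (Units.mapEquiv e2).toEquiv
  rw [h1, Matrix.card_GL_field, Nat.card_eq_fintype_card]
  set q := Fintype.card F with hq
  have hq2 : 2 ≤ q := Fintype.one_lt_card
  have h2 : ∀ i ∈ (Finset.univ : Finset (Fin 11)), q ^ 11 ≤ 2 * (q ^ 11 - q ^ (i : ℕ)) := by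
    intro i _
    have h3 : q ^ (i : ℕ) ≤ q ^ 10 := Nat.pow_le_pow_right (by omega) (by omega)
    have h4 : 2 * q ^ 10 ≤ q ^ 11 := by
      rw [pow_succ q 10, mul_comm]
      exact Nat.mul_le_mul_left _ hq2
    omega
  have h3 := Finset.prod_le_prod' h2
  rw [Finset.prod_const, Finset.card_univ, Fintype.card_fin, ← pow_mul, Finset.prod_mul_distrib,
    Finset.prod_const, Finset.card_univ, Fintype.card_fin] at h3
  exact h3

end Pool.Agent.K4H75.PG
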